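import Pool.Agent.Lib.MP_a325a5_ag.UL.TDloc

/-! The dimension theorem for one equation.

Paper proof.  Let `P` be a minimal prime over `(a)` in the finitely generated domain `R` over the
field `K`; Krull: `height P ≤ 1` (`Ideal.height_le_one_of_isPrincipal_of_mem_minimalPrimes`).
Noether normalisation: `A = K[X_1..X_n] → R` injective, integral
(`exists_integral_inj_algHom_of_fg`); `n ≥ s + 1` as `R` is algebraic over `A` and contains
`s + 1` algebraically independent elements.  Going down
(`Mathlib.RingTheory.IntegralClosure.GoingDown`: `A` is integrally closed, `R` a domain) gives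
`height (P ∩ A) ≤ height P ≤ 1`.  As `A` is a UFD, `P ∩ A = 0` or `P ∩ A = (g)` with `g` prime
(a nonzero prime contains a prime element `g`, and `(0) < (g) ≤ P ∩ A` has height `≤ 1`).  If a
variable `X_i` occurs in `g`, the other `n - 1` variables are algebraically independent modulo
`(g)` (a nonzero multiple of `g` has positive degree in `X_i`), hence in `R/P`.
Only `s ≤ n - 1` of them are needed. -/

namespace Pool.Agent.Lib.MP_a325a5_ag.UL

open MvPolynomial

/-- For a prime `Q` of height at most one of `K[X_1..X_n]`, some `s < n` variables are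
independent modulo `Q`. -/
theorem exists_vars_notMem {K : Type} [Field K] {n s : ℕ} (hsn : s + 1 ≤ n)
    (Q : Ideal (MvPolynomial (Fin n) K)) [Q.IsPrime] (hQ : Q.height ≤ 1) :
    ∃ e : Fin s → Fin n, ∀ f : MvPolynomial (Fin s) K, f ≠ 0 → rename e f ∉ Q := by
  classical
  by_cases hb : Q = ⊥
  · refine ⟨Fin.castLE (by omega), fun f hf hmem => hf ?_⟩
    rw [hb, Ideal.mem_bot] at hmem
    exact (rename_injective _ (Fin.castLE_injective _)) (by rw [hmem, map_zero])
  · have h1 : Q.height = 1 := by
      refine le_antisymm hQ ?_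
      rw [Order.one_le_iff_ne_zero]
      intro h0
      exact hb (by simpa using h0)
    obtain ⟨q, hqm, hqp⟩ := Ideal.IsPrime.exists_mem_prime_of_ne_bot ‹Q.IsPrime› hb
    have hspan : Q = Ideal.span {q} := Q.eq_span_singleton_of_height_eq_one h1 hqm hqp
    obtain ⟨i, hi⟩ : ∃ i, 0 < degreeOf i q := by
      by_contra hcon
      push Not at hcon
      have hv : q.totalDegree = 0 := by
        rw [totalDegree_eq_zero_iff]
        intro m hm j
        have h2 := (degreeOf_le_iff (n := j) (f := q) (d := 0)).mp (hcon j) m hm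
        omega
      rw [totalDegree_eq_zero_iff_eq_C] at hv
      rw [hv] at hqp
      have hc : coeff 0 q ≠ 0 := by
        intro h0
        rw [h0, map_zero] at hqp
        exact hqp.ne_zero rfl
      exact hqp.not_isUnit ((isUnit_iff_ne_zero.mpr hc).map C)
    obtain ⟨m, rfl⟩ : ∃ m, n = m + 1 := ⟨n - 1, by omega⟩
    refine ⟨fun k => i.succAbove (Fin.castLE (by omega) k), fun f hf hmem => ?_⟩
    have hinj : Function.Injective (fun k : Fin s => i.succAbove (Fin.castLE (by omega : s ≤ m) k)) :=
      Fin.succAbove_right_injective.comp (Fin.castLE_injective _)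
    rw [hspan, Ideal.mem_span_singleton] at hmem
    obtain ⟨h, hh⟩ := hmem
    have hne : rename (fun k : Fin s => i.succAbove (Fin.castLE (by omega : s ≤ m) k)) f ≠ 0 := by
      intro h0
      exact hf ((rename_injective _ hinj) (by rw [h0, map_zero]))
    have hh0 : h ≠ 0 := by
      rintro rfl
      rw [mul_zero] at hh
      exact hne hh
    have hd : degreeOf i (q * h) = degreeOf i q + degreeOf i h :=
      degreeOf_mul_eq hqp.ne_zero hh0
    have hz : degreeOf i (rename (fun k : Fin s => i.succAbove (Fin.castLE (by omega : s ≤ m) k)) f) = 0 := by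
      rw [← Nat.le_zero, degreeOf_le_iff]
      intro m hm
      rw [Nat.le_zero]
      by_contra hmi
      have := (mem_support_iff).mp hm
      obtain ⟨u, hu, -⟩ := coeff_rename_ne_zero _ _ _ this
      have : (Finsupp.mapDomain (fun k : Fin s => i.succAbove (Fin.castLE (by omega) k)) u) i = 0 := by
        apply Finsupp.mapDomain_of_notMem_range
        rintro ⟨k, hk⟩
        exact Fin.succAbove_ne _ _ hk
      rw [hu] at this
      exact hmi this
    rw [hh, hd] at hz
    omega

theorem exists_indep_of_mem_minimalPrimes_singleton {K R : Type} [Field K] [CommRing R]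
    [IsDomain R] [Algebra K R] [Algebra.FiniteType K R] {s : ℕ} (y : Fin (s + 1) → R)
    (hy : AlgebraicIndependent K y) (a : R) (P : Ideal R)
    (hP : P ∈ (Ideal.span {a}).minimalPrimes) :
    ∃ z : Fin s → R, AlgebraicIndependent K (fun i => Ideal.Quotient.mk P (z i)) := by
  classical
  have hPp : P.IsPrime := hP.1.1
  have : IsNoetherianRing R := Algebra.FiniteType.isNoetherianRing K R
  have hh : P.height ≤ 1 := Ideal.height_le_one_of_isPrincipal_of_mem_minimalPrimes _ P hP
  obtain ⟨n, g, hinj, hint⟩ := exists_integral_inj_algHom_of_fg K R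
  let : Algebra (MvPolynomial (Fin n) K) R := g.toRingHom.toAlgebra
  have : IsScalarTower K (MvPolynomial (Fin n) K) R := IsScalarTower.of_algHom g
  have : Algebra.IsIntegral (MvPolynomial (Fin n) K) R := ⟨hint⟩
  have : FaithfulSMul (MvPolynomial (Fin n) K) R :=
    (faithfulSMul_iff_algebraMap_injective _ R).mpr hinj
  have : Algebra.IsAlgebraic (MvPolynomial (Fin n) K) R := Algebra.IsIntegral.isAlgebraic
  have hcard : s + 1 ≤ n := by
    have h1 : Algebra.trdeg K (MvPolynomial (Fin n) K) + Algebra.trdeg (MvPolynomial (Fin n) K) R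
        = Algebra.trdeg K R := trdeg_add_eq K (MvPolynomial (Fin n) K)
    have h2 : Algebra.trdeg (MvPolynomial (Fin n) K) R = 0 := by
      exact trdeg_eq_zero
    have h3 : Algebra.trdeg K (MvPolynomial (Fin n) K) = n := by
      rw [MvPolynomial.trdeg_of_isDomain]; simp
    have h4 : Cardinal.mk (Fin (s + 1)) ≤ Algebra.trdeg K R := hy.cardinalMk_le_trdeg
    rw [← h1, h2, h3, add_zero, Cardinal.mk_fin] at h4
    exact_mod_cast h4
  have hQ : (P.comap (algebraMap (MvPolynomial (Fin n) K) R)).height ≤ 1 := by
    have : P.LiesOver (P.comap (algebraMap (MvPolynomial (Fin n) K) R)) := ⟨rfl⟩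
    have h1 := Ideal.height_eq_height_add_of_liesOver_of_hasGoingDown
      (P.comap (algebraMap (MvPolynomial (Fin n) K) R)) P
    exact le_self_add.trans (h1.symm.le.trans hh)
  obtain ⟨e, he⟩ := exists_vars_notMem hcard (P.comap (algebraMap (MvPolynomial (Fin n) K) R)) hQ
  refine ⟨fun k => g (X (e k)), ?_⟩
  rw [algebraicIndependent_iff]
  intro f hf
  by_contra hf0
  apply he f hf0
  rw [Ideal.mem_comap]
  have h1 : aeval (fun i => (Ideal.Quotient.mk P) (g (X (e i)))) f
      = Ideal.Quotient.mk P (algebraMap (MvPolynomial (Fin n) K) R (rename e f)) := by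
    have h2 : (algebraMap (MvPolynomial (Fin n) K) R (rename e f)) = g (rename e f) := rfl
    rw [h2]
    have h3 : g (rename e f) = aeval (fun i => g (X (e i))) f := by
      have : (g.comp (rename e)) = aeval (fun i => g (X (e i))) := by
        ext i; simp
      rw [← this]; rfl
    rw [h3]
    have h4 : aeval (fun i => (Ideal.Quotient.mk P) (g (X (e i)))) =
        (Ideal.Quotient.mkₐ K P).comp (aeval (fun i => g (X (e i)))) := by
      ext i; simp
    rw [h4]; rfl
  rw [h1, Ideal.Quotient.eq_zero_iff_mem] at hf
  exact hf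

end Pool.Agent.Lib.MP_a325a5_ag.UL
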