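import Pool.Agent.Lib.MP_a325a5_ag.UL.Defs

/-! Points with coordinates in extension fields: locus, multiplicative rank, transcendence degree. -/

namespace Pool.Agent.Lib.MP_a325a5_ag.UL

open MvPolynomial

/-- The ideal over `K` of a point `p` with coordinates in the extension field `L`. -/
noncomputable def locus (K : Type) [Field K] {L : Type} [Field L] [Algebra K L] {ι : Type}
    (p : ι → Lˣ) : Ideal (MvPolynomial ι K) :=
  RingHom.ker (aeval (fun i => (p i : L)) : MvPolynomial ι K →ₐ[K] L)

/-- The rank of the group generated by the coordinates of `p`. -/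
noncomputable def mr {L : Type} [Field L] {ι : Type} (p : ι → Lˣ) : ℕ :=
  Module.finrank ℤ (Submodule.span ℤ (Set.range fun i => Additive.ofMul (p i)))

open Classical in
/-- The transcendence degree over `K` of the coordinates of `p`. -/
noncomputable def td (K : Type) [Field K] {L : Type} [Field L] [Algebra K L] {ι : Type}
    [Fintype ι] (p : ι → Lˣ) : ℕ :=
  (Finset.univ.filter fun J : Finset ι =>
    AlgebraicIndependent K fun j : J => ((p j : Lˣ) : L)).sup Finset.card

/-- The embedding of the units of `K` into the units of the extension `L`. -/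
noncomputable def cst (K L : Type) [Field K] [Field L] [Algebra K L] : Kˣ →* Lˣ :=
  Units.map (algebraMap K L : K →* L)

@[simp] theorem cst_val (K L : Type) [Field K] [Field L] [Algebra K L] (x : Kˣ) :
    ((cst K L x : Lˣ) : L) = algebraMap K L x := rfl

theorem mem_locus {K : Type} [Field K] {L : Type} [Field L] [Algebra K L] {ι : Type}
    {p : ι → Lˣ} {f : MvPolynomial ι K} : f ∈ locus K p ↔ aeval (fun i => (p i : L)) f = 0 :=
  RingHom.mem_ker

theorem mem_vanIdeal {K : Type} [Field K] {ι : Type} {Z : Set (ι → Kˣ)} {f : MvPolynomial ι K} :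
    f ∈ vanIdeal Z ↔ ∀ z ∈ Z, eval (fun i => (z i : K)) f = 0 := Iff.rfl

theorem mem_locus_self {K : Type} [Field K] {ι : Type} {x : ι → Kˣ} {f : MvPolynomial ι K} :
    f ∈ locus K x ↔ eval (fun i => (x i : K)) f = 0 := by
  rw [mem_locus, ← MvPolynomial.coe_aeval_eq_eval]
  rfl

instance locus_isPrime (K : Type) [Field K] {L : Type} [Field L] [Algebra K L] {ι : Type}
    (p : ι → Lˣ) : (locus K p).IsPrime :=
  RingHom.ker_isPrime _

theorem vanIdeal_singleton {K : Type} [Field K] {ι : Type} (x : ι → Kˣ) :
    vanIdeal {x} = locus K x := by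
  ext f
  rw [mem_vanIdeal, mem_locus_self]
  simp

theorem vanIdeal_anti {K : Type} [Field K] {ι : Type} {Z W : Set (ι → Kˣ)} (h : Z ⊆ W) :
    vanIdeal W ≤ vanIdeal Z := fun _ hf z hz => hf z (h hz)

/-- Membership in an irreducible closed set. -/
theorem mem_iff_le_locus {K : Type} [Field K] {ι : Type} {Z : Set (ι → Kˣ)} (hZ : IrrClosed Z)
    (x : ι → Kˣ) : x ∈ Z ↔ vanIdeal Z ≤ locus K x := by
  constructor
  · intro hx f hf
    exact mem_locus_self.mpr (hf x hx)
  · intro h
    exact hZ.2 x fun f hf => mem_locus_self.mp (h hf)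

/-- Inclusion in an irreducible closed set. -/
theorem subset_iff {K : Type} [Field K] {ι : Type} {Z W : Set (ι → Kˣ)} (hW : IrrClosed W) :
    Z ⊆ W ↔ vanIdeal W ≤ vanIdeal Z := by
  constructor
  · exact vanIdeal_anti
  · intro h z hz
    exact hW.2 z fun f hf => h hf z hz

end Pool.Agent.Lib.MP_a325a5_ag.UL
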