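import Pool.Agent.Lib.MP_a325a5_ag.UL.MRa

/-! The multiplicative rank, second part: maximal independent sets of coordinates.

Proof hints.  Choose `I` of maximal cardinality among the finite sets of coordinates that are
multiplicatively independent (`mr_eq_card_iff`).  For `i ∉ I` the family `I ∪ {i}` has a relation
`∏ p ^ b = 1`, `b ≠ 0`, in which `b i ≠ 0`; so `p i ^ |b i|` is a monomial in the `p j`, `j ∈ I`.
Then `mr p ≤ mr (p on I)` by `mr_le_of_pow_mem`, and `≥` as well. -/

namespace Pool.Agent.Lib.MP_a325a5_ag.UL

open MvPolynomial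

variable {L : Type} [Field L] {ι : Type} [Fintype ι]

private theorem MRb_indep (p : ι → Lˣ) (J : Finset ι) : mr (fun i : J => p i) = J.card ↔
    ∀ b : ι → ℤ, (∀ j, j ∉ J → b j = 0) → ∏ j, p j ^ b j = 1 → b = 0 := by
  classical
  have h0 : J.card = Fintype.card J := (Fintype.card_coe J).symm
  rw [h0, mr_eq_card_iff]
  constructor
  · intro h b hb hp
    have h1 : ∏ j : J, p j ^ b j = 1 := by
      rw [← hp, Finset.prod_coe_sort J (fun j => p j ^ b j)]
      refine Finset.prod_subset (Finset.subset_univ J) fun j _ hj => ?_
      rw [hb j hj, zpow_zero]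
    have h2 := h (fun j : J => b j) h1
    funext j
    by_cases hj : j ∈ J
    · exact congrFun h2 ⟨j, hj⟩
    · exact hb j hj
  · intro h a ha
    have h1 := h (fun j => if hj : j ∈ J then a ⟨j, hj⟩ else 0) (fun j hj => dif_neg hj) ?_
    · funext j
      have h2 := congrFun h1 j
      rw [dif_pos j.2] at h2
      exact h2
    · rw [← ha]
      have h3 : ∏ j : J, p j ^ a j = ∏ j : J, p j ^ (if hj : (j : ι) ∈ J then a ⟨j, hj⟩ else 0) := by
        refine Finset.prod_congr rfl fun j _ => ?_
        rw [dif_pos j.2]
      rw [h3, Finset.prod_coe_sort J (fun j => p j ^ (if hj : j ∈ J then a ⟨j, hj⟩ else 0))]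
      refine (Finset.prod_subset (Finset.subset_univ J) fun j _ hj => ?_).symm
      rw [dif_neg hj, zpow_zero]

/-- A maximal multiplicatively independent set of coordinates. -/
theorem mr_spec (p : ι → Lˣ) :
    ∃ I : Finset ι, I.card = mr p ∧ mr (fun i : I => p i) = I.card ∧
      ∀ i, ∃ (N : ℕ) (a : ι → ℤ), 0 < N ∧ (∀ j, j ∉ I → a j = 0) ∧ p i ^ N = ∏ j, p j ^ a j := by
  classical
  have hne : (Finset.univ.filter fun J : Finset ι => mr (fun i : J => p i) = J.card).Nonempty := by
    refine ⟨∅, Finset.mem_filter.2 ⟨Finset.mem_univ _, ?_⟩⟩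
    rw [MRb_indep]
    intro b hb _
    funext j
    exact hb j (Finset.notMem_empty j)
  obtain ⟨I, hI, hmax⟩ := Finset.exists_max_image _ Finset.card hne
  have hI1 := (Finset.mem_filter.1 hI).2
  have hrel : ∀ i, ∃ (N : ℕ) (a : ι → ℤ), 0 < N ∧ (∀ j, j ∉ I → a j = 0) ∧
      p i ^ N = ∏ j, p j ^ a j := by
    intro i
    by_cases hi : i ∈ I
    · refine ⟨1, Pi.single i 1, one_pos, fun j hj => ?_, ?_⟩
      · have : j ≠ i := fun h => hj (h ▸ hi)
        exact Pi.single_eq_of_ne this 1
      · rw [Finset.prod_eq_single i]
        · rw [Pi.single_eq_same, zpow_one, pow_one]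
        · intro j _ hj
          rw [Pi.single_eq_of_ne hj, zpow_zero]
        · intro h
          exact absurd (Finset.mem_univ i) h
    · have h1 : ¬ mr (fun j : (insert i I : Finset ι) => p j) = (insert i I).card := by
        intro h
        have h2 := hmax (insert i I) (Finset.mem_filter.2 ⟨Finset.mem_univ _, h⟩)
        rw [Finset.card_insert_of_notMem hi] at h2
        omega
      rw [MRb_indep] at h1
      push Not at h1
      obtain ⟨b, hb, hp, hb0⟩ := h1
      have hbi : b i ≠ 0 := by
        intro h
        refine hb0 ((MRb_indep p I).1 hI1 b (fun j hj => ?_) hp)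
        by_cases hji : j = i
        · rw [hji, h]
        · exact hb j fun h' => by
            rcases Finset.mem_insert.1 h' with h'' | h''
            · exact hji h''
            · exact hj h''
      refine ⟨(b i).natAbs, fun j => if j = i then 0 else - ((b i).sign * b j), Int.natAbs_pos.2 hbi, ?_, ?_⟩
      · intro j hj
        by_cases hji : j = i
        · exact if_pos hji
        · have h3 : b j = 0 := hb j fun h' => by
            rcases Finset.mem_insert.1 h' with h'' | h''
            · exact hji h''
            · exact hj h''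
          simp only [if_neg hji, h3, mul_zero, neg_zero]
      · have h3 : ∀ j, p j ^ (if j = i then 0 else - ((b i).sign * b j)) =
            (p j ^ b j) ^ (- (b i).sign) * (if j = i then p i ^ (b i).natAbs else 1) := by
          intro j
          by_cases hji : j = i
          · subst hji
            rw [if_pos rfl, if_pos rfl, ← zpow_natCast, ← zpow_mul, ← zpow_add]
            congr 1
            have h4 : ((b j).natAbs : ℤ) = (b j).sign * b j := by
              rw [Int.natCast_natAbs, ← Int.sign_mul_self_eq_abs]
            rw [h4]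
            ring
          · rw [if_neg hji, if_neg hji, mul_one, ← zpow_mul]
            congr 1
            ring
        rw [Finset.prod_congr rfl fun j _ => h3 j, Finset.prod_mul_distrib, Finset.prod_zpow, hp, one_zpow, one_mul,
          Finset.prod_ite_eq' Finset.univ i, if_pos (Finset.mem_univ i)]
  refine ⟨I, ?_, hI1, hrel⟩
  refine le_antisymm ?_ ?_
  · rw [← hI1]
    refine mr_le_of_pow_mem p (fun i : I => p i) fun j => ⟨1, one_pos, ?_⟩
    rw [pow_one]
    exact Subgroup.subset_closure (Set.mem_range_self (j : ι))
  · rw [← hI1]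
    refine mr_le_of_pow_mem (fun i : I => p i) p fun i => ?_
    obtain ⟨N, a, hN, ha, hp⟩ := hrel i
    refine ⟨N, hN, ?_⟩
    rw [hp]
    refine Subgroup.prod_mem _ fun j _ => ?_
    by_cases hj : j ∈ I
    · exact Subgroup.zpow_mem _ (Subgroup.subset_closure (Set.mem_range_self (f := fun i : I => p i) ⟨j, hj⟩)) _
    · rw [ha j hj, zpow_zero]
      exact Subgroup.one_mem _

end Pool.Agent.Lib.MP_a325a5_ag.UL
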