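import Pool.Agent.Lib.MP_a325a5_ag.UL.Pts

/-! The multiplicative rank, first part.

Proof hints.  `mr p` is the `finrank` over `ℤ` of the span of the coordinates in `Additive Lˣ`.
For finitely generated `ℤ`-modules `M ⊆ M'` one has `finrank M ≤ finrank M'`; torsion and finite
index do not matter: if `N • M' ≤ M` then `finrank M' ≤ finrank M` (multiplication by `N` has
finite kernel; or: `ℤ`-linearly independent elements of `M'` multiplied by `N` are independent
elements of `M`).  `Module.finrank` of the span of a finite family equals its cardinality iff the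
family is linearly independent (`linearIndependent_iff_card_eq_finrank_span` or
`rank_span` style lemmas; over the domain `ℤ`). -/

namespace Pool.Agent.Lib.MP_a325a5_ag.UL

open MvPolynomial

variable {L L' : Type} [Field L] [Field L'] {ι κ : Type} [Fintype ι] [Fintype κ]

omit [Fintype ι] in
private theorem MRa_mem {p : ι → Lˣ} {x : Lˣ} (hx : x ∈ Subgroup.closure (Set.range p)) :
    Additive.ofMul x ∈ Submodule.span ℤ (Set.range fun i => Additive.ofMul (p i)) := by
  induction hx using Subgroup.closure_induction with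
  | mem x hx =>
    obtain ⟨i, rfl⟩ := hx
    exact Submodule.subset_span ⟨i, rfl⟩
  | one =>
    rw [ofMul_one]
    exact Submodule.zero_mem _
  | mul x y _ _ h1 h2 =>
    rw [ofMul_mul]
    exact Submodule.add_mem _ h1 h2
  | inv x _ h1 =>
    rw [ofMul_inv]
    exact Submodule.neg_mem _ h1

private instance MRa_fin (p : ι → Lˣ) :
    Module.Finite ℤ (Submodule.span ℤ (Set.range fun i => Additive.ofMul (p i))) :=
  Module.Finite.span_of_finite ℤ (Set.finite_range _)

private theorem MRa_finrank_le {V : Type} [AddCommGroup V] (A B : Submodule ℤ V) [Module.Finite ℤ A]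
    [Module.Finite ℤ B] (N : ℤ) (hN : N ≠ 0) (h : ∀ x ∈ B, N • x ∈ A) :
    Module.finrank ℤ B ≤ Module.finrank ℤ A := by
  let f : B →ₗ[ℤ] V := N • B.subtype
  have hf : ∀ x : B, f x = N • (x : V) := fun x => rfl
  have h1 := Submodule.finrank_quotient_add_finrank (LinearMap.ker f)
  have h2 : Module.finrank ℤ (LinearMap.ker f) = 0 := by
    rw [Module.finrank_eq_zero_iff_isTorsion]
    intro x
    refine ⟨⟨N, mem_nonZeroDivisors_of_ne_zero hN⟩, ?_⟩
    have h3 : f x.1 = 0 := x.2
    rw [hf] at h3
    apply Subtype.ext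
    apply Subtype.ext
    exact h3
  have h3 : Module.finrank ℤ (B ⧸ LinearMap.ker f) = Module.finrank ℤ (LinearMap.range f) :=
    f.quotKerEquivRange.finrank_eq
  have h4 : LinearMap.range f ≤ A := by
    rintro _ ⟨x, rfl⟩
    rw [hf]
    exact h x x.2
  have h5 := Submodule.finrank_mono h4
  omega

/-- The span only depends on the coordinates up to torsion and finite index. -/
theorem mr_le_of_pow_mem (p : ι → Lˣ) (q : κ → Lˣ)
    (h : ∀ j, ∃ N : ℕ, 0 < N ∧ q j ^ N ∈ Subgroup.closure (Set.range p)) : mr q ≤ mr p := by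
  classical
  choose N hN hq using h
  unfold mr
  refine MRa_finrank_le _ _ ((∏ j, N j : ℕ) : ℤ) ?_ ?_
  · exact_mod_cast (Finset.prod_pos fun j _ => hN j).ne'
  · have hle : Submodule.span ℤ (Set.range fun j => Additive.ofMul (q j)) ≤
        (Submodule.span ℤ (Set.range fun i => Additive.ofMul (p i))).comap
          ((((∏ j, N j : ℕ) : ℤ)) • (LinearMap.id : Additive Lˣ →ₗ[ℤ] Additive Lˣ)) := by
      rw [Submodule.span_le]
      rintro _ ⟨j, rfl⟩
      have h1 := MRa_mem (hq j)
      rw [ofMul_pow] at h1
      have h2 := Submodule.smul_mem _ ((∏ i ∈ Finset.univ.erase j, N i : ℕ) : ℤ) h1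
      rw [← natCast_zsmul, smul_smul, ← Nat.cast_mul, Finset.prod_erase_mul _ _ (Finset.mem_univ j)] at h2
      exact h2
    exact fun x hx => hle hx

theorem mr_le_card (p : ι → Lˣ) : mr p ≤ Fintype.card ι :=
  finrank_range_le_card _

theorem mr_sumElim_le (p : ι → Lˣ) (q : κ → Lˣ) : mr (Sum.elim p q) ≤ mr p + Fintype.card κ := by
  have h1 : Submodule.span ℤ (Set.range fun i => Additive.ofMul (Sum.elim p q i)) =
      Submodule.span ℤ (Set.range fun i => Additive.ofMul (p i)) ⊔
        Submodule.span ℤ (Set.range fun i => Additive.ofMul (q i)) := by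
    rw [← Submodule.span_union]
    congr 1
    ext x
    constructor
    · rintro ⟨i | i, rfl⟩
      · exact Or.inl ⟨i, rfl⟩
      · exact Or.inr ⟨i, rfl⟩
    · rintro (⟨i, rfl⟩ | ⟨i, rfl⟩)
      · exact ⟨Sum.inl i, rfl⟩
      · exact ⟨Sum.inr i, rfl⟩
  have h2 := Submodule.rank_add_le_rank_add_rank
    (Submodule.span ℤ (Set.range fun i => Additive.ofMul (p i)))
    (Submodule.span ℤ (Set.range fun i => Additive.ofMul (q i)))
  rw [← h1, ← Module.finrank_eq_rank, ← Module.finrank_eq_rank, ← Module.finrank_eq_rank, ← Nat.cast_add,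
    Nat.cast_le] at h2
  exact h2.trans (Nat.add_le_add_left (finrank_range_le_card _) _)

/-- Multiplicative independence. -/
theorem mr_eq_card_iff (p : ι → Lˣ) : mr p = Fintype.card ι ↔
    ∀ a : ι → ℤ, ∏ i, p i ^ a i = 1 → a = 0 := by
  have h1 := linearIndependent_iff_card_eq_finrank_span (R := ℤ) (b := fun i => Additive.ofMul (p i))
  have h2 : mr p = Fintype.card ι ↔ LinearIndependent ℤ (fun i => Additive.ofMul (p i)) := by
    rw [h1]
    exact eq_comm
  rw [h2, Fintype.linearIndependent_iff]
  refine forall_congr' fun a => ?_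
  have h3 : ∑ i, a i • Additive.ofMul (p i) = Additive.ofMul (∏ i, p i ^ a i) := by
    rw [ofMul_prod]
    rfl
  rw [h3, funext_iff]
  exact Iff.rfl

end Pool.Agent.Lib.MP_a325a5_ag.UL
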