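import Pool.Agent.Lib.MP_a325a5_ag.UL.Comp

/-! The atypical Hodge locus and points of small rank have the same closure.

`vanIdeal_smallRank_le`: if `f` vanishes at all points `x ∈ Z` of small rank and
`f ∉ vanIdeal Z = locus K γZ` (`γZ` a generic point, `exists_generic`), then
`exists_torsion_point` gives `x ∈ Z` with `f(x) ≠ 0` and `mr x + td K γZ ≤ mr γZ`, so
`mr x + td K γ < mr γ` by `atypical_iff`: contradiction.
`smallRank_subset_HLatyp`: a point of small rank lies on an atypical `Z` (`exists_atypical` with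
`p = x`, `td_self`). -/

namespace Pool.Agent.Lib.MP_a325a5_ag.UL

open MvPolynomial

variable {K : Type} [Field K] [IsAlgClosed K] [CharZero K] {ι : Type} [Fintype ι]

theorem smallRank_subset_HLatyp {L : Type} [Field L] [Algebra K L] (X : Set (ι → Kˣ))
    (hX : IrrClosed X) (γ : ι → Lˣ) (hγ : locus K γ = vanIdeal X) :
    {x | x ∈ X ∧ mr x + td K γ < mr γ} ⊆ HLatyp X := by
  rintro x ⟨hx, hr⟩
  obtain ⟨Z, hZ, hle⟩ := exists_atypical X hX γ hγ x ((mem_iff_le_locus hX x).mp hx)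
    (by rw [td_self]; exact hr)
  exact ⟨Z, hZ, (mem_iff_le_locus hZ.1.1 x).mpr hle⟩

theorem vanIdeal_smallRank_le {L : Type} [Field L] [Algebra K L] (X : Set (ι → Kˣ))
    (hX : IrrClosed X) (γ : ι → Lˣ) (hγ : locus K γ = vanIdeal X) (Z : Set (ι → Kˣ))
    (hZ : Atypical X Z) :
    vanIdeal {x | x ∈ Z ∧ mr x + td K γ < mr γ} ≤ vanIdeal Z := by
  intro f hf
  by_contra hcon
  obtain ⟨⟨hZirr, hZsub, hZc, -⟩, -⟩ := id hZ
  obtain ⟨L', _, _, γZ, hγZ⟩ := exists_generic Z hZirr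
  obtain ⟨x, hx1, hx2, hx3⟩ := exists_torsion_point γZ f (by rw [hγZ]; exact hcon)
  have hA := (atypical_iff X Z hX hZirr hZsub hZc γ γZ hγ hγZ).mp hZ
  have hxZ : x ∈ Z := (mem_iff_le_locus hZirr x).mpr (hγZ.ge.trans hx1)
  exact hx2 (mem_locus_self.mpr (hf x ⟨hxZ, by omega⟩))

theorem denseIn_iff {L : Type} [Field L] [Algebra K L] (X : Set (ι → Kˣ))
    (hX : IrrClosed X) (γ : ι → Lˣ) (hγ : locus K γ = vanIdeal X) :
    DenseIn (HLatyp X) X ↔ DenseIn {x | x ∈ X ∧ mr x + td K γ < mr γ} X := by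
  constructor
  · intro h
    refine le_trans ?_ h
    rintro f hf x ⟨Z, hZ, hxZ⟩
    refine vanIdeal_smallRank_le X hX γ hγ Z hZ ?_ x hxZ
    intro z hz
    exact hf z ⟨hZ.1.2.1 hz.1, hz.2⟩
  · intro h
    exact le_trans (vanIdeal_anti (smallRank_subset_HLatyp X hX γ hγ)) h

end Pool.Agent.Lib.MP_a325a5_ag.UL
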