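import Pool.Agent.Lib.MP_a325a5_ag.UL.MRb

/-! The multiplicative rank, third part: specialisation.

Paper proof.  Let `Γ_q, Γ_p` be the groups generated by the coordinates.  By the hypothesis there
is a surjective homomorphism `φ : Γ_q → Γ_p`, `q i ↦ p i`; `rank ker φ = mr q - mr p`
(`LinearMap.finrank_range_add_finrank_ker` or `Submodule.finrank_quotient_add_finrank`, the ring
`ℤ` has rank nullity).
`mr_comp_add_le`: the kernel of `φ` contains the kernel of its restriction to the group generated
by the `q (f j)`.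
`mr_add_card_le`: the kernel contains the `q j ^ N`, `j ∈ J`, which are independent.
One may also argue with the lattices `Λ(q) = {a | q ^ a = 1} ≤ Λ(p)` in `ι → ℤ`, using
`mr q = card ι - finrank Λ(q)`. -/

namespace Pool.Agent.Lib.MP_a325a5_ag.UL

open MvPolynomial

variable {L L' : Type} [Field L] [Field L'] {ι κ : Type} [Fintype ι] [Fintype κ]

/-- the map from exponent vectors to monomials -/
private noncomputable def mrT (p : ι → Lˣ) : (ι → ℤ) →ₗ[ℤ] Additive Lˣ :=
  Fintype.linearCombination ℤ (fun i => Additive.ofMul (p i))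

private theorem mrT_apply (p : ι → Lˣ) (a : ι → ℤ) :
    mrT p a = Additive.ofMul (∏ i, p i ^ a i) := by
  rw [mrT, Fintype.linearCombination_apply, ofMul_prod]
  refine Finset.sum_congr rfl fun i _ => ?_
  rw [ofMul_zpow]

private theorem mrT_mem_ker (p : ι → Lˣ) (a : ι → ℤ) :
    a ∈ LinearMap.ker (mrT p) ↔ ∏ i, p i ^ a i = 1 := by
  rw [LinearMap.mem_ker, mrT_apply, ofMul_eq_zero]

private theorem mrT_rank (p : ι → Lˣ) :
    mr p + Module.finrank ℤ (LinearMap.ker (mrT p)) = Fintype.card ι := by
  have h1 := (LinearMap.ker (mrT p)).finrank_quotient_add_finrank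
  rw [Module.finrank_fintype_fun_eq_card] at h1
  have h2 := (mrT p).quotKerEquivRange.finrank_eq
  have h3 : LinearMap.range (mrT p) =
      Submodule.span ℤ (Set.range fun i => Additive.ofMul (p i)) := by
    rw [mrT, Fintype.range_linearCombination]
  rw [h3] at h2
  rw [← h1, h2]
  rfl

/-- Ranks of preimages of lattices. -/
private theorem mr_lattice {M N : Type} [AddCommGroup M] [AddCommGroup N] [Module.Finite ℤ M]
    [Module.Finite ℤ N] (F : N →ₗ[ℤ] M) (A B : Submodule ℤ M) (hAB : A ≤ B) :
    Module.finrank ℤ A + Module.finrank ℤ (B.comap F) ≤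
      Module.finrank ℤ B + Module.finrank ℤ (A.comap F) := by
  let A' : Submodule ℤ B := A.submoduleOf B
  let F' : B.comap F →ₗ[ℤ] B := F.restrict (fun x hx => hx)
  let G : B.comap F →ₗ[ℤ] (B ⧸ A') := A'.mkQ.comp F'
  have h1 : Module.finrank ℤ A' = Module.finrank ℤ A :=
    (Submodule.submoduleOfEquivOfLe hAB).finrank_eq
  have h2 : Module.finrank ℤ (B ⧸ A') + Module.finrank ℤ A' = Module.finrank ℤ B :=
    A'.finrank_quotient_add_finrank
  have h3 := (LinearMap.ker G).finrank_quotient_add_finrank
  have h4 := G.quotKerEquivRange.finrank_eq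
  have h5 : Module.finrank ℤ (LinearMap.range G) ≤ Module.finrank ℤ (B ⧸ A') :=
    Submodule.finrank_le _
  have hker : ∀ x : LinearMap.ker G, F ((x : B.comap F) : N) ∈ A := by
    intro x
    have hx := x.2
    rw [LinearMap.mem_ker, LinearMap.comp_apply, Submodule.mkQ_apply, Submodule.Quotient.mk_eq_zero] at hx
    exact hx
  let i : LinearMap.ker G →ₗ[ℤ] A.comap F :=
    LinearMap.codRestrict (A.comap F) ((B.comap F).subtype.comp (LinearMap.ker G).subtype)
      (fun x => hker x)
  have hi : Function.Injective i := by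
    intro x y hxy
    have := congrArg (fun z : A.comap F => (z : N)) hxy
    exact Subtype.ext (Subtype.ext this)
  have h6 : Module.finrank ℤ (LinearMap.ker G) ≤ Module.finrank ℤ (A.comap F) :=
    LinearMap.finrank_le_finrank_of_injective hi
  omega

/-- Specialisations: every multiplicative relation of `q` is one of `p`.  Then the rank drop of
a family is at least the rank drop of a subfamily. -/
theorem mr_comp_add_le (p : ι → Lˣ) (q : ι → L'ˣ)
    (h : ∀ a : ι → ℤ, ∏ i, q i ^ a i = 1 → ∏ i, p i ^ a i = 1) (f : κ → ι) :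
    mr (fun j => q (f j)) + mr p ≤ mr q + mr (fun j => p (f j)) := by
  classical
  let F : (κ → ℤ) →ₗ[ℤ] (ι → ℤ) :=
    Fintype.linearCombination ℤ (fun j => (Pi.single (f j) (1 : ℤ) : ι → ℤ))
  have hF : ∀ {L₀ : Type} [Field L₀] (r : ι → L₀ˣ), mrT (fun j => r (f j)) = (mrT r).comp F := by
    intro L₀ _ r
    apply (Pi.basisFun ℤ κ).ext
    intro j
    rw [Pi.basisFun_apply, LinearMap.comp_apply]
    have h1 : F (Pi.single j 1) = Pi.single (f j) 1 := by
      change Fintype.linearCombination ℤ _ (Pi.single j 1) = _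
      rw [Fintype.linearCombination_apply_single, one_smul]
    rw [h1, mrT, mrT, Fintype.linearCombination_apply_single,
      Fintype.linearCombination_apply_single]
  have hAB : LinearMap.ker (mrT q) ≤ LinearMap.ker (mrT p) := by
    intro a ha
    rw [mrT_mem_ker] at ha ⊢
    exact h a ha
  have hc : ∀ {L₀ : Type} [Field L₀] (r : ι → L₀ˣ),
      LinearMap.ker (mrT fun j => r (f j)) = (LinearMap.ker (mrT r)).comap F := by
    intro L₀ _ r
    rw [hF r, LinearMap.ker_comp]
  have h1 := mrT_rank p
  have h2 := mrT_rank q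
  have h3 := mrT_rank (fun j => p (f j))
  have h4 := mrT_rank (fun j => q (f j))
  rw [hc] at h3 h4
  have h5 := mr_lattice F _ _ hAB
  omega

/-- Specialisations lower the rank; if `J` is a set of indices such that the `p j`, `j ∈ J`, are
torsion while the `q j`, `j ∈ J`, are multiplicatively independent, by at least `J.card`. -/
theorem mr_add_card_le (p : ι → Lˣ) (q : ι → L'ˣ)
    (h : ∀ a : ι → ℤ, ∏ i, q i ^ a i = 1 → ∏ i, p i ^ a i = 1) (J : Finset ι)
    (hp : ∀ j ∈ J, IsOfFinOrder (p j))
    (hq : ∀ a : ι → ℤ, (∀ j, j ∉ J → a j = 0) → ∏ i, q i ^ a i = 1 → a = 0) :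
    mr p + J.card ≤ mr q := by
  classical
  have h1 := mr_comp_add_le p q h (fun j : J => (j : ι))
  have h2 : mr (fun j : J => q j) = J.card := by
    rw [← Fintype.card_coe J, mr_eq_card_iff]
    intro a ha
    have h3 := hq (fun i => if hi : i ∈ J then a ⟨i, hi⟩ else 0)
      (fun j hj => by simp [hj]) (by
        rw [← ha]
        have e1 : ∏ i, q i ^ (if hi : i ∈ J then a ⟨i, hi⟩ else 0) =
            ∏ i ∈ J, q i ^ (if hi : i ∈ J then a ⟨i, hi⟩ else 0) := by
          symm
          apply Finset.prod_subset (Finset.subset_univ J)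
          intro i _ hi
          rw [dif_neg hi, zpow_zero]
        rw [e1, ← Finset.prod_coe_sort]
        refine Finset.prod_congr rfl fun i _ => ?_
        rw [dif_pos i.2])
    funext j
    have := congrFun h3 j
    simpa using this
  have h3 : mr (fun j : J => p j) ≤ 0 := by
    have := mr_le_of_pow_mem (fun i : Fin 0 => (1 : Lˣ)) (fun j : J => p j) (fun j => by
      obtain ⟨n, hn, hn'⟩ := isOfFinOrder_iff_pow_eq_one.mp (hp j j.2)
      exact ⟨n, hn, by rw [hn']; exact one_mem _⟩)
    have h0 := mr_le_card (fun i : Fin 0 => (1 : Lˣ))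
    rw [Fintype.card_fin] at h0
    omega
  rw [h2] at h1
  omega

/-- The rank only depends on the relations. -/
theorem mr_congr (p : ι → Lˣ) (q : ι → L'ˣ)
    (h : ∀ a : ι → ℤ, ∏ i, q i ^ a i = 1 ↔ ∏ i, p i ^ a i = 1) : mr p = mr q := by
  apply le_antisymm
  · have := mr_add_card_le p q (fun a => (h a).mp) ∅ (by simp)
      (fun a ha _ => funext fun j => ha j (Finset.notMem_empty j))
    simpa using this
  · have := mr_add_card_le q p (fun a => (h a).mpr) ∅ (by simp)
      (fun a ha _ => funext fun j => ha j (Finset.notMem_empty j))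
    simpa using this

end Pool.Agent.Lib.MP_a325a5_ag.UL
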