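import Pool.Agent.Lib.MP_a325a5_ag.UL.MonA
import Pool.Agent.Lib.MP_a325a5_ag.UL.TD

/-! Rank and specialisation.

Proof hints.  `mr_cst`: `mr_congr`, the map `cst` is injective.  `locus_cst`:
`aeval (algebraMap x) f = algebraMap (eval x f)`.  Algebraically independent elements are
multiplicatively independent: a relation `∏ τ ^ a = 1` is a polynomial relation between two
different monomials if `a ≠ 0`. -/

namespace Pool.Agent.Lib.MP_a325a5_ag.UL

open MvPolynomial

variable {K : Type} [Field K] {L L' : Type} [Field L] [Algebra K L] [Field L'] [Algebra K L']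
  {ι κ : Type} [Fintype ι] [Fintype κ]

/-- The rank drops under specialisation. -/
theorem mr_le_of_locus_le (τ : ι → Lˣ) (τ' : ι → L'ˣ) (h : locus K τ' ≤ locus K τ) :
    mr τ ≤ mr τ' := by
  have h1 := mr_add_card_le τ τ' (monomial_spec_one τ τ' h) ∅ (by simp)
    (fun a ha _ => funext fun j => ha j (Finset.notMem_empty j))
  simpa using h1

theorem mr_eq_of_locus_eq (τ : ι → Lˣ) (τ' : ι → L'ˣ) (h : locus K τ' = locus K τ) :
    mr τ' = mr τ :=
  le_antisymm (mr_le_of_locus_le τ' τ h.ge) (mr_le_of_locus_le τ τ' h.le)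

omit [Fintype ι] [Fintype κ] in
theorem cst_injective : Function.Injective (cst K L) := by
  intro a b h
  apply Units.ext
  apply (algebraMap K L).injective
  have := congrArg (fun u : Lˣ => (u : L)) h
  simpa using this

/-- Constant points. -/
theorem mr_cst (x : ι → Kˣ) : mr (fun i => cst K L (x i)) = mr x := by
  apply mr_congr
  intro a
  have h1 : ∏ i, cst K L (x i) ^ a i = cst K L (∏ i, x i ^ a i) := by
    rw [map_prod]
    refine Finset.prod_congr rfl fun i _ => ?_
    rw [map_zpow]
  rw [h1]
  constructor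
  · intro h
    rw [h, map_one]
  · intro h
    apply cst_injective (K := K) (L := L)
    rw [h, map_one]

omit [Fintype ι] in
theorem locus_cst (x : ι → Kˣ) : locus K (fun i => cst K L (x i)) = locus K x := by
  ext f
  rw [mem_locus, mem_locus]
  have h1 : aeval (fun i => ((cst K L (x i) : Lˣ) : L)) f =
      algebraMap K L (aeval (fun i => (x i : K)) f) := by
    have h2 := MvPolynomial.comp_aeval_apply (fun i => (x i : K)) (Algebra.ofId K L) f
    exact h2.symm
  rw [h1, map_eq_zero_iff _ (algebraMap K L).injective]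

/-- Algebraically independent coordinates are multiplicatively independent. -/
theorem mul_indep_of_algebraicIndependent (τ : ι → Lˣ) (J : Finset ι)
    (hJ : AlgebraicIndependent K (fun j : J => ((τ j : Lˣ) : L))) (a : ι → ℤ)
    (ha : ∀ j, j ∉ J → a j = 0) (h : ∏ i, τ i ^ a i = 1) : a = 0 := by
  classical
  have h1 : ∏ j : J, τ j ^ a j = 1 := by
    rw [← h]
    rw [Finset.prod_coe_sort J (fun i => τ i ^ a i)]
    apply Finset.prod_subset (Finset.subset_univ J)
    intro i _ hi
    rw [ha i hi, zpow_zero]
  have h2 : (∏ j : J, τ j ^ (a j).toNat) = ∏ j : J, τ j ^ (-a j).toNat := by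
    have h3 : ∏ j : J, τ j ^ a j =
        (∏ j : J, τ j ^ (a j).toNat) / ∏ j : J, τ j ^ (-a j).toNat := by
      rw [← Finset.prod_div_distrib]
      refine Finset.prod_congr rfl fun i _ => ?_
      rw [← zpow_natCast, ← zpow_natCast, div_eq_mul_inv, ← zpow_sub]
      congr 1
      omega
    rw [h3] at h1
    exact div_eq_one.mp h1
  have h4 : (∏ j : J, (X j : MvPolynomial J K) ^ (a j).toNat) = ∏ j : J, X j ^ (-a j).toNat := by
    rw [← sub_eq_zero]
    apply (algebraicIndependent_iff.mp hJ)
    rw [map_sub, map_prod, map_prod, sub_eq_zero]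
    simp only [map_pow, aeval_X]
    have := congrArg (fun u : Lˣ => (u : L)) h2
    simpa only [Units.coe_prod, Units.val_pow_eq_pow_val] using this
  have h5 : ∀ j : J, (a j).toNat = (-a j).toNat := by
    have h6 : ∀ e : J → ℕ, (∏ j : J, (X j : MvPolynomial J K) ^ e j) =
        monomial (Finsupp.equivFunOnFinite.symm e) 1 := by
      intro e
      rw [MvPolynomial.monomial_eq, C_1, one_mul]
      rw [Finsupp.prod_fintype _ _ (fun i => pow_zero _)]
      rfl
    rw [h6, h6] at h4
    have h7 := MvPolynomial.monomial_left_injective (R := K) one_ne_zero h4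
    intro j
    have h8 := DFunLike.congr_fun h7 j
    exact h8
  funext i
  by_cases hi : i ∈ J
  · have := h5 ⟨i, hi⟩
    simp only at this
    change a i = 0
    omega
  · exact ha i hi

/-- The transcendence degree is at most the rank. -/
theorem td_le_mr (τ : ι → Lˣ) : td K τ ≤ mr τ := by
  obtain ⟨J, hJ, hcard, -⟩ := td_spec (K := K) τ
  have h1 := mr_add_card_le (fun _ : ι => (1 : Lˣ)) τ (fun a _ => by simp) J
    (fun j _ => IsOfFinOrder.one)
    (fun a ha h => mul_indep_of_algebraicIndependent τ J hJ a ha h)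
  omega

end Pool.Agent.Lib.MP_a325a5_ag.UL
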