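import Pool.Agent.Lib.MP_a325a5_ag.UL.TDloc
import Pool.Agent.Lib.MP_a325a5_ag.Dim

/-! Krull dimension equals transcendence degree.

Proof hints.  `R = K[x]/locus` is a finitely generated domain (isomorphic to the subalgebra
generated by the coordinates of `p`).  Noether normalisation
`exists_integral_inj_algHom_of_fg` gives an injective integral `K[X_1..X_s] → R`.
`ringKrullDim (MvPolynomial (Fin s) K) = s`, the Krull dimension is the same for injective
integral extensions (`Pool.Agent.Lib.MP_a325a5_ag.krullDim_le_of_integral` in
`Pool/Agent/Lib/MP_a325a5_ag/Dim.lean` for one inequality, incomparability for the other), and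
`s = td K p` by `le_td` and `td_le_card_of_algebraic`. -/

namespace Pool.Agent.Lib.MP_a325a5_ag.UL

open MvPolynomial

private theorem kd_le_of_integral {A R : Type} [CommRing A] [CommRing R]
    (g : A →+* R) (hint : g.IsIntegral) : ringKrullDim R ≤ ringKrullDim A := by
  algebraize [g]
  have : Algebra.IsIntegral A R := ⟨hint⟩
  refine Order.krullDim_le_of_strictMono (PrimeSpectrum.comap g) ?_
  intro P Q hPQ
  exact Ideal.IsIntegral.comap_lt_comap (A := R) (R := A) (I := P.asIdeal) (J := Q.asIdeal) hPQ

theorem krullDim_locus {K : Type} [Field K] {L : Type} [Field L] [Algebra K L] {ι : Type}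
    [Fintype ι] (p : ι → Lˣ) :
    ringKrullDim (MvPolynomial ι K ⧸ locus K p) = (td K p : WithBot ℕ∞) := by
  classical
  let φ : (MvPolynomial ι K ⧸ locus K p) →ₐ[K] L :=
    Ideal.kerLiftAlg (aeval (fun i => (p i : L)) : MvPolynomial ι K →ₐ[K] L)
  have hφ : Function.Injective φ := Ideal.kerLiftAlg_injective _
  have hφm : ∀ f, φ (Ideal.Quotient.mk _ f) = aeval (fun i => (p i : L)) f := fun f => rfl
  obtain ⟨s, g, hinj, hint⟩ := exists_integral_inj_algHom_of_fg K (MvPolynomial ι K ⧸ locus K p)
  have hs : ringKrullDim (MvPolynomial (Fin s) K) = s := by simp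
  have hdim : ringKrullDim (MvPolynomial ι K ⧸ locus K p) = (s : WithBot ℕ∞) := by
    refine le_antisymm ?_ ?_
    · rw [← hs]
      exact kd_le_of_integral g.toRingHom hint
    · rw [← hs]
      exact krullDim_le_of_integral g.toRingHom hinj hint
  rw [hdim]
  let q : Fin s → L := fun j => φ (g (X j))
  have hq : AlgebraicIndependent K q := by
    have : (aeval q : MvPolynomial (Fin s) K →ₐ[K] L) = φ.comp g := by
      apply MvPolynomial.algHom_ext
      intro j
      simp [q]
    rw [algebraicIndependent_iff_injective_aeval, this]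
    exact hφ.comp hinj
  have hadj : Algebra.adjoin K (Set.range q) = (φ.comp g).range := by
    have h1 : (Set.range q) = (φ.comp g) '' (Set.range X) := by
      rw [← Set.range_comp]; rfl
    rw [h1, ← AlgHom.map_adjoin, MvPolynomial.adjoin_range_X, Algebra.map_top]
  have hadjp : Algebra.adjoin K (Set.range fun i => (p i : L)) =
      (aeval (fun i => (p i : L)) : MvPolynomial ι K →ₐ[K] L).range := by
    rw [Algebra.adjoin_range_eq_range_aeval]
  have h1 : s ≤ td K p := by
    have := le_td p q hq (fun j => by
      have hmem : q j ∈ Algebra.adjoin K (Set.range fun i => (p i : L)) := by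
        rw [hadjp]
        obtain ⟨f, hf⟩ := Ideal.Quotient.mk_surjective (g (X j))
        refine ⟨f, ?_⟩
        change aeval (fun i => (p i : L)) f = φ (g (X j))
        rw [← hf]
        rfl
      exact isAlgebraic_algebraMap (⟨q j, hmem⟩ : Algebra.adjoin K (Set.range fun i => (p i : L))))
    simpa using this
  have h2 : td K p ≤ s := by
    have := td_le_card_of_algebraic p q (fun i => by
      obtain ⟨f, hf, hf'⟩ := hint (Ideal.Quotient.mk _ (X i))
      have hI : IsIntegral (Algebra.adjoin K (Set.range q)) (p i : L) := by
        rw [hadj]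
        refine ⟨f.map ((φ.comp g).rangeRestrict.toRingHom), hf.map _, ?_⟩
        rw [Polynomial.eval₂_map]
        have h3 := congrArg φ hf'
        rw [map_zero] at h3
        have h4 : φ (Polynomial.eval₂ g.toRingHom (Ideal.Quotient.mk (locus K p) (X i)) f) =
            Polynomial.eval₂ ((φ : (MvPolynomial ι K ⧸ locus K p) →+* L).comp g.toRingHom)
              (φ (Ideal.Quotient.mk (locus K p) (X i))) f := by
          exact Polynomial.hom_eval₂ _ _ (φ : (MvPolynomial ι K ⧸ locus K p) →+* L) _
        rw [h4, hφm, aeval_X] at h3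
        exact h3
      exact hI.isAlgebraic)
    simpa using this
  have : s = td K p := le_antisymm h1 h2
  rw [this]

/-- The dimension of a closed irreducible set is the transcendence degree of a generic point. -/
theorem zdim_eq {K : Type} [Field K] {L : Type} [Field L] [Algebra K L] {ι : Type}
    [Fintype ι] (Z : Set (ι → Kˣ)) (γ : ι → Lˣ) (h : locus K γ = vanIdeal Z) :
    zdim Z = (td K γ : WithBot ℕ∞) := by
  rw [zdim, ← h]
  exact krullDim_locus γ

end Pool.Agent.Lib.MP_a325a5_ag.UL
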