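import Pool.Agent.Lib.MP_a325a5_ag.UL.Tors

/-! Irreducible closed sets and their generic points.

`exists_irrClosed`: `Z = {x | locus K p ≤ locus K x}`; its ideal is `locus K p` by
`exists_torsion_point`.  `exists_generic`: `L` is the fraction field of the coordinate ring; the
coordinates are nonzero because `Z` is nonempty (its ideal is proper) and consists of points of
the torus. -/

namespace Pool.Agent.Lib.MP_a325a5_ag.UL

open MvPolynomial

theorem exists_irrClosed {K L : Type} [Field K] [IsAlgClosed K] [CharZero K] [Field L]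
    [Algebra K L] {ι : Type} [Fintype ι] (p : ι → Lˣ) :
    ∃ Z : Set (ι → Kˣ), IrrClosed Z ∧ vanIdeal Z = locus K p := by
  have h1 : vanIdeal {x : ι → Kˣ | locus K p ≤ locus K x} = locus K p := by
    apply le_antisymm
    · intro f hf
      by_contra hne
      obtain ⟨x, hx1, hx2, -⟩ := exists_torsion_point p f hne
      exact hx2 (mem_locus_self.mpr (hf x hx1))
    · intro f hf x hx
      exact mem_locus_self.mp (hx hf)
  refine ⟨{x : ι → Kˣ | locus K p ≤ locus K x}, ⟨?_, ?_⟩, h1⟩
  · rw [h1]
    exact locus_isPrime K p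
  · intro x hx f hf
    rw [← h1] at hf
    exact mem_locus_self.mpr (hx f hf)

theorem exists_generic {K : Type} [Field K] {ι : Type} (Z : Set (ι → Kˣ)) (hZ : IrrClosed Z) :
    ∃ (L : Type) (_ : Field L) (_ : Algebra K L) (γ : ι → Lˣ), locus K γ = vanIdeal Z := by
  have hP : (vanIdeal Z).IsPrime := hZ.1
  have hne : ∀ i, (X i : MvPolynomial ι K) ∉ vanIdeal Z := by
    intro i hi
    have hZne : Z.Nonempty := by
      by_contra hem
      rw [Set.not_nonempty_iff_eq_empty] at hem
      apply hP.ne_top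
      rw [Ideal.eq_top_iff_one, mem_vanIdeal]
      intro z hz
      rw [hem] at hz
      exact absurd hz (Set.notMem_empty z)
    obtain ⟨z, hz⟩ := hZne
    have h2 := hi z hz
    rw [eval_X] at h2
    exact (z i).ne_zero h2
  have hinj : Function.Injective (algebraMap (MvPolynomial ι K ⧸ vanIdeal Z)
      (FractionRing (MvPolynomial ι K ⧸ vanIdeal Z))) :=
    IsFractionRing.injective _ _
  have hg : ∀ i, algebraMap (MvPolynomial ι K ⧸ vanIdeal Z)
      (FractionRing (MvPolynomial ι K ⧸ vanIdeal Z)) (Ideal.Quotient.mk (vanIdeal Z) (X i)) ≠ 0 := by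
    intro i h0
    apply hne i
    rw [← Ideal.Quotient.eq_zero_iff_mem]
    apply hinj
    rw [h0, map_zero]
  refine ⟨FractionRing (MvPolynomial ι K ⧸ vanIdeal Z), inferInstance, inferInstance,
    fun i => Units.mk0 _ (hg i), ?_⟩
  have hval : ∀ f : MvPolynomial ι K,
      aeval (fun i => (Units.mk0 _ (hg i) : FractionRing (MvPolynomial ι K ⧸ vanIdeal Z))) f =
      algebraMap (MvPolynomial ι K ⧸ vanIdeal Z)
        (FractionRing (MvPolynomial ι K ⧸ vanIdeal Z)) (Ideal.Quotient.mk (vanIdeal Z) f) := by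
    intro f
    have hh : (aeval (fun i =>
        (Units.mk0 _ (hg i) : FractionRing (MvPolynomial ι K ⧸ vanIdeal Z))) :
        MvPolynomial ι K →ₐ[K] _) =
        (IsScalarTower.toAlgHom K (MvPolynomial ι K ⧸ vanIdeal Z)
          (FractionRing (MvPolynomial ι K ⧸ vanIdeal Z))).comp (Ideal.Quotient.mkₐ K (vanIdeal Z)) := by
      apply MvPolynomial.algHom_ext
      intro i
      rw [aeval_X]
      rfl
    rw [hh]
    rfl
  ext f
  rw [mem_locus, hval, ← Ideal.Quotient.eq_zero_iff_mem]
  constructor
  · intro h0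
    apply hinj
    rw [h0, map_zero]
  · intro h0
    rw [h0, map_zero]

theorem IrrClosed.nonempty {K : Type} [Field K] {ι : Type} {Z : Set (ι → Kˣ)}
    (hZ : IrrClosed Z) : Z.Nonempty := by
  by_contra hem
  rw [Set.not_nonempty_iff_eq_empty] at hem
  apply hZ.1.ne_top
  rw [Ideal.eq_top_iff_one, mem_vanIdeal]
  intro z hz
  rw [hem] at hz
  exact absurd hz (Set.notMem_empty z)

/-- Irreducible closed sets are determined by their ideals. -/
theorem IrrClosed.ext {K : Type} [Field K] {ι : Type} {Z W : Set (ι → Kˣ)}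
    (hZ : IrrClosed Z) (hW : IrrClosed W) (h : vanIdeal Z = vanIdeal W) : Z = W :=
  Set.Subset.antisymm ((subset_iff hW).mpr h.ge) ((subset_iff hZ).mpr h.le)

end Pool.Agent.Lib.MP_a325a5_ag.UL
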