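import Mathlib

/-! Zilber-Pink for tori: the definitions used in the statement of the universality theorem. -/

namespace Pool.Agent.Lib.MP_a325a5_ag.UL

open MvPolynomial

section

variable {K : Type} [Field K] {ι : Type}

/-- The ideal of all polynomials vanishing on the subset `Z` of the torus `(Kˣ)^ι`. -/
def vanIdeal (Z : Set (ι → Kˣ)) : Ideal (MvPolynomial ι K) where
  carrier := {f | ∀ z ∈ Z, eval (fun i => (z i : K)) f = 0}
  add_mem' := by
    intro a b ha hb z hz
    rw [map_add, ha z hz, hb z hz, add_zero]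
  zero_mem' := by
    intro z _
    exact map_zero _
  smul_mem' := by
    intro c x hx z hz
    rw [smul_eq_mul, map_mul, hx z hz, mul_zero]

/-- `Z` is an irreducible Zariski closed subset of the torus `(Kˣ)^ι`. -/
def IrrClosed (Z : Set (ι → Kˣ)) : Prop :=
  (vanIdeal Z).IsPrime ∧ ∀ x : ι → Kˣ, (∀ f ∈ vanIdeal Z, eval (fun i => (x i : K)) f = 0) → x ∈ Z

/-- `B` is Zariski dense in `X`. -/
def DenseIn (B X : Set (ι → Kˣ)) : Prop := vanIdeal B ≤ vanIdeal X

/-- The dimension of `Z`: the Krull dimension of its coordinate ring. -/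
noncomputable def zdim (Z : Set (ι → Kˣ)) : WithBot ℕ∞ :=
  ringKrullDim (MvPolynomial ι K ⧸ vanIdeal Z)

variable [Fintype ι]

/-- The special subvarieties of the torus `(Kˣ)^ι`: the irreducible closed subsets defined by
equations `x ^ a = ζ` with exponents `a ∈ ℤ^ι` and roots of unity `ζ` (the torsion cosets, that
is the translates of subtori by torsion points). -/
def IsSpecial (H : Set (ι → Kˣ)) : Prop :=
  IrrClosed H ∧ ∃ E : Set ((ι → ℤ) × Kˣ), (∀ e ∈ E, IsOfFinOrder e.2) ∧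
    H = {x | ∀ e ∈ E, ∏ i, x i ^ e.1 i = e.2}

/-- The smallest special subvariety containing `Z`. -/
def hull (Z : Set (ι → Kˣ)) : Set (ι → Kˣ) := ⋂₀ {H | IsSpecial H ∧ Z ⊆ H}

/-- `Z` is a special subvariety of `X`: it is an irreducible component of `X ∩ ⟨Z⟩`, and
`⟨Z⟩ ≠ ⟨X⟩`. -/
def SpecialIn (X Z : Set (ι → Kˣ)) : Prop :=
  IrrClosed Z ∧ Z ⊆ X ∧ (∀ W, IrrClosed W → Z ⊆ W → W ⊆ X ∩ hull Z → W = Z) ∧ hull Z ≠ hull X

/-- `Z` is an atypical special subvariety of `X`: the codimension of `Z` in `X` is not the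
codimension of `⟨Z⟩` in `⟨X⟩`. -/
def Atypical (X Z : Set (ι → Kˣ)) : Prop :=
  SpecialIn X Z ∧ zdim X + zdim (hull Z) ≠ zdim (hull X) + zdim Z

/-- The atypical Hodge locus of `X`. -/
def HLatyp (X : Set (ι → Kˣ)) : Set (ι → Kˣ) := ⋃₀ {Z | Atypical X Z}

end

/-- The product `ℓ^D` of copies of the line `ℓ : x + y = 1` in `𝔾_m²`, as a subset of the torus
`(𝔾_m²)^D`. -/
def lineProd (K : Type) [Field K] (D : Type) : Set (D ⊕ D → Kˣ) :=
  {z | ∀ i, (z (Sum.inl i) : K) + (z (Sum.inr i) : K) = 1}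

/-- The maximal atypical special subvarieties of `X`. -/
def MaxAtypical {K : Type} [Field K] {ι : Type} [Fintype ι] (X : Set (ι → Kˣ)) :
    Set (Set (ι → Kˣ)) :=
  {Z | Atypical X Z ∧ ∀ W, Atypical X W → Z ⊆ W → W = Z}

end Pool.Agent.Lib.MP_a325a5_ag.UL
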