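import Pool.Agent.Lib.MP_a325a5_ag.UL.MRloc

/-! Linear forms `u_b + c` in independent variables are multiplicatively independent.

Paper proof.  `E` a field, `u_b` (`b ∈ U`) variables, `σ_j ∈ E` (`j ∈ T`), `β : T → U` the block
of `j`; the pairs `(β j, σ_j)` are pairwise different.  If `c ∏_j (u_(β j) + σ_j) ^ (e_j) = 1` in
the fraction field of `E[u]` with `c ∈ Eˣ` and `e_j > 0`, bring the negative exponents to the
other side (a polynomial identity) and substitute `u_(β j) ↦ - σ_j` (all other variables stay):
the left side vanishes, the right side does not.  The same for `e_j < 0`. -/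

namespace Pool.Agent.Lib.MP_a325a5_ag.UL

open MvPolynomial

/-- The rational function field in the variables `U` over `E`. -/
abbrev RatFun (U E : Type) [Field E] : Type := FractionRing (MvPolynomial U E)

/-- The variable `u` as an element of the rational function field. -/
noncomputable def rvar {U : Type} (E : Type) [Field E] (u : U) : RatFun U E :=
  algebraMap (MvPolynomial U E) (RatFun U E) (X u)

/-- The constant `c` as an element of the rational function field. -/
noncomputable def rcst (U : Type) {E : Type} [Field E] (c : E) : RatFun U E :=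
  algebraMap (MvPolynomial U E) (RatFun U E) (C c)

private theorem Lin_ne {U E : Type} [Field E] (u : U) (c : E) :
    (X u + C c : MvPolynomial U E) ≠ 0 := by
  intro h
  have h1 := congrArg (eval (fun _ => 1 - c)) h
  rw [map_add, eval_X, eval_C, map_zero, sub_add_cancel] at h1
  exact one_ne_zero h1

theorem rvar_add_rcst_ne_zero {U E : Type} [Field E] (u : U) (c : E) :
    rvar E u + rcst U c ≠ 0 := by
  unfold rvar rcst
  rw [← map_add]
  intro h
  rw [map_eq_zero_iff _ (IsFractionRing.injective (MvPolynomial U E) (RatFun U E))] at h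
  exact Lin_ne u c h

/-- the polynomial identity -/
private theorem Lin_poly {U T E : Type} [Field E] [Fintype T] (β : T → U) (σ : T → E)
    (hinj : ∀ i j, β i = β j → σ i = σ j → i = j) (p q : T → ℕ) (hpq : ∀ j, p j = 0 ∨ q j = 0)
    (c : E) (hc : c ≠ 0)
    (h : (C c : MvPolynomial U E) * ∏ j, (X (β j) + C (σ j)) ^ p j =
      ∏ j, (X (β j) + C (σ j)) ^ q j) : ∀ j, p j = 0 := by
  classical
  intro j0
  by_contra hj0
  let ev : MvPolynomial U E →+* MvPolynomial U E :=
    eval₂Hom C (fun u => if u = β j0 then C (-σ j0) else X u)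
  have hev : ∀ j, ev (X (β j) + C (σ j)) =
      (if β j = β j0 then C (-σ j0) else X (β j)) + C (σ j) := by
    intro j
    rw [map_add]
    congr 1
    · exact eval₂Hom_X' _ _ _
    · exact eval₂Hom_C _ _ _
  have h0 : ev (X (β j0) + C (σ j0)) = 0 := by
    rw [hev, if_pos rfl, ← C_add, neg_add_cancel, C_0]
  have h1 := congrArg ev h
  rw [map_mul, map_prod, map_prod] at h1
  have h2 : ∏ j, ev ((X (β j) + C (σ j)) ^ p j) = 0 := by
    refine Finset.prod_eq_zero (Finset.mem_univ j0) ?_
    rw [map_pow, h0, zero_pow hj0]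
  rw [h2, mul_zero] at h1
  obtain ⟨j, _, hj⟩ := Finset.prod_eq_zero_iff.1 h1.symm
  rw [map_pow] at hj
  have hqj : q j ≠ 0 := by
    intro h3
    rw [h3, pow_zero] at hj
    exact one_ne_zero hj
  have h4 := pow_eq_zero_iff hqj |>.1 hj
  rw [hev] at h4
  by_cases hβ : β j = β j0
  · rw [if_pos hβ, ← C_add] at h4
    have h5 : -σ j0 + σ j = 0 := by
      rw [← C_0] at h4
      exact C_injective _ _ h4
    have h6 : j = j0 := hinj j j0 hβ (by linear_combination h5)
    subst h6
    rcases hpq j with h7 | h7
    · exact hj0 h7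
    · exact hqj h7
  · rw [if_neg hβ] at h4
    exact Lin_ne _ _ h4

theorem lin_independent {U T E : Type} [Field E] [Fintype T] (β : T → U) (σ : T → E)
    (hinj : ∀ i j, β i = β j → σ i = σ j → i = j) (e : T → ℤ) (c : Eˣ)
    (h : rcst U (c : E) * ∏ j, (rvar E (β j) + rcst U (σ j)) ^ e j = 1) :
    e = 0 ∧ c = 1 := by
  have hinjL := IsFractionRing.injective (MvPolynomial U E) (RatFun U E)
  have hne : ∀ j, rvar E (β j) + rcst U (σ j) ≠ 0 := fun j => rvar_add_rcst_ne_zero _ _
  have h1 : rcst U (c : E) * ∏ j, (rvar E (β j) + rcst U (σ j)) ^ (e j).toNat =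
      ∏ j, (rvar E (β j) + rcst U (σ j)) ^ (-(e j)).toNat := by
    have h2 : ∀ j, (rvar E (β j) + rcst U (σ j)) ^ (e j).toNat =
        (rvar E (β j) + rcst U (σ j)) ^ e j *
          (rvar E (β j) + rcst U (σ j)) ^ (-(e j)).toNat := by
      intro j
      rw [← zpow_natCast, ← zpow_natCast, ← zpow_add₀ (hne j)]
      congr 1
      omega
    simp only [h2]
    rw [Finset.prod_mul_distrib, ← mul_assoc, h, one_mul]
  have h2 : (C (c : E) : MvPolynomial U E) * ∏ j, (X (β j) + C (σ j)) ^ (e j).toNat =
      ∏ j, (X (β j) + C (σ j)) ^ (-(e j)).toNat := by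
    apply hinjL
    rw [map_mul, map_prod, map_prod]
    unfold rvar rcst at h1
    simp only [← map_add, ← map_pow] at h1
    exact h1
  have hp := Lin_poly β σ hinj (fun j => (e j).toNat) (fun j => (-(e j)).toNat)
    (fun j => by omega) (c : E) c.ne_zero h2
  have h3 : (C ((c⁻¹ : Eˣ) : E) : MvPolynomial U E) * ∏ j, (X (β j) + C (σ j)) ^ (-(e j)).toNat =
      ∏ j, (X (β j) + C (σ j)) ^ (e j).toNat := by
    rw [← h2, ← mul_assoc, ← C_mul, Units.inv_mul, C_1, one_mul]
  have hq := Lin_poly β σ hinj (fun j => (-(e j)).toNat) (fun j => (e j).toNat)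
    (fun j => by omega) ((c⁻¹ : Eˣ) : E) (Units.ne_zero _) h3
  have he : e = 0 := by
    funext j
    have h4 := hp j
    have h5 := hq j
    rw [Pi.zero_apply]
    omega
  refine ⟨he, ?_⟩
  rw [he] at h
  simp only [Pi.zero_apply, zpow_zero, Finset.prod_const_one, mul_one] at h
  unfold rcst at h
  have h6 : (C (c : E) : MvPolynomial U E) = C 1 := by
    apply hinjL
    rw [h, C_1, map_one]
  exact Units.ext (C_injective _ _ h6)

/-- The variables are algebraically independent over `E`, even together with elements of `E`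
which are algebraically independent over a subfield `k`. -/
theorem algebraicIndependent_rvar {U E k J : Type} [Field E] [Field k] [Algebra k E]
    (y : J → E) (hy : AlgebraicIndependent k y) :
    AlgebraicIndependent k (Sum.elim (fun j => rcst U (y j)) (rvar E) : J ⊕ U → RatFun U E) := by
  have hinjL := IsFractionRing.injective (MvPolynomial U E) (RatFun U E)
  have h1 : AlgebraicIndependent E (rvar E : U → RatFun U E) :=
    (MvPolynomial.algebraicIndependent_X U E).map'
      (f := IsScalarTower.toAlgHom E (MvPolynomial U E) (RatFun U E)) hinjL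
  have h2 := hy.sumElim_comp h1
  have h3 := h2.comp Sum.swap Sum.swap_leftInverse.injective
  have h4 : (Sum.elim (fun j => rcst U (y j)) (rvar E) : J ⊕ U → RatFun U E) =
      Sum.elim (rvar E) (algebraMap E (RatFun U E) ∘ y) ∘ Sum.swap := by
    funext j
    rcases j with j | j
    · show rcst U (y j) = algebraMap E (RatFun U E) (y j)
      rw [IsScalarTower.algebraMap_apply E (MvPolynomial U E) (RatFun U E)]
      rfl
    · rfl
  rw [h4]
  exact h3

end Pool.Agent.Lib.MP_a325a5_ag.UL
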