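import Pool.Agent.Lib.MP_a325a5_ag.UL.HullA
import Pool.Agent.Lib.MP_a325a5_ag.UL.MRloc

/-! The smallest special subvariety containing an irreducible closed set.

Let `γ` be a generic point of `Z`, `Λ = {a | γ ^ a is of finite order}`, a subgroup of `ℤ^ι` with
torsion free quotient, of rank `card ι - mr γ` (the quotient maps injectively modulo torsion to
the group generated by the `γ i`), `z ∈ Z` a point, and `H` the coset of `coset_irrClosed`.
For `a ∈ Λ` the element `γ ^ a` is a constant root of unity `ζ` (`exists_cst_of_isOfFinOrder`),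
and `z ^ a = ζ` (`monomial_spec`).  So `H` is special and contains `Z`; every special subvariety
containing `Z` contains `H`: its equations `x ^ a = ζ` hold on `Z`, hence at `γ` (a polynomial
relation).  So `hull Z = H`. -/

namespace Pool.Agent.Lib.MP_a325a5_ag.UL

open MvPolynomial

/-- The homomorphism `a ↦ γ ^ a`. -/
private noncomputable def HullEq_phi {L : Type} [Field L] {ι : Type} [Fintype ι] (γ : ι → Lˣ) :
    (ι → ℤ) →ₗ[ℤ] Additive Lˣ :=
  Fintype.linearCombination ℤ (fun i => Additive.ofMul (γ i))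

private theorem HullEq_phi_apply {L : Type} [Field L] {ι : Type} [Fintype ι] (γ : ι → Lˣ)
    (a : ι → ℤ) : HullEq_phi γ a = Additive.ofMul (∏ i, γ i ^ a i) := by
  rw [HullEq_phi, Fintype.linearCombination_apply, ofMul_prod]
  rfl

private theorem HullEq_range {L : Type} [Field L] {ι : Type} [Fintype ι] (γ : ι → Lˣ) :
    LinearMap.range (HullEq_phi γ) =
      Submodule.span ℤ (Set.range fun i => Additive.ofMul (γ i)) :=
  Fintype.range_linearCombination ℤ _

/-- The composition with the quotient by torsion. -/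
private noncomputable def HullEq_psi {L : Type} [Field L] {ι : Type} [Fintype ι] (γ : ι → Lˣ) :
    (ι → ℤ) →ₗ[ℤ] (LinearMap.range (HullEq_phi γ)) ⧸
      Submodule.torsion ℤ (LinearMap.range (HullEq_phi γ)) :=
  (Submodule.torsion ℤ (LinearMap.range (HullEq_phi γ))).mkQ.comp (HullEq_phi γ).rangeRestrict

/-- The lattice of exponents of finite order. -/
private noncomputable def HullEq_lat {L : Type} [Field L] {ι : Type} [Fintype ι] (γ : ι → Lˣ) :
    Submodule ℤ (ι → ℤ) := LinearMap.ker (HullEq_psi γ)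

private theorem HullEq_mem_lat {L : Type} [Field L] {ι : Type} [Fintype ι] (γ : ι → Lˣ)
    (a : ι → ℤ) : a ∈ HullEq_lat γ ↔ IsOfFinOrder (∏ i, γ i ^ a i) := by
  rw [HullEq_lat, LinearMap.mem_ker, HullEq_psi, LinearMap.comp_apply, Submodule.mkQ_apply,
    Submodule.Quotient.mk_eq_zero, Submodule.mem_torsion_iff]
  constructor
  · rintro ⟨n, hn⟩
    have h1 : ((n : ℤ) • (HullEq_phi γ a) : Additive Lˣ) = 0 := by
      have := congrArg Subtype.val hn
      exact this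
    rw [HullEq_phi_apply, ← ofMul_zpow, ofMul_eq_zero] at h1
    exact isOfFinOrder_iff_zpow_eq_one.mpr ⟨n, nonZeroDivisors.ne_zero n.2, h1⟩
  · intro h
    obtain ⟨n, hn0, hn⟩ := isOfFinOrder_iff_zpow_eq_one.mp h
    refine ⟨⟨n, mem_nonZeroDivisors_of_ne_zero hn0⟩, ?_⟩
    apply Subtype.ext
    change (n : ℤ) • (HullEq_phi γ a) = 0
    rw [HullEq_phi_apply, ← ofMul_zpow, hn, ofMul_one]

private theorem HullEq_sat {L : Type} [Field L] {ι : Type} [Fintype ι] (γ : ι → Lˣ)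
    (n : ℤ) (a : ι → ℤ) (hn : n ≠ 0) (h : n • a ∈ HullEq_lat γ) : a ∈ HullEq_lat γ := by
  rw [HullEq_mem_lat] at h ⊢
  have e : ∏ i, γ i ^ (n • a) i = (∏ i, γ i ^ a i) ^ n := by
    rw [← Finset.prod_zpow]
    apply Finset.prod_congr rfl
    intro i _
    rw [Pi.smul_apply, smul_eq_mul, mul_comm, zpow_mul]
  rw [e] at h
  obtain ⟨m, hm0, hm⟩ := isOfFinOrder_iff_zpow_eq_one.mp h
  refine isOfFinOrder_iff_zpow_eq_one.mpr ⟨n * m, mul_ne_zero hn hm0, ?_⟩
  rw [zpow_mul]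
  exact hm

private theorem HullEq_finrank {L : Type} [Field L] {ι : Type} [Fintype ι] (γ : ι → Lˣ) :
    Module.finrank ℤ ((ι → ℤ) ⧸ HullEq_lat γ) = mr γ := by
  have hsurj : Function.Surjective (HullEq_psi γ) := by
    intro y
    obtain ⟨x, rfl⟩ := Submodule.mkQ_surjective _ y
    obtain ⟨a, ha⟩ := LinearMap.surjective_rangeRestrict (HullEq_phi γ) x
    exact ⟨a, by rw [HullEq_psi, LinearMap.comp_apply, ha]⟩
  have e1 := (LinearMap.quotKerEquivOfSurjective (HullEq_psi γ) hsurj).finrank_eq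
  have e2 : Module.finrank ℤ ((LinearMap.range (HullEq_phi γ)) ⧸
      Submodule.torsion ℤ (LinearMap.range (HullEq_phi γ))) =
        Module.finrank ℤ (LinearMap.range (HullEq_phi γ)) := by
    unfold Module.finrank
    rw [rank_quotient_eq_of_le_torsion le_rfl]
  rw [HullEq_lat, e1, e2, HullEq_range]
  rfl

/-- Clearing denominators in a monomial equation. -/
private theorem HullEq_clear {E : Type} [Field E] {ι : Type} [Fintype ι] (x : ι → Eˣ) (a : ι → ℤ)
    (c : Eˣ) : ∏ i, x i ^ a i = c ↔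
      (∏ i, (x i : E) ^ (a i).toNat) = c * ∏ i, (x i : E) ^ (-a i).toNat := by
  have h1 : ∀ i, x i ^ a i = x i ^ (a i).toNat * (x i ^ (-a i).toNat)⁻¹ := by
    intro i
    rw [← zpow_natCast, ← zpow_natCast, ← zpow_neg, ← zpow_add]
    congr 1
    omega
  have h2 : ∏ i, x i ^ a i = (∏ i, x i ^ (a i).toNat) * (∏ i, x i ^ (-a i).toNat)⁻¹ := by
    rw [Finset.prod_congr rfl fun i _ => h1 i, Finset.prod_mul_distrib, Finset.prod_inv_distrib]
  rw [h2, mul_inv_eq_iff_eq_mul, Units.ext_iff]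
  push_cast
  exact Iff.rfl

/-- Monomial equations that hold on `Z` hold at a generic point. -/
private theorem HullEq_generic {K : Type} [Field K] {L : Type} [Field L] [Algebra K L]
    {ι : Type} [Fintype ι] (Z : Set (ι → Kˣ)) (γ : ι → Lˣ) (h : locus K γ = vanIdeal Z)
    (a : ι → ℤ) (c : Kˣ) (hz : ∀ z ∈ Z, ∏ i, z i ^ a i = c) : ∏ i, γ i ^ a i = cst K L c := by
  rw [HullEq_clear]
  have hf : (∏ i, (X i : MvPolynomial ι K) ^ (a i).toNat -
      C (c : K) * ∏ i, (X i : MvPolynomial ι K) ^ (-a i).toNat) ∈ vanIdeal Z := by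
    intro z hzZ
    have h1 := (HullEq_clear z a c).mp (hz z hzZ)
    simp only [map_sub, map_mul, map_prod, map_pow, eval_X, eval_C]
    rw [h1, sub_self]
  rw [← h, mem_locus] at hf
  simp only [map_sub, map_mul, map_prod, map_pow, aeval_X, aeval_C] at hf
  rw [cst_val]
  exact sub_eq_zero.mp hf

variable {K : Type} [Field K] [IsAlgClosed K] [CharZero K] {L : Type} [Field L] [Algebra K L]
  {ι : Type} [Fintype ι]

private theorem HullEq_cst_self (ζ : Kˣ) : cst K K ζ = ζ := by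
  apply Units.ext
  simp

private theorem HullEq_main (Z : Set (ι → Kˣ)) (hZ : IrrClosed Z) (γ : ι → Lˣ)
    (h : locus K γ = vanIdeal Z) (z : ι → Kˣ) (hz : z ∈ Z) :
    IsSpecial {x : ι → Kˣ | ∀ a ∈ HullEq_lat γ, ∏ i, x i ^ a i = ∏ i, z i ^ a i} ∧
      hull Z = {x : ι → Kˣ | ∀ a ∈ HullEq_lat γ, ∏ i, x i ^ a i = ∏ i, z i ^ a i} := by
  have hspec : ∀ x ∈ Z, locus K γ ≤ locus K x := by
    intro x hx
    rw [h]
    exact (mem_iff_le_locus hZ x).mp hx
  have hval : ∀ x ∈ Z, ∀ (a : ι → ℤ) (ζ : Kˣ), ∏ i, γ i ^ a i = cst K L ζ →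
      ∏ i, x i ^ a i = ζ := by
    intro x hx a ζ ha
    rw [monomial_spec x γ (hspec x hx) a ζ ha, HullEq_cst_self]
  have hsp : IsSpecial {x : ι → Kˣ | ∀ a ∈ HullEq_lat γ, ∏ i, x i ^ a i = ∏ i, z i ^ a i} := by
    refine ⟨(coset_irrClosed (HullEq_lat γ) (HullEq_sat γ) z).1,
      {e | e.1 ∈ HullEq_lat γ ∧ e.2 = ∏ i, z i ^ e.1 i}, ?_, ?_⟩
    · rintro e ⟨ha, he⟩
      obtain ⟨ζ, hζ, hζ'⟩ := exists_cst_of_isOfFinOrder (K := K) _ ((HullEq_mem_lat γ e.1).mp ha)
      rw [he, hval z hz e.1 ζ hζ'.symm]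
      exact hζ
    · ext x
      constructor
      · rintro hx e ⟨ha, he⟩
        rw [he]
        exact hx e.1 ha
      · intro hx a ha
        exact hx (a, ∏ i, z i ^ a i) ⟨ha, rfl⟩
  refine ⟨hsp, Set.Subset.antisymm ?_ ?_⟩
  · apply Set.sInter_subset_of_mem
    refine ⟨hsp, ?_⟩
    intro x hx a ha
    obtain ⟨ζ, hζ, hζ'⟩ := exists_cst_of_isOfFinOrder (K := K) _ ((HullEq_mem_lat γ a).mp ha)
    rw [hval z hz a ζ hζ'.symm, hval x hx a ζ hζ'.symm]
  · apply Set.subset_sInter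
    rintro H ⟨⟨hH, E, hE, rfl⟩, hZH⟩ x hx e he
    have h1 := HullEq_generic Z γ h e.1 e.2 (fun z hz => hZH hz e he)
    have h2 : e.1 ∈ HullEq_lat γ := by
      rw [HullEq_mem_lat, h1]
      exact MonoidHom.isOfFinOrder (cst K L) (hE e he)
    rw [hx e.1 h2]
    exact hval z hz e.1 e.2 h1

theorem isSpecial_hull (Z : Set (ι → Kˣ)) (hZ : IrrClosed Z) : IsSpecial (hull Z) := by
  obtain ⟨L, _, _, γ, h⟩ := exists_generic Z hZ
  obtain ⟨z, hz⟩ := hZ.nonempty
  obtain ⟨h1, h2⟩ := HullEq_main Z hZ γ h z hz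
  rw [h2]
  exact h1

omit [IsAlgClosed K] [CharZero K] in
theorem subset_hull (Z : Set (ι → Kˣ)) : Z ⊆ hull Z :=
  Set.subset_sInter fun _ h => h.2

/-- Equations of the hull, in terms of a generic point. -/
theorem mem_hull_iff (Z : Set (ι → Kˣ)) (hZ : IrrClosed Z) (γ : ι → Lˣ)
    (h : locus K γ = vanIdeal Z) (x : ι → Kˣ) :
    x ∈ hull Z ↔ ∀ (a : ι → ℤ) (ζ : Kˣ), IsOfFinOrder ζ → ∏ i, γ i ^ a i = cst K L ζ →
      ∏ i, x i ^ a i = ζ := by
  obtain ⟨z, hz⟩ := hZ.nonempty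
  obtain ⟨-, h2⟩ := HullEq_main Z hZ γ h z hz
  have hval : ∀ (a : ι → ℤ) (ζ : Kˣ), ∏ i, γ i ^ a i = cst K L ζ →
      ∏ i, z i ^ a i = ζ := by
    intro a ζ ha
    have hsp : locus K γ ≤ locus K z := by
      rw [h]
      exact (mem_iff_le_locus hZ z).mp hz
    rw [monomial_spec z γ hsp a ζ ha, HullEq_cst_self]
  rw [h2]
  constructor
  · intro hx a ζ hζ ha
    have h3 : a ∈ HullEq_lat γ := by
      rw [HullEq_mem_lat, ha]
      exact MonoidHom.isOfFinOrder (cst K L) hζ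
    rw [hx a h3]
    exact hval a ζ ha
  · intro hx a ha
    obtain ⟨ζ, hζ, hζ'⟩ := exists_cst_of_isOfFinOrder (K := K) _ ((HullEq_mem_lat γ a).mp ha)
    rw [hx a ζ hζ hζ'.symm, hval a ζ hζ'.symm]

theorem zdim_hull (Z : Set (ι → Kˣ)) (hZ : IrrClosed Z) (γ : ι → Lˣ)
    (h : locus K γ = vanIdeal Z) : zdim (hull Z) = (mr γ : WithBot ℕ∞) := by
  obtain ⟨z, hz⟩ := hZ.nonempty
  obtain ⟨-, h2⟩ := HullEq_main Z hZ γ h z hz
  rw [h2, (coset_irrClosed (HullEq_lat γ) (HullEq_sat γ) z).2, HullEq_finrank]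

end Pool.Agent.Lib.MP_a325a5_ag.UL
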