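import Pool.Agent.Lib.MP_a325a5_ag.UL.GenA

/-! Dependence of the generic configuration on the base point.

Paper proof.  Let `U = I ⊕ S.B` and let `𝒰 = MvPolynomial U (MvPolynomial I k)`.  Define the
numerators and denominators of the coordinates of `pt` in `𝒰` by the formulas of
`exists_genConfig` with `y_i` replaced by the variable `X_i`: nodes `u_i`, `u_i + 1`,
`u_i + 1 + X_i`, `u_b + part_b k (X)`.  The denominators are nodes; let `N` be their product.  The
element `G(pt)` of the localization of `𝒰` at `N` is `H / N ^ r` with `H ∈ 𝒰`.  For each `(E, y)`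
the evaluation `X_i ↦ y_i` maps `N` to a nonzero element of `MvPolynomial U E`, and `G(pt)` to
the value of `G` at the generic configuration; so this value is nonzero iff the image of `H` is,
iff some coefficient `h` of `H` has `h(y) ≠ 0`.  Take `T` = the set of coefficients of `H`. -/

namespace Pool.Agent.Lib.MP_a325a5_ag.UL

open MvPolynomial

/-- clearing denominators, uniformly -/
private theorem Coeffs_clear {σ k A : Type} [Fintype σ] [Field k] [CommRing A] (c : k →+* A)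
    (ν δ : σ → A) (G : MvPolynomial σ k) :
    ∃ (H : A) (r : ℕ), ∀ (F : Type) [Field F] [Algebra k F] (Ψ : A →+* F),
      (∀ a, Ψ (c a) = algebraMap k F a) → (∀ j, Ψ (δ j) ≠ 0) →
        aeval (fun j => Ψ (ν j) / Ψ (δ j)) G * (Ψ (∏ j, δ j)) ^ r = Ψ H := by
  classical
  induction G using MvPolynomial.induction_on with
  | C a =>
    refine ⟨c a, 0, fun F _ _ Ψ h1 _ => ?_⟩
    rw [pow_zero, mul_one, h1, MvPolynomial.algHom_C]
  | add p q hp hq =>
    obtain ⟨H1, r1, h1⟩ := hp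
    obtain ⟨H2, r2, h2⟩ := hq
    refine ⟨H1 * (∏ j, δ j) ^ r2 + H2 * (∏ j, δ j) ^ r1, r1 + r2, fun F _ _ Ψ h3 h4 => ?_⟩
    rw [map_add, map_add, map_mul, map_mul, map_pow, map_pow, ← h1 F Ψ h3 h4, ← h2 F Ψ h3 h4]
    ring
  | mul_X p j hp =>
    obtain ⟨H1, r1, h1⟩ := hp
    refine ⟨H1 * (ν j * ∏ l ∈ Finset.univ.erase j, δ l), r1 + 1, fun F _ _ Ψ h3 h4 => ?_⟩
    have h5 : Ψ (∏ l, δ l) = Ψ (δ j) * Ψ (∏ l ∈ Finset.univ.erase j, δ l) := by
      rw [← map_mul, Finset.mul_prod_erase _ _ (Finset.mem_univ j)]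
    have h6 : Ψ (ν j) / Ψ (δ j) * Ψ (∏ l, δ l) = Ψ (ν j) * Ψ (∏ l ∈ Finset.univ.erase j, δ l) := by
      rw [h5, ← mul_assoc, div_mul_cancel₀ _ (h4 j)]
    rw [map_mul, aeval_X, map_mul, map_mul, ← h1 F Ψ h3 h4, ← h6]
    ring

variable {I : Type} [Fintype I] (S : Sys I) (k : Type) [Field k]

/-- the universal term -/
private noncomputable def Coeffs_term (b : S.B) (l : Fin (S.m b + 1)) :
    MvPolynomial (I ⊕ S.B) (MvPolynomial I k) :=
  ((S.ε b l : ℤ) : MvPolynomial (I ⊕ S.B) (MvPolynomial I k)) * ∏ i, C (X i) ^ S.α b l i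

/-- the universal chain -/
private noncomputable def Coeffs_s (b : S.B) (l : Fin (S.m b + 1)) :
    MvPolynomial (I ⊕ S.B) (MvPolynomial I k) :=
  X (Sum.inr b) + ∑ j ∈ Finset.univ.filter (fun j => j < l), Coeffs_term S k b j

/-- the numerators -/
private noncomputable def Coeffs_num : S.D ⊕ S.D → MvPolynomial (I ⊕ S.B) (MvPolynomial I k)
  | Sum.inl (Sum.inl (Sum.inl i)) => X (Sum.inl i)
  | Sum.inr (Sum.inl (Sum.inl _)) => 1
  | Sum.inl (Sum.inl (Sum.inr i)) => X (Sum.inl i) + 1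
  | Sum.inr (Sum.inl (Sum.inr i)) => C (X i)
  | Sum.inl (Sum.inr ⟨b, l⟩) => Coeffs_s S k b l
  | Sum.inr (Sum.inr ⟨b, l⟩) => Coeffs_term S k b l

/-- the denominators -/
private noncomputable def Coeffs_den : S.D ⊕ S.D → MvPolynomial (I ⊕ S.B) (MvPolynomial I k)
  | Sum.inl (Sum.inl (Sum.inl i)) => X (Sum.inl i) + 1
  | Sum.inr (Sum.inl (Sum.inl i)) => X (Sum.inl i) + 1
  | Sum.inl (Sum.inl (Sum.inr i)) => X (Sum.inl i) + 1 + C (X i)
  | Sum.inr (Sum.inl (Sum.inr i)) => X (Sum.inl i) + 1 + C (X i)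
  | Sum.inl (Sum.inr ⟨b, l⟩) => Coeffs_s S k b (l + 1)
  | Sum.inr (Sum.inr ⟨b, l⟩) => Coeffs_s S k b (l + 1)

variable {k} {E : Type} [Field E] [Algebra k E] (y : I → Eˣ)

/-- the evaluation -/
private noncomputable def Coeffs_ev :
    MvPolynomial (I ⊕ S.B) (MvPolynomial I k) →+* RatFun (I ⊕ S.B) E :=
  (algebraMap (MvPolynomial (I ⊕ S.B) E) (RatFun (I ⊕ S.B) E)).comp
    (MvPolynomial.map ((aeval (fun i => (y i : E)) : MvPolynomial I k →ₐ[k] E) :
      MvPolynomial I k →+* E))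

omit [Fintype I] in
private theorem Coeffs_ev_X (u : I ⊕ S.B) : Coeffs_ev (k := k) S y (X u) = rvar E u := by
  unfold Coeffs_ev rvar
  rw [RingHom.comp_apply, MvPolynomial.map_X]

omit [Fintype I] in
private theorem Coeffs_ev_CX (i : I) :
    Coeffs_ev (k := k) S y (C (X i)) = rcst (I ⊕ S.B) (y i : E) := by
  unfold Coeffs_ev rcst
  rw [RingHom.comp_apply, MvPolynomial.map_C]
  congr 2
  exact aeval_X _ _

omit [Fintype I] in
private theorem Coeffs_ev_CC (a : k) :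
    Coeffs_ev (k := k) S y (C (C a)) = algebraMap k (RatFun (I ⊕ S.B) E) a := by
  unfold Coeffs_ev
  rw [RingHom.comp_apply, MvPolynomial.map_C,
    IsScalarTower.algebraMap_apply k (MvPolynomial (I ⊕ S.B) E) (RatFun (I ⊕ S.B) E)]
  congr 1
  rw [MvPolynomial.algebraMap_apply]
  congr 1
  show (aeval (fun i => (y i : E)) : MvPolynomial I k →ₐ[k] E) (C a) = algebraMap k E a
  exact MvPolynomial.algHom_C _ _

private theorem Coeffs_rcst_mul (U : Type) (a b : E) : rcst U (a * b) = rcst U a * rcst U b := by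
  unfold rcst
  rw [map_mul, map_mul]

private theorem Coeffs_ev_term (b : S.B) (l : Fin (S.m b + 1)) :
    Coeffs_ev (k := k) S y (Coeffs_term S k b l) =
      rcst (I ⊕ S.B) ((S.term y b l : Eˣ) : E) := by
  unfold Coeffs_term
  rw [map_mul, map_prod, map_intCast]
  have h1 : ∀ i, Coeffs_ev (k := k) S y (C (X i) ^ S.α b l i) =
      rcst (I ⊕ S.B) ((y i : E) ^ S.α b l i) := by
    intro i
    rw [map_pow, Coeffs_ev_CX]
    unfold rcst
    rw [map_pow, map_pow]
  simp only [h1]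
  unfold Sys.term sgnUnit
  rw [Units.val_mul, Units.coe_prod, Coeffs_rcst_mul]
  congr 1
  · unfold rcst
    rw [Units.coe_map]
    simp
  · unfold rcst
    rw [map_prod, map_prod]
    refine Finset.prod_congr rfl fun i _ => ?_
    rw [Units.val_pow_eq_pow_val]

private theorem Coeffs_ev_s (b : S.B) (l : Fin (S.m b + 1)) :
    Coeffs_ev (k := k) S y (Coeffs_s S k b l) =
      rvar E (Sum.inr b) + rcst (I ⊕ S.B) (S.part y b l) := by
  unfold Coeffs_s
  rw [map_add, Coeffs_ev_X, map_sum]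
  congr 1
  unfold Sys.part
  have h1 : rcst (I ⊕ S.B) (∑ j ∈ Finset.univ.filter (fun j => j < l), ((S.term y b j : Eˣ) : E)) =
      ∑ j ∈ Finset.univ.filter (fun j => j < l), rcst (I ⊕ S.B) ((S.term y b j : Eˣ) : E) := by
    unfold rcst
    rw [map_sum, map_sum]
  rw [h1]
  exact Finset.sum_congr rfl fun j _ => Coeffs_ev_term S y b j

private theorem Coeffs_nodes (hy : ∀ b, S.rel y b = 0) :
    (∀ i, ((genConfig S y hy).a 0 i : RatFun (I ⊕ S.B) E) =
      Coeffs_ev (k := k) S y (X (Sum.inl i))) ∧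
    (∀ i, ((genConfig S y hy).a 1 i : RatFun (I ⊕ S.B) E) =
      Coeffs_ev (k := k) S y (X (Sum.inl i) + 1)) ∧
    (∀ i, ((genConfig S y hy).a 2 i : RatFun (I ⊕ S.B) E) =
      Coeffs_ev (k := k) S y (X (Sum.inl i) + 1 + C (X i))) ∧
    (∀ b l, ((genConfig S y hy).s b l : RatFun (I ⊕ S.B) E) =
      Coeffs_ev (k := k) S y (Coeffs_s S k b l)) ∧
    (∀ i, ((genConfig S y hy).y i : RatFun (I ⊕ S.B) E) =
      Coeffs_ev (k := k) S y (C (X i))) := by
  have h0 : ∀ i, ((genConfig S y hy).a 0 i : RatFun (I ⊕ S.B) E) =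
      Coeffs_ev (k := k) S y (X (Sum.inl i)) := by
    intro i
    rw [Coeffs_ev_X, genConfig_a0]
  have h1 : ∀ i, ((genConfig S y hy).a 1 i : RatFun (I ⊕ S.B) E) =
      Coeffs_ev (k := k) S y (X (Sum.inl i) + 1) := by
    intro i
    rw [(genConfig S y hy).ha1, h0, map_add, map_one]
  have h4 : ∀ i, ((genConfig S y hy).y i : RatFun (I ⊕ S.B) E) =
      Coeffs_ev (k := k) S y (C (X i)) := by
    intro i
    rw [Coeffs_ev_CX, genConfig_y]
  refine ⟨h0, h1, fun i => ?_, fun b l => ?_, h4⟩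
  · rw [(genConfig S y hy).ha2, h1, h4, ← map_add]
  · rw [Coeffs_ev_s, genConfig_s]

private theorem Coeffs_term_eq (hy : ∀ b, S.rel y b = 0) (b : S.B) (l : Fin (S.m b + 1)) :
    ((S.term (genConfig S y hy).y b l : (RatFun (I ⊕ S.B) E)ˣ) : RatFun (I ⊕ S.B) E) =
      Coeffs_ev (k := k) S y (Coeffs_term S k b l) := by
  unfold Coeffs_term Sys.term sgnUnit
  rw [map_mul, map_prod, map_intCast, Units.val_mul, Units.coe_prod]
  congr 1
  refine Finset.prod_congr rfl fun i _ => ?_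
  rw [Units.val_pow_eq_pow_val, map_pow, (Coeffs_nodes (k := k) S y hy).2.2.2.2]

private theorem Coeffs_den_eq (hy : ∀ b, S.rel y b = 0) (j : S.D ⊕ S.D) :
    Coeffs_ev (k := k) S y (Coeffs_den S k j) ≠ 0 ∧
      (((genConfig S y hy).pt j : (RatFun (I ⊕ S.B) E)ˣ) : RatFun (I ⊕ S.B) E) =
        Coeffs_ev (k := k) S y (Coeffs_num S k j) / Coeffs_ev (k := k) S y (Coeffs_den S k j) := by
  obtain ⟨h0, h1, h2, h3, h4⟩ := Coeffs_nodes (k := k) S y hy
  rcases j with ((i | i) | ⟨b, l⟩) | ((i | i) | ⟨b, l⟩)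
  · refine ⟨?_, ?_⟩
    · show Coeffs_ev (k := k) S y (X (Sum.inl i) + 1) ≠ 0
      rw [← h1]
      exact Units.ne_zero _
    · show (((genConfig S y hy).a 0 i / (genConfig S y hy).a 1 i : (RatFun (I ⊕ S.B) E)ˣ) :
        RatFun (I ⊕ S.B) E) = Coeffs_ev (k := k) S y (X (Sum.inl i)) /
          Coeffs_ev (k := k) S y (X (Sum.inl i) + 1)
      rw [Units.val_div_eq_div_val, h0, h1]
  · refine ⟨?_, ?_⟩
    · show Coeffs_ev (k := k) S y (X (Sum.inl i) + 1 + C (X i)) ≠ 0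
      rw [← h2]
      exact Units.ne_zero _
    · show (((genConfig S y hy).a 1 i / (genConfig S y hy).a 2 i : (RatFun (I ⊕ S.B) E)ˣ) :
        RatFun (I ⊕ S.B) E) = Coeffs_ev (k := k) S y (X (Sum.inl i) + 1) /
          Coeffs_ev (k := k) S y (X (Sum.inl i) + 1 + C (X i))
      rw [Units.val_div_eq_div_val, h1, h2]
  · refine ⟨?_, ?_⟩
    · show Coeffs_ev (k := k) S y (Coeffs_s S k b (l + 1)) ≠ 0
      rw [← h3]
      exact Units.ne_zero _
    · show (((genConfig S y hy).s b l / (genConfig S y hy).s b (l + 1) :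
        (RatFun (I ⊕ S.B) E)ˣ) : RatFun (I ⊕ S.B) E) = Coeffs_ev (k := k) S y (Coeffs_s S k b l) /
          Coeffs_ev (k := k) S y (Coeffs_s S k b (l + 1))
      rw [Units.val_div_eq_div_val, h3, h3]
  · refine ⟨?_, ?_⟩
    · show Coeffs_ev (k := k) S y (X (Sum.inl i) + 1) ≠ 0
      rw [← h1]
      exact Units.ne_zero _
    · show (((1 : (RatFun (I ⊕ S.B) E)ˣ) / (genConfig S y hy).a 1 i : (RatFun (I ⊕ S.B) E)ˣ) :
        RatFun (I ⊕ S.B) E) = Coeffs_ev (k := k) S y 1 /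
          Coeffs_ev (k := k) S y (X (Sum.inl i) + 1)
      rw [Units.val_div_eq_div_val, h1, map_one, Units.val_one]
  · refine ⟨?_, ?_⟩
    · show Coeffs_ev (k := k) S y (X (Sum.inl i) + 1 + C (X i)) ≠ 0
      rw [← h2]
      exact Units.ne_zero _
    · show (((genConfig S y hy).y i / (genConfig S y hy).a 2 i : (RatFun (I ⊕ S.B) E)ˣ) :
        RatFun (I ⊕ S.B) E) = Coeffs_ev (k := k) S y (C (X i)) /
          Coeffs_ev (k := k) S y (X (Sum.inl i) + 1 + C (X i))
      rw [Units.val_div_eq_div_val, h4, h2]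
  · refine ⟨?_, ?_⟩
    · show Coeffs_ev (k := k) S y (Coeffs_s S k b (l + 1)) ≠ 0
      rw [← h3]
      exact Units.ne_zero _
    · show (((S.term (genConfig S y hy).y b l) / (genConfig S y hy).s b (l + 1) :
        (RatFun (I ⊕ S.B) E)ˣ) : RatFun (I ⊕ S.B) E) =
          Coeffs_ev (k := k) S y (Coeffs_term S k b l) /
            Coeffs_ev (k := k) S y (Coeffs_s S k b (l + 1))
      rw [Units.val_div_eq_div_val, Coeffs_term_eq (k := k), h3]

theorem exists_coeffs {I : Type} [Fintype I] (S : Sys I) {k : Type} [Field k]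
    (G : MvPolynomial (S.D ⊕ S.D) k) :
    ∃ T : Set (MvPolynomial I k), ∀ (E : Type) [Field E] [Algebra k E] (y : I → Eˣ)
      (hy : ∀ b, S.rel y b = 0),
      G ∉ locus k (genConfig S y hy).pt ↔ ∃ h ∈ T, aeval (fun i => (y i : E)) h ≠ 0 := by
  classical
  obtain ⟨H, r, hH⟩ := Coeffs_clear
    ((C : MvPolynomial I k →+* MvPolynomial (I ⊕ S.B) (MvPolynomial I k)).comp C)
    (Coeffs_num S k) (Coeffs_den S k) G
  refine ⟨Set.range fun m => coeff m H, fun E _ _ y hy => ?_⟩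
  have h1 := hH (RatFun (I ⊕ S.B) E) (Coeffs_ev (k := k) S y)
    (fun a => Coeffs_ev_CC S y a) (fun j => (Coeffs_den_eq (k := k) S y hy j).1)
  have h2 : (fun j => Coeffs_ev (k := k) S y (Coeffs_num S k j) /
      Coeffs_ev (k := k) S y (Coeffs_den S k j)) = fun j =>
      (((genConfig S y hy).pt j : (RatFun (I ⊕ S.B) E)ˣ) : RatFun (I ⊕ S.B) E) := by
    funext j
    exact (Coeffs_den_eq (k := k) S y hy j).2.symm
  rw [h2] at h1
  have h3 : Coeffs_ev (k := k) S y (∏ j, Coeffs_den S k j) ≠ 0 := by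
    rw [map_prod]
    exact Finset.prod_ne_zero_iff.2 fun j _ => (Coeffs_den_eq (k := k) S y hy j).1
  have h4 : G ∉ locus k (genConfig S y hy).pt ↔ Coeffs_ev (k := k) S y H ≠ 0 := by
    rw [mem_locus, ← h1, Ne, mul_eq_zero, not_or]
    exact ⟨fun h => ⟨h, pow_ne_zero _ h3⟩, fun h => h.1⟩
  rw [h4]
  unfold Coeffs_ev
  rw [RingHom.comp_apply]
  have h5 : Function.Injective (algebraMap (MvPolynomial (I ⊕ S.B) E) (RatFun (I ⊕ S.B) E)) :=
    IsFractionRing.injective _ _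
  rw [Ne, map_eq_zero_iff _ h5, ← Ne, MvPolynomial.ne_zero_iff]
  constructor
  · rintro ⟨m, hm⟩
    refine ⟨coeff m H, ⟨m, rfl⟩, ?_⟩
    rw [MvPolynomial.coeff_map] at hm
    exact hm
  · rintro ⟨_, ⟨m, rfl⟩, hm⟩
    refine ⟨m, ?_⟩
    rw [MvPolynomial.coeff_map]
    exact hm

end Pool.Agent.Lib.MP_a325a5_ag.UL
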