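import Pool.Agent.Lib.MP_a325a5_ag.UL.TDloc
import Pool.Agent.Lib.MP_a325a5_ag.UL.MRloc

/-! Adding constants: from defects over `K` to defects over the small field `k`.

`exists_constants`: let `J` be a transcendence basis over `K` among the coordinates of `γ`
(`td_spec`); each coordinate `γ i` satisfies a polynomial equation over `K[γ_J]`; let `c` be the
list of all nonzero coefficients (elements of `K`) occurring in these equations.  Then `γ` is
algebraic over `k(c, γ_J)`, so `td k (γ, c) ≤ J.card + td k c`.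

`exists_seed`: `I` = a maximal multiplicatively independent set of coordinates of `(γ, c)`
(`mr_spec`).  For `x` with `locus K γ ≤ locus K x` every monomial relation with constants of
`(γ, c)` is one of `(x, c)` (`monomial_spec`), so `mr_comp_add_le` (with `f = Sum.inl`) gives
`mr γ + mr (x, c) ≤ mr (γ, c) + mr x`.  The coordinates outside `I` are, up to torsion, monomials
in those of `I`, for `(γ, c)` and so for `(x, c)`: hence algebraic over them.  So
`mr (x,c)_I ≤ mr (x,c) ≤ I.card + mr x - mr γ < I.card - td K γ`,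
`td k (γ,c)_I ≤ td k (γ, c) ≤ td K γ + td k c` and `td k c ≤ td k (x, c) ≤ td k (x, c)_I`. -/

namespace Pool.Agent.Lib.MP_a325a5_ag.UL

open MvPolynomial

variable {k K F : Type} [Field k] [Field K] [Field F] [Algebra k K] [Algebra K F] [Algebra k F]
  [IsScalarTower k K F] {ι : Type} [Fintype ι]

/-- finitely many constants suffice for one algebraic equation -/
private theorem seed_one {J : Type} (g : J → F) (hg : AlgebraicIndependent K g) (x : F)
    (hx : IsAlgebraic (Algebra.adjoin K (Set.range g)) x) :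
    ∃ T : Finset Kˣ, IsAlgebraic (Algebra.adjoin k
      (((fun u : Kˣ => algebraMap K F (u : K)) '' (T : Set Kˣ)) ∪ Set.range g)) x := by
  classical
  have hnot : ¬ AlgebraicIndependent K (fun o : Option J => o.elim x g) := by
    intro h
    exact (AlgebraicIndependent.option_iff.mp h).2 hx
  rw [algebraicIndependent_iff] at hnot
  push Not at hnot
  obtain ⟨P, hP1, hP2⟩ := hnot
  set T : Finset Kˣ := P.support.attach.image
    (fun m => Units.mk0 (P.coeff m.1) (MvPolynomial.mem_support_iff.mp m.2)) with hT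
  refine ⟨T, ?_⟩
  set TK : Set K := (fun u : Kˣ => (u : K)) '' (T : Set Kˣ) with hTK
  set k1 : Subalgebra k K := Algebra.adjoin k TK with hk1
  have hcoef : ∀ m, P.coeff m ∈ k1 := by
    intro m
    by_cases hm : m ∈ P.support
    · refine Algebra.subset_adjoin ⟨Units.mk0 (P.coeff m) (MvPolynomial.mem_support_iff.mp hm), ?_, rfl⟩
      rw [Finset.mem_coe, hT, Finset.mem_image]
      exact ⟨⟨m, hm⟩, Finset.mem_attach _ _, rfl⟩
    · rw [MvPolynomial.notMem_support_iff.mp hm]
      exact k1.zero_mem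
  -- the polynomial over `k1`
  obtain ⟨P1, hP1'⟩ : ∃ P1 : MvPolynomial (Option J) k1, MvPolynomial.map (algebraMap k1 K) P1 = P := by
    refine MvPolynomial.mem_range_map_iff_coeffs_subset.mpr ?_
    intro a ha
    obtain ⟨m, _, rfl⟩ := MvPolynomial.mem_coeffs_iff.mp ha
    exact ⟨⟨P.coeff m, hcoef m⟩, rfl⟩
  have hinj : Function.Injective (algebraMap k1 K) := Subtype.val_injective
  have hg1 : AlgebraicIndependent k1 g := hg.restrictScalars hinj
  have halg1 : IsAlgebraic (Algebra.adjoin k1 (Set.range g)) x := by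
    by_contra hcon
    have h1 : AlgebraicIndependent k1 (fun o : Option J => o.elim x g) :=
      AlgebraicIndependent.option_iff.mpr ⟨hg1, hcon⟩
    rw [algebraicIndependent_iff] at h1
    apply hP2
    rw [← hP1']
    rw [h1 P1, map_zero]
    rw [← hP1, ← hP1', MvPolynomial.aeval_map_algebraMap]
  -- compare the two algebras
  set S2 : Subalgebra k F := Algebra.adjoin k
      (((fun u : Kˣ => algebraMap K F (u : K)) '' (T : Set Kˣ)) ∪ Set.range g) with hS2
  have hle : (Algebra.adjoin k1 (Set.range g)).restrictScalars k ≤ S2 := by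
    intro z hz
    rw [Subalgebra.mem_restrictScalars] at hz
    induction hz using Algebra.adjoin_induction with
    | mem y hy => exact Algebra.subset_adjoin (Or.inr hy)
    | algebraMap r =>
      have h2 : algebraMap k1 F r = (IsScalarTower.toAlgHom k K F) r.1 := rfl
      rw [h2]
      have h3 : (IsScalarTower.toAlgHom k K F) r.1 ∈ k1.map (IsScalarTower.toAlgHom k K F) :=
        ⟨r.1, r.2, rfl⟩
      have h4 : k1.map (IsScalarTower.toAlgHom k K F) ≤ S2 := by
        rw [hk1, AlgHom.map_adjoin]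
        refine Algebra.adjoin_mono ?_
        rintro _ ⟨_, ⟨u, hu, rfl⟩, rfl⟩
        exact Or.inl ⟨u, hu, rfl⟩
      exact h4 h3
    | add _ _ _ _ ha hb => exact S2.add_mem ha hb
    | mul _ _ _ _ ha hb => exact S2.mul_mem ha hb
  have halg2 : IsAlgebraic ((Algebra.adjoin k1 (Set.range g)).restrictScalars k) x := halg1
  obtain ⟨p, hp1, hp2⟩ := halg2
  refine ⟨p.map (Subalgebra.inclusion hle).toRingHom, ?_, ?_⟩
  · intro h
    apply hp1
    exact (Polynomial.map_eq_zero_iff (Subalgebra.inclusion_injective hle)).mp h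
  · rw [← hp2, Polynomial.aeval_def, Polynomial.aeval_def, Polynomial.eval₂_map]
    rfl

theorem exists_constants (γ : ι → Fˣ) :
    ∃ (e : ℕ) (c : Fin e → Kˣ),
      td k (Sum.elim γ (fun j => cst K F (c j))) ≤ td K γ + td k c := by
  classical
  obtain ⟨J, hJ1, hJ2, hJ3⟩ := td_spec (K := K) γ
  have h1 : ∀ i, ∃ T : Finset Kˣ, IsAlgebraic (Algebra.adjoin k
      (((fun u : Kˣ => algebraMap K F (u : K)) '' (T : Set Kˣ)) ∪
        Set.range (fun j : J => ((γ j : Fˣ) : F)))) ((γ i : Fˣ) : F) := by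
    intro i
    refine seed_one (k := k) (fun j : J => ((γ j : Fˣ) : F)) hJ1 _ ?_
    have h2 := hJ3 i
    rw [Set.image_eq_range] at h2
    exact h2
  choose T hT using h1
  set TU : Finset Kˣ := Finset.univ.biUnion T with hTU
  refine ⟨TU.card, fun j => (TU.equivFin.symm j : Kˣ), ?_⟩
  set c : Fin TU.card → Kˣ := fun j => (TU.equivFin.symm j : Kˣ) with hc
  have hcr : ∀ u ∈ TU, ∃ j, c j = u := by
    intro u hu
    refine ⟨TU.equivFin ⟨u, hu⟩, ?_⟩
    rw [hc]
    simp
  obtain ⟨J', hJ'1, hJ'2, hJ'3⟩ := td_spec (K := k) c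
  rw [← hJ2, ← hJ'2]
  set q : J ⊕ J' → F := Sum.elim (fun j => ((γ j : Fˣ) : F))
    (fun j => algebraMap K F ((c j : Kˣ) : K)) with hq
  have hcalg : ∀ j, IsAlgebraic (Algebra.adjoin k (Set.range q)) (algebraMap K F ((c j : Kˣ) : K)) := by
    intro j
    obtain ⟨p, hp1, hp2⟩ := hJ'3 j
    have hle : (Algebra.adjoin k ((fun j => ((c j : Kˣ) : K)) '' (J' : Set (Fin TU.card)))).map
        (IsScalarTower.toAlgHom k K F) ≤ Algebra.adjoin k (Set.range q) := by
      rw [AlgHom.map_adjoin]
      refine Algebra.adjoin_mono ?_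
      rintro _ ⟨_, ⟨l, hl, rfl⟩, rfl⟩
      exact ⟨Sum.inr ⟨l, hl⟩, rfl⟩
    let φ : Algebra.adjoin k ((fun j => ((c j : Kˣ) : K)) '' (J' : Set (Fin TU.card))) →+*
        Algebra.adjoin k (Set.range q) :=
      { toFun := fun a => ⟨algebraMap K F a.1, hle ⟨a.1, a.2, rfl⟩⟩
        map_one' := Subtype.ext (map_one _)
        map_mul' := fun a b => Subtype.ext (map_mul _ _ _)
        map_zero' := Subtype.ext (map_zero _)
        map_add' := fun a b => Subtype.ext (map_add _ _ _) }
    have hφ : Function.Injective φ := by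
      intro a b hab
      apply Subtype.ext
      apply (algebraMap K F).injective
      exact congrArg (fun z => z.1) hab
    refine ⟨p.map φ, ?_, ?_⟩
    · intro h
      apply hp1
      exact (Polynomial.map_eq_zero_iff hφ).mp h
    · rw [Polynomial.aeval_def, Polynomial.eval₂_map]
      have h2 : (algebraMap (Algebra.adjoin k (Set.range q)) F).comp φ =
          (algebraMap K F).comp (algebraMap (Algebra.adjoin k
            ((fun j => ((c j : Kˣ) : K)) '' (J' : Set (Fin TU.card)))) K) := rfl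
      rw [h2, ← Polynomial.hom_eval₂, ← Polynomial.aeval_def, hp2, map_zero]
  have hle := td_le_card_of_algebraic (K := k) (Sum.elim γ (fun j => cst K F (c j))) q ?_
  · rwa [Fintype.card_sum, Fintype.card_coe, Fintype.card_coe] at hle
  · rintro (i | j)
    · refine IsAlgebraic.adjoin_of_forall_isAlgebraic (s := (((fun u : Kˣ => algebraMap K F (u : K)) ''
        (T i : Set Kˣ)) ∪ Set.range (fun j : J => ((γ j : Fˣ) : F)))) ?_ (hT i)
      rintro z ⟨hz | hz, hz2⟩
      · obtain ⟨u, hu, rfl⟩ := hz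
        obtain ⟨j, hj⟩ := hcr u (Finset.mem_biUnion.mpr ⟨i, Finset.mem_univ i, hu⟩)
        rw [← hj]
        exact hcalg j
      · obtain ⟨j, rfl⟩ := hz
        exact absurd ⟨Sum.inl j, rfl⟩ hz2
    · exact hcalg j

theorem exists_seed (γ : ι → Fˣ) :
    ∃ (e : ℕ) (c : Fin e → Kˣ) (I : Finset (ι ⊕ Fin e)),
      mr (fun i : I => Sum.elim γ (fun j => cst K F (c j)) i) = I.card ∧
      ∀ x : ι → Kˣ, locus K γ ≤ locus K x → mr x + td K γ < mr γ →
        mr (fun i : I => Sum.elim x c i) +
            td k (fun i : I => Sum.elim γ (fun j => cst K F (c j)) i) <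
          I.card + td k (fun i : I => Sum.elim x c i) := by
  classical
  obtain ⟨e, c, hc⟩ := exists_constants (k := k) (K := K) γ
  set Γ : ι ⊕ Fin e → Fˣ := Sum.elim γ (fun j => cst K F (c j)) with hΓ
  obtain ⟨I, hI1, hI2, hI3⟩ := mr_spec Γ
  refine ⟨e, c, I, hI2, fun x hx hlt => ?_⟩
  set W : ι ⊕ Fin e → Kˣ := Sum.elim x c with hW
  -- specialisation of monomial relations
  have hspec : ∀ a : ι ⊕ Fin e → ℤ, ∏ i, Γ i ^ a i = 1 → ∏ i, W i ^ a i = 1 := by
    intro a ha
    rw [Fintype.prod_sum_type] at ha ⊢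
    have h1 : ∏ i, γ i ^ a (Sum.inl i) = cst K F ((∏ j, c j ^ a (Sum.inr j))⁻¹) := by
      rw [map_inv, map_prod]
      have h2 : ∏ j, cst K F (c j ^ a (Sum.inr j)) = ∏ j, Γ (Sum.inr j) ^ a (Sum.inr j) := by
        refine Finset.prod_congr rfl fun j _ => ?_
        rw [map_zpow]
        rfl
      rw [h2]
      exact eq_inv_of_mul_eq_one_left ha
    have h3 := monomial_spec x γ hx (fun i => a (Sum.inl i)) _ h1
    have h4 : cst K K ((∏ j, c j ^ a (Sum.inr j))⁻¹) = (∏ j, c j ^ a (Sum.inr j))⁻¹ := by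
      apply Units.ext
      rw [cst_val]
      rfl
    rw [h4] at h3
    change (∏ i, x i ^ a (Sum.inl i)) * (∏ j, c j ^ a (Sum.inr j)) = 1
    rw [h3, inv_mul_cancel]
  have e1 : mr γ + mr W ≤ mr Γ + mr x := mr_comp_add_le W Γ hspec Sum.inl
  -- the coordinates outside `I`
  have hout : ∀ i, ∃ (N : ℕ) (a : ι ⊕ Fin e → ℤ), 0 < N ∧ (∀ j, j ∉ I → a j = 0) ∧
      W i ^ N = ∏ j, W j ^ a j := by
    intro i
    obtain ⟨N, a, hN, ha, hrel⟩ := hI3 i
    refine ⟨N, a, hN, ha, ?_⟩
    have h1 : ∏ j, Γ j ^ ((if j = i then (N : ℤ) else 0) - a j) = 1 := by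
      have h2 : ∏ j, Γ j ^ ((if j = i then (N : ℤ) else 0) - a j) =
          (∏ j, Γ j ^ (if j = i then (N : ℤ) else 0)) * (∏ j, Γ j ^ a j)⁻¹ := by
        rw [← Finset.prod_inv_distrib, ← Finset.prod_mul_distrib]
        exact Finset.prod_congr rfl fun j _ => zpow_sub _ _ _
      have h3 : ∏ j, Γ j ^ (if j = i then (N : ℤ) else 0) = Γ i ^ N := by
        rw [Finset.prod_eq_single i]
        · rw [if_pos rfl, zpow_natCast]
        · intro j _ hj
          rw [if_neg hj, zpow_zero]
        · intro h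
          exact absurd (Finset.mem_univ i) h
      rw [h2, h3, hrel, mul_inv_cancel]
    have h4 := hspec _ h1
    have h2 : ∏ j, W j ^ ((if j = i then (N : ℤ) else 0) - a j) =
        (∏ j, W j ^ (if j = i then (N : ℤ) else 0)) * (∏ j, W j ^ a j)⁻¹ := by
      rw [← Finset.prod_inv_distrib, ← Finset.prod_mul_distrib]
      exact Finset.prod_congr rfl fun j _ => zpow_sub _ _ _
    have h3 : ∏ j, W j ^ (if j = i then (N : ℤ) else 0) = W i ^ N := by
      rw [Finset.prod_eq_single i]
      · rw [if_pos rfl, zpow_natCast]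
      · intro j _ hj
        rw [if_neg hj, zpow_zero]
      · intro h
        exact absurd (Finset.mem_univ i) h
    rw [h2, h3] at h4
    exact eq_of_mul_inv_eq_one h4
  have e2 : mr (fun i : I => W i) ≤ mr W := by
    refine mr_le_of_pow_mem W (fun i : I => W i) fun j => ⟨1, one_pos, ?_⟩
    rw [pow_one]
    exact Subgroup.subset_closure ⟨j.1, rfl⟩
  have e3 : td k (fun i : I => Γ i) ≤ td k Γ := by
    refine td_le_of_algebraic (K := k) (fun i : I => Γ i) Γ fun i => ?_
    have h4 : ((Γ i : Fˣ) : F) ∈ Algebra.adjoin k (Set.range fun j => ((Γ j : Fˣ) : F)) :=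
      Algebra.subset_adjoin ⟨i.1, rfl⟩
    exact isAlgebraic_algebraMap (R := Algebra.adjoin k (Set.range fun j => ((Γ j : Fˣ) : F)))
      (A := F) ⟨_, h4⟩
  have e4 : td k c ≤ td k W := by
    refine td_le_of_algebraic (K := k) c W fun i => ?_
    have h4 : ((c i : Kˣ) : K) ∈ Algebra.adjoin k (Set.range fun j => ((W j : Kˣ) : K)) :=
      Algebra.subset_adjoin ⟨Sum.inr i, rfl⟩
    exact isAlgebraic_algebraMap (R := Algebra.adjoin k (Set.range fun j => ((W j : Kˣ) : K)))
      (A := K) ⟨_, h4⟩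
  have e5 : td k W ≤ td k (fun i : I => W i) := by
    refine td_le_of_algebraic (K := k) W (fun i : I => W i) fun i => ?_
    obtain ⟨N, a, hN, ha, hrel⟩ := hout i
    set R := Algebra.adjoin k (Set.range fun j : I => ((W j : Kˣ) : K)) with hR
    refine IsAlgebraic.of_pow hN ?_
    have h5 : ((W i : Kˣ) : K) ^ N = ∏ j, ((W j ^ a j : Kˣ) : K) := by
      have h6 := congrArg (fun u : Kˣ => (u : K)) hrel
      simp only [Units.val_pow_eq_pow_val, Units.coe_prod] at h6
      exact h6
    rw [h5]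
    rw [← Subalgebra.mem_algebraicClosure]
    refine Subalgebra.prod_mem _ fun j _ => ?_
    rw [Subalgebra.mem_algebraicClosure]
    by_cases hj : j ∈ I
    · have h7 : IsAlgebraic R ((W j : Kˣ) : K) := by
        have h8 : ((W j : Kˣ) : K) ∈ R := Algebra.subset_adjoin ⟨⟨j, hj⟩, rfl⟩
        exact isAlgebraic_algebraMap (R := R) (A := K) ⟨_, h8⟩
      rcases Int.eq_nat_or_neg (a j) with ⟨n, hn | hn⟩
      · rw [hn, zpow_natCast, Units.val_pow_eq_pow_val]
        exact h7.pow n
      · rw [hn, zpow_neg, zpow_natCast, Units.val_inv_eq_inv_val, Units.val_pow_eq_pow_val]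
        exact (h7.pow n).inv
    · rw [ha j hj, zpow_zero, Units.val_one]
      exact isAlgebraic_one
  have e6 : mr Γ = I.card := hI1.symm
  change mr (fun i : I => W i) + td k (fun i : I => Γ i) < I.card + td k (fun i : I => W i)
  omega

end Pool.Agent.Lib.MP_a325a5_ag.UL
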