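import Pool.Agent.Lib.MP_a325a5_ag.UL.Sys
import Pool.Agent.Lib.MP_a325a5_ag.UL.TDloc
import Pool.Agent.Lib.MP_a325a5_ag.UL.MRloc

/-! Choice of the relations.

Paper proof.  `J` = a transcendence basis over `k` among the coordinates of `y` (`td_spec`),
`B = {j // j ∉ J}`, so `card B + td k y = card I`.  Let `j ∉ J`.  As `k` is algebraic over `ℚ`,
`y_j` is algebraic over `ℚ(y_J)`: there is a nonzero polynomial `P` with integer coefficients in
the variables `J ∪ {j}` with `P(y) = 0`.  Written as a sum of signed monomials it is a list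
`(ε_0, α_0), .., (ε_(M-1), α_(M-1))`.  Among all such lists (polynomial `∑ ε X^α ≠ 0`, exponents
supported in `J ∪ {j}`, value `0` at `y`) choose one with `M` minimal (`M ≥ 1`).
Different partial sums: if `part k = part l`, `k < l`, the sublist `[k, l)` has value zero at `y`,
and so has its complement; both are shorter than the list (`0 ≤ k < l ≤ M - 1`), and one of the
two polynomials is nonzero: contradiction to the minimality.
Isolation: let `y'` with `locus k y' ≤ locus k y` and `rel b y' = 0` for all `b`.  The `y'_J` are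
algebraically independent over `k` (`algebraicIndependent_of_locus_le`), `P(y'_J, T) ≠ 0`, so
`y'_j` is algebraic over `k(y'_J)`; `td_le_card_of_algebraic`. -/

namespace Pool.Agent.Lib.MP_a325a5_ag.UL

open MvPolynomial

/-- The value of a list of signed monomials. -/
private def selVal {O A : Type} [Fintype O] [CommRing A] {N : Type} (T : Finset N) (ε : N → ℤˣ)
    (α : N → O → ℕ) (v : O → A) : A :=
  ∑ l ∈ T, ((ε l : ℤ) : A) * ∏ o, v o ^ α l o

private theorem aeval_selVal {O A : Type} [Fintype O] [CommRing A] {N : Type} (T : Finset N)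
    (ε : N → ℤˣ) (α : N → O → ℕ) (v : O → A) :
    aeval v (selVal T ε α (X : O → MvPolynomial O ℤ)) = selVal T ε α v := by
  unfold selVal
  rw [map_sum]
  refine Finset.sum_congr rfl fun l _ => ?_
  rw [map_mul, map_prod, map_intCast]
  congr 1
  refine Finset.prod_congr rfl fun o _ => ?_
  rw [map_pow, aeval_X]

/-- admissible length -/
private def Adm {O A : Type} [Fintype O] [CommRing A] (v : O → A) (M : ℕ) : Prop :=
  ∃ (ε : Fin M → ℤˣ) (α : Fin M → O → ℕ),
    selVal Finset.univ ε α (X : O → MvPolynomial O ℤ) ≠ 0 ∧ selVal Finset.univ ε α v = 0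

private theorem selVal_equiv {O A : Type} [Fintype O] [CommRing A] {N : Type} (T : Finset N)
    (ε : N → ℤˣ) (α : N → O → ℕ) (v : O → A) :
    selVal Finset.univ (fun l : Fin T.card => ε (T.equivFin.symm l))
      (fun l => α (T.equivFin.symm l)) v = selVal T ε α v := by
  unfold selVal
  rw [Equiv.sum_comp T.equivFin.symm
    (fun l : T => ((ε l : ℤ) : A) * ∏ o, v o ^ α l o)]
  exact Finset.sum_coe_sort T (fun l => ((ε l : ℤ) : A) * ∏ o, v o ^ α l o)

private theorem adm_of_finset {O A : Type} [Fintype O] [CommRing A] {v : O → A} {N : Type}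
    (T : Finset N) (ε : N → ℤˣ) (α : N → O → ℕ)
    (h1 : selVal T ε α (X : O → MvPolynomial O ℤ) ≠ 0) (h2 : selVal T ε α v = 0) :
    Adm v T.card := by
  refine ⟨fun l => ε (T.equivFin.symm l), fun l => α (T.equivFin.symm l), ?_, ?_⟩
  · rw [selVal_equiv]
    exact h1
  · rw [selVal_equiv]
    exact h2

/-- every integer polynomial is a list of signed monomials -/
private theorem exists_list {O : Type} [Fintype O] (P : MvPolynomial O ℤ) :
    ∃ (N : Type) (_ : Fintype N) (ε : N → ℤˣ) (α : N → O → ℕ),
      selVal Finset.univ ε α (X : O → MvPolynomial O ℤ) = P := by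
  classical
  refine ⟨Σ m : P.support, Fin (P.coeff m.1).natAbs, inferInstance,
    fun l => if 0 ≤ P.coeff l.1.1 then 1 else -1, fun l o => l.1.1 o, ?_⟩
  unfold selVal
  rw [Fintype.sum_sigma]
  have h1 : ∀ m : P.support, ∑ _i : Fin (P.coeff m.1).natAbs,
      ((((if 0 ≤ P.coeff m.1 then (1 : ℤˣ) else -1) : ℤˣ) : ℤ) : MvPolynomial O ℤ) *
        ∏ o, (X o : MvPolynomial O ℤ) ^ (m.1 o) = monomial m.1 (P.coeff m.1) := by
    intro m
    rw [Finset.sum_const, Finset.card_univ, Fintype.card_fin, nsmul_eq_mul, ← mul_assoc]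
    have h2 : (((P.coeff m.1).natAbs : ℕ) : MvPolynomial O ℤ) *
        ((((if 0 ≤ P.coeff m.1 then (1 : ℤˣ) else -1) : ℤˣ) : ℤ) : MvPolynomial O ℤ) =
        C (P.coeff m.1) := by
      rw [← map_natCast (C : ℤ →+* MvPolynomial O ℤ), ← map_intCast (C : ℤ →+* MvPolynomial O ℤ),
        ← map_mul]
      congr 1
      split_ifs with h
      · simp only [Units.val_one, Int.cast_one, mul_one]
        simp only [Int.natCast_natAbs]
        exact abs_of_nonneg h
      · simp only [Units.val_neg, Units.val_one, Int.cast_neg, Int.cast_one, mul_neg, mul_one]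
        simp only [Int.natCast_natAbs]
        rw [abs_of_neg (not_le.mp h)]
        ring
    rw [h2, monomial_eq, Finsupp.prod_fintype]
    intro i
    rw [pow_zero]
  rw [Finset.sum_congr rfl fun m _ => h1 m]
  rw [Finset.sum_coe_sort P.support (fun m => monomial m (P.coeff m))]
  exact P.support_sum_monomial_coeff

private theorem exists_adm {O A : Type} [Fintype O] [CommRing A] (v : O → A)
    (h : ¬ AlgebraicIndependent ℤ v) : ∃ M, Adm v M := by
  rw [algebraicIndependent_iff] at h
  push Not at h
  obtain ⟨P, hP1, hP2⟩ := h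
  obtain ⟨N, hN, ε, α, hl⟩ := exists_list P
  refine ⟨(Finset.univ : Finset N).card, adm_of_finset Finset.univ ε α ?_ ?_⟩
  · rw [hl]
    exact hP2
  · rw [← aeval_selVal, hl]
    exact hP1

/-- minimal lists have different partial sums -/
private theorem adm_min {O A : Type} [Fintype O] [CommRing A] (v : O → A) (m : ℕ)
    (hmin : ∀ M < m + 1, ¬ Adm v M) (ε : Fin (m + 1) → ℤˣ) (α : Fin (m + 1) → O → ℕ)
    (h1 : selVal Finset.univ ε α (X : O → MvPolynomial O ℤ) ≠ 0)
    (h2 : selVal Finset.univ ε α v = 0) (k l : Fin (m + 1)) (hkl : k < l)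
    (hpart : selVal (Finset.univ.filter fun t => t < k) ε α v =
      selVal (Finset.univ.filter fun t => t < l) ε α v) : False := by
  classical
  set T : Finset (Fin (m + 1)) := Finset.univ.filter fun t => k ≤ t ∧ t < l with hT
  have e1 : (Finset.univ.filter fun t => t < l) =
      (Finset.univ.filter fun t : Fin (m + 1) => t < k) ∪ T := by
    ext t
    simp only [Finset.mem_filter, Finset.mem_univ, true_and, Finset.mem_union, hT]
    constructor
    · intro h
      rcases lt_or_ge t k with h3 | h3
      · exact Or.inl h3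
      · exact Or.inr ⟨h3, h⟩
    · rintro (h | h)
      · exact h.trans hkl
      · exact h.2
  have d1 : Disjoint (Finset.univ.filter fun t : Fin (m + 1) => t < k) T := by
    rw [Finset.disjoint_left]
    intro t ht1 ht2
    simp only [Finset.mem_filter, Finset.mem_univ, true_and, hT] at ht1 ht2
    exact absurd ht1 (not_lt.mpr ht2.1)
  have v1 : selVal T ε α v = 0 := by
    have h3 : selVal (Finset.univ.filter fun t => t < l) ε α v =
        selVal (Finset.univ.filter fun t => t < k) ε α v + selVal T ε α v := by
      unfold selVal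
      rw [e1, Finset.sum_union d1]
    rw [← hpart] at h3
    exact left_eq_add.mp h3
  have hsplit : ∀ {A' : Type} [CommRing A'] (w : O → A'),
      selVal T ε α w + selVal Tᶜ ε α w = selVal Finset.univ ε α w := by
    intro A' _ w
    unfold selVal
    exact Finset.sum_add_sum_compl T _
  have v2 : selVal Tᶜ ε α v = 0 := by
    have h3 := hsplit v
    rw [v1, zero_add, h2] at h3
    exact h3
  have c1 : T.card < m + 1 := by
    have h3 : T ⊂ Finset.univ := by
      refine Finset.ssubset_univ_iff.mpr ?_
      intro h4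
      have h5 : l ∈ T := by rw [h4]; exact Finset.mem_univ l
      simp only [Finset.mem_filter, Finset.mem_univ, true_and, hT] at h5
      exact lt_irrefl l h5.2
    have h4 := Finset.card_lt_card h3
    rwa [Finset.card_univ, Fintype.card_fin] at h4
  have c2 : Tᶜ.card < m + 1 := by
    have h3 : 0 < T.card := by
      refine Finset.card_pos.mpr ⟨k, ?_⟩
      simp only [Finset.mem_filter, Finset.mem_univ, true_and, hT]
      exact ⟨le_rfl, hkl⟩
    rw [Finset.card_compl, Fintype.card_fin]
    omega
  by_cases h3 : selVal T ε α (X : O → MvPolynomial O ℤ) = 0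
  · refine hmin _ c2 (adm_of_finset Tᶜ ε α ?_ v2)
    intro h4
    apply h1
    rw [← hsplit, h3, h4, add_zero]
  · exact hmin _ c1 (adm_of_finset T ε α h3 v1)

/-- the data of one relation -/
private theorem exists_minimal {O A : Type} [Fintype O] [CommRing A] (v : O → A)
    (h : ¬ AlgebraicIndependent ℤ v) :
    ∃ (m : ℕ) (ε : Fin (m + 1) → ℤˣ) (α : Fin (m + 1) → O → ℕ),
      selVal Finset.univ ε α (X : O → MvPolynomial O ℤ) ≠ 0 ∧ selVal Finset.univ ε α v = 0 ∧
      ∀ k l : Fin (m + 1), selVal (Finset.univ.filter fun t => t < k) ε α v =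
        selVal (Finset.univ.filter fun t => t < l) ε α v → k = l := by
  classical
  have hex := exists_adm v h
  have hspec := Nat.find_spec hex
  have hmin : ∀ M < Nat.find hex, ¬ Adm v M := fun M hM => Nat.find_min hex hM
  generalize Nat.find hex = M at hspec hmin
  obtain ⟨ε, α, h1, h2⟩ := hspec
  cases M with
  | zero =>
    exfalso
    apply h1
    unfold selVal
    rw [Finset.univ_eq_empty, Finset.sum_empty]
  | succ m =>
    refine ⟨m, ε, α, h1, h2, fun k l hkl => ?_⟩
    rcases lt_trichotomy k l with h3 | h3 | h3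
    · exact (adm_min v m hmin ε α h1 h2 k l h3 hkl).elim
    · exact h3
    · exact (adm_min v m hmin ε α h1 h2 l k h3 hkl.symm).elim

theorem exists_system {I : Type} [Fintype I] {k F : Type} [Field k] [CharZero k]
    [Algebra.IsAlgebraic ℚ k] [Field F] [Algebra k F] (y : I → Fˣ) :
    ∃ S : Sys I, (∀ b, S.rel y b = 0) ∧ (∀ b l l', S.part y b l = S.part y b l' → l = l') ∧
      Fintype.card S.B + td k y = Fintype.card I ∧
      ∀ (L' : Type) [Field L'] [Algebra k L'] (y' : I → L'ˣ), locus k y' ≤ locus k y →
        (∀ b, S.rel y' b = 0) → td k y' ≤ td k y := by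
  classical
  obtain ⟨J, hJ1, hJ2, hJ3⟩ := td_spec (K := k) y
  have halgZ : Algebra.IsAlgebraic ℤ k := by
    exact (IsFractionRing.comap_isAlgebraic_iff (A := ℤ) (K := ℚ) (C := k)).mpr inferInstance
  -- the family for `b`
  let fam : ∀ (A : Type) [Monoid A], (I → Aˣ) → {j // j ∉ J} → Option J → A :=
    fun A _ w b o => o.elim ((w b.1 : Aˣ) : A) (fun j => ((w j : Aˣ) : A))
  have hnot : ∀ b : {j // j ∉ J}, ¬ AlgebraicIndependent ℤ (fam F y b) := by
    intro b hb
    have h1 : AlgebraicIndependent k (fam F y b) := hb.extendScalars k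
    have h2 := (AlgebraicIndependent.option_iff (R := k)
      (x := fun j : J => ((y j : Fˣ) : F)) (a := ((y b.1 : Fˣ) : F))).mp h1
    apply h2.2
    have h3 := hJ3 b.1
    rw [Set.image_eq_range] at h3
    exact h3
  choose m ε α h1 h2 h3 using fun b => exists_minimal (fam F y b) (hnot b)
  let ext : ∀ b : {j // j ∉ J}, (Option J → ℕ) → I → ℕ := fun b a i =>
    if h : i ∈ J then a (some ⟨i, h⟩) else if i = b.1 then a none else 0
  have hprod : ∀ (A : Type) [CommRing A] (w : I → Aˣ) (b : {j // j ∉ J}) (a : Option J → ℕ),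
      ∏ i, ((w i : Aˣ) : A) ^ ext b a i = ∏ o, fam A w b o ^ a o := by
    intro A _ w b a
    rw [Fintype.prod_option]
    have e1 : (fam A w b none) ^ a none = ∏ i ∈ {b.1}, ((w i : Aˣ) : A) ^ ext b a i := by
      rw [Finset.prod_singleton]
      have : ext b a b.1 = a none := by
        change (if h : b.1 ∈ J then a (some ⟨b.1, h⟩) else if b.1 = b.1 then a none else 0) = a none
        rw [dif_neg b.2, if_pos rfl]
      rw [this]
      rfl
    have e2 : ∏ j : J, (fam A w b (some j)) ^ a (some j) =
        ∏ i ∈ J, ((w i : Aˣ) : A) ^ ext b a i := by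
      rw [← Finset.prod_coe_sort J]
      refine Finset.prod_congr rfl fun j _ => ?_
      have : ext b a j.1 = a (some j) := by
        simp only [ext]
        rw [dif_pos j.2]
      rw [this]
      rfl
    have e3 : Disjoint ({b.1} : Finset I) J := by
      rw [Finset.disjoint_singleton_left]
      exact b.2
    rw [e1, e2, ← Finset.prod_union e3]
    symm
    refine Finset.prod_subset (Finset.subset_univ _) fun i _ hi => ?_
    rw [Finset.mem_union, Finset.mem_singleton, not_or] at hi
    have : ext b a i = 0 := by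
      simp only [ext]
      rw [dif_neg hi.2, if_neg hi.1]
    rw [this, pow_zero]
  let S : Sys I :=
    { B := {j // j ∉ J}
      fB := inferInstance
      m := m
      ε := ε
      α := fun b l => ext b (α b l) }
  have hterm : ∀ (A : Type) [CommRing A] (w : I → Aˣ) (b : S.B) (l : Fin (S.m b + 1)),
      ((S.term w b l : Aˣ) : A) = ((ε b l : ℤ) : A) * ∏ o, fam A w b o ^ α b l o := by
    intro A _ w b l
    rw [← hprod A w b (α b l)]
    unfold Sys.term sgnUnit
    rw [Units.val_mul, Units.coe_prod]
    simp only [Units.val_pow_eq_pow_val]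
    rfl
  have hrel : ∀ (A : Type) [CommRing A] (w : I → Aˣ) (b : S.B),
      S.rel w b = selVal Finset.univ (ε b) (α b) (fam A w b) := by
    intro A _ w b
    unfold Sys.rel selVal
    exact Finset.sum_congr rfl fun l _ => hterm A w b l
  have hpart : ∀ (A : Type) [CommRing A] (w : I → Aˣ) (b : S.B) (l : Fin (S.m b + 1)),
      S.part w b l = selVal (Finset.univ.filter fun t => t < l) (ε b) (α b) (fam A w b) := by
    intro A _ w b l
    unfold Sys.part selVal
    exact Finset.sum_congr rfl fun l _ => hterm A w b l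
  have hJcard : J.card = td k y := hJ2
  refine ⟨S, fun b => ?_, fun b l l' hll => ?_, ?_, ?_⟩
  · rw [hrel]
    exact h2 b
  · rw [hpart, hpart] at hll
    exact h3 b l l' hll
  · have h4 : Fintype.card S.B = Fintype.card I - J.card := by
      change Fintype.card {j // j ∉ J} = _
      rw [Fintype.card_subtype_compl, Fintype.card_coe]
    have h5 := Finset.card_le_univ J
    rw [h4, ← hJcard]
    omega
  · intro L' _ _ y' hloc hrel'
    have hind := algebraicIndependent_of_locus_le y y' hloc J hJ1
    rw [← hJcard]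
    have hle := td_le_card_of_algebraic (K := k) y' (fun j : J => ((y' j : L'ˣ) : L')) ?_
    · rwa [Fintype.card_coe] at hle
    · intro i
      by_cases hi : i ∈ J
      · have h4 : ((y' i : L'ˣ) : L') ∈ Algebra.adjoin k
            (Set.range fun j : J => ((y' j : L'ˣ) : L')) :=
          Algebra.subset_adjoin ⟨⟨i, hi⟩, rfl⟩
        exact isAlgebraic_algebraMap (R := Algebra.adjoin k
            (Set.range fun j : J => ((y' j : L'ˣ) : L'))) (A := L') ⟨_, h4⟩
      · by_contra hcon
        have h4 : AlgebraicIndependent k (fam L' y' ⟨i, hi⟩) :=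
          (AlgebraicIndependent.option_iff (R := k)
            (x := fun j : J => ((y' j : L'ˣ) : L')) (a := ((y' i : L'ˣ) : L'))).mpr ⟨hind, hcon⟩
        have hinj : Function.Injective (algebraMap ℤ k) := by
          rw [algebraMap_int_eq]
          exact Int.cast_injective
        have h5 : AlgebraicIndependent ℤ (fam L' y' ⟨i, hi⟩) := h4.restrictScalars hinj
        rw [algebraicIndependent_iff] at h5
        apply h1 ⟨i, hi⟩
        apply h5
        rw [aeval_selVal, ← hrel]
        exact hrel' ⟨i, hi⟩

end Pool.Agent.Lib.MP_a325a5_ag.UL
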