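import Pool.Agent.Lib.MP_a325a5_ag.UL.Lin
import Pool.Agent.Lib.MP_a325a5_ag.UL.TDloc

/-! The product of lines.

The generic point `T_i, 1 - T_i` of `ℓ^D` has coordinates in `RatFun D K`.  A polynomial `f`
vanishes at it iff `f(t, 1 - t) = 0` for all `t ∈ K^D` (`K` infinite, also if only the `t_i`
different from `0` and `1` are considered).  Rank: `lin_independent` with the forms `T_i + 0`,
`T_i + (-1)` (note `1 - T_i = - (T_i - 1)`; pass to squares). -/

namespace Pool.Agent.Lib.MP_a325a5_ag.UL

open MvPolynomial

/-- the substitution `T_i, 1 - T_i` -/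
private noncomputable def lineSub (K : Type) [Field K] (D : Type) :
    MvPolynomial (D ⊕ D) K →ₐ[K] MvPolynomial D K :=
  aeval (Sum.elim (fun i => (X i : MvPolynomial D K)) (fun i => 1 - X i))

private theorem lineSub_aeval {K : Type} [Field K] {D : Type} {A : Type} [CommRing A] [Algebra K A]
    (t : D → A) (f : MvPolynomial (D ⊕ D) K) :
    aeval t (lineSub K D f) = aeval (Sum.elim t (fun i => 1 - t i)) f := by
  have h : (aeval t : MvPolynomial D K →ₐ[K] A).comp (lineSub K D) =
      aeval (Sum.elim t (fun i => 1 - t i)) := by
    apply MvPolynomial.algHom_ext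
    rintro (i | i)
    · simp [lineSub]
    · simp [lineSub]
  exact congrArg (fun φ => φ f) h

private theorem lineSub_eval {K : Type} [Field K] {D : Type}
    (t : D → K) (f : MvPolynomial (D ⊕ D) K) :
    eval t (lineSub K D f) = eval (Sum.elim t (fun i => 1 - t i)) f := by
  have h := lineSub_aeval t f
  have e1 : ∀ g : MvPolynomial D K, aeval t g = eval t g := fun g => by
    rw [← MvPolynomial.coe_aeval_eq_eval]
    rfl
  have e2 : ∀ g : MvPolynomial (D ⊕ D) K, aeval (Sum.elim t (fun i => 1 - t i)) g =
      eval (Sum.elim t (fun i => 1 - t i)) g := fun g => by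
    rw [← MvPolynomial.coe_aeval_eq_eval]
    rfl
  rw [e1, e2] at h
  exact h

private theorem lineSub_eq_zero_iff (K : Type) [Field K] [Infinite K] (D : Type) [Fintype D]
    (f : MvPolynomial (D ⊕ D) K) : f ∈ vanIdeal (lineProd K D) ↔ lineSub K D f = 0 := by
  constructor
  · intro hf
    have hprod : lineSub K D f * ∏ i : D, ((X i : MvPolynomial D K) * (1 - X i)) = 0 := by
      apply MvPolynomial.funext
      intro t
      rw [map_mul, map_zero, map_prod]
      by_cases ht : ∀ i, t i ≠ 0 ∧ 1 - t i ≠ 0
      · have h1 : eval t (lineSub K D f) = 0 := by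
          have h2 := hf (Sum.elim (fun i => Units.mk0 (t i) (ht i).1)
            (fun i => Units.mk0 (1 - t i) (ht i).2)) (by
              intro i
              simp)
          rw [lineSub_eval, ← h2]
          congr 2
          funext i
          rcases i with i | i
          · rfl
          · rfl
        rw [h1, zero_mul]
      · push Not at ht
        obtain ⟨i, hi⟩ := ht
        have h1 : ∏ j : D, eval t ((X j : MvPolynomial D K) * (1 - X j)) = 0 := by
          apply Finset.prod_eq_zero (Finset.mem_univ i)
          rw [map_mul, map_sub, map_one, eval_X]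
          by_cases h0 : t i = 0
          · rw [h0, zero_mul]
          · rw [hi h0, mul_zero]
        rw [h1, mul_zero]
    rcases mul_eq_zero.mp hprod with h | h
    · exact h
    · exfalso
      rw [Finset.prod_eq_zero_iff] at h
      obtain ⟨i, _, hi⟩ := h
      rcases mul_eq_zero.mp hi with h | h
      · exact X_ne_zero i h
      · have h1 : eval (fun _ => (0 : K)) (1 - X i : MvPolynomial D K) = 0 := by
          rw [h, map_zero]
        rw [map_sub, map_one, eval_X, sub_zero] at h1
        exact one_ne_zero h1
  · intro h z hz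
    have h1 := lineSub_eval (fun i => (z (Sum.inl i) : K)) f
    rw [h, map_zero] at h1
    rw [show (fun i => (z i : K)) = Sum.elim (fun i => (z (Sum.inl i) : K))
      (fun i => 1 - (z (Sum.inl i) : K)) from ?_]
    · exact h1.symm
    · funext i
      rcases i with i | i
      · rfl
      · have h2 := hz i
        rw [Sum.elim_inr, ← h2]
        ring

private theorem X_add_X_sub_mem (K : Type) [Field K] (D : Type) (i : D) :
    (X (Sum.inl i) + X (Sum.inr i) - 1 : MvPolynomial (D ⊕ D) K) ∈ vanIdeal (lineProd K D) := by
  intro z hz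
  rw [map_sub, map_add, map_one, eval_X, eval_X, hz i, sub_self]

private theorem line_rvar_ne {K D : Type} [Field K] (i : D) : rvar K i ≠ 0 := by
  have h := rvar_add_rcst_ne_zero (E := K) i 0
  rwa [rcst, map_zero, map_zero, add_zero] at h

private theorem line_one_sub_eq {K D : Type} [Field K] (i : D) :
    1 - rvar K i = - (rvar K i + rcst D (-1 : K)) := by
  rw [rcst, map_neg, map_neg, map_one, map_one]
  ring

private theorem line_one_sub_ne {K D : Type} [Field K] (i : D) : 1 - rvar K i ≠ 0 := by
  rw [line_one_sub_eq]
  exact neg_ne_zero.mpr (rvar_add_rcst_ne_zero i _)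

/-- the generic point -/
private noncomputable def lineGen (K : Type) [Field K] (D : Type) : D ⊕ D → (RatFun D K)ˣ :=
  Sum.elim (fun i => Units.mk0 (rvar K i) (line_rvar_ne i))
    (fun i => Units.mk0 (1 - rvar K i) (line_one_sub_ne i))

private theorem line_aeval_rvar (K : Type) [Field K] (D : Type) :
    (aeval (fun i : D => rvar K i) : MvPolynomial D K →ₐ[K] RatFun D K) =
      IsScalarTower.toAlgHom K (MvPolynomial D K) (RatFun D K) := by
  apply MvPolynomial.algHom_ext
  intro i
  rw [aeval_X]
  rfl

private theorem line_rvar_indep (K : Type) [Field K] (D : Type) :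
    AlgebraicIndependent K (fun i : D => rvar K i) := by
  rw [algebraicIndependent_iff_injective_aeval, line_aeval_rvar]
  exact IsFractionRing.injective (MvPolynomial D K) (RatFun D K)

theorem line_generic (K : Type) [Field K] [Infinite K] (D : Type) [Fintype D] :
    ∃ γ : D ⊕ D → (RatFun D K)ˣ, locus K γ = vanIdeal (lineProd K D) ∧
      td K γ = Fintype.card D ∧ mr γ = 2 * Fintype.card D := by
  refine ⟨lineGen K D, ?_, ?_, ?_⟩
  · ext f
    rw [lineSub_eq_zero_iff, mem_locus]
    have h1 := lineSub_aeval (fun i : D => rvar K i) f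
    have h2 : (fun i => (lineGen K D i : RatFun D K)) =
        Sum.elim (fun i : D => rvar K i) (fun i => 1 - rvar K i) := by
      funext i
      rcases i with i | i <;> rfl
    rw [h2, ← h1]
    rw [line_aeval_rvar]
    exact map_eq_zero_iff _ (IsFractionRing.injective (MvPolynomial D K) (RatFun D K))
  · apply le_antisymm
    · apply td_le_card_of_algebraic (lineGen K D) (fun i : D => rvar K i)
      intro i
      have hmem : (lineGen K D i : RatFun D K) ∈
          Algebra.adjoin K (Set.range (fun i : D => rvar K i)) := by
        rcases i with i | i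
        · exact Algebra.subset_adjoin ⟨i, rfl⟩
        · exact sub_mem (one_mem _) (Algebra.subset_adjoin ⟨i, rfl⟩)
      exact isAlgebraic_algebraMap
        (⟨_, hmem⟩ : Algebra.adjoin K (Set.range (fun i : D => rvar K i)))
    · apply le_td (lineGen K D) (fun i : D => rvar K i) (line_rvar_indep K D)
      intro i
      have hmem : rvar K i ∈
          Algebra.adjoin K (Set.range fun i => (lineGen K D i : RatFun D K)) :=
        Algebra.subset_adjoin ⟨Sum.inl i, rfl⟩
      exact isAlgebraic_algebraMap
        (⟨_, hmem⟩ : Algebra.adjoin K (Set.range fun i => (lineGen K D i : RatFun D K)))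
  · have hcard : Fintype.card (D ⊕ D) = 2 * Fintype.card D := by
      rw [Fintype.card_sum]
      ring
    rw [← hcard, mr_eq_card_iff]
    intro a ha
    have h1 := congrArg (fun u : (RatFun D K)ˣ => (u : RatFun D K)) ha
    simp only [Units.coe_prod, Units.val_zpow_eq_zpow_val, Units.val_one] at h1
    have h2 := lin_independent (U := D) (T := D ⊕ D) (E := K) (Sum.elim id id)
      (Sum.elim (fun _ => 0) (fun _ => -1)) (by
        rintro (i | i) (j | j) hb hs
        · exact congrArg Sum.inl hb
        · simp at hs
        · simp at hs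
        · exact congrArg Sum.inr hb) a (∏ i : D, (-1 : Kˣ) ^ a (Sum.inr i)) (by
        rw [← h1, Fintype.prod_sum_type, Fintype.prod_sum_type]
        have e1 : ∀ i : D, (rvar K (Sum.elim id id (Sum.inl i : D ⊕ D)) +
            rcst D (Sum.elim (fun _ => (0 : K)) (fun _ => -1) (Sum.inl i : D ⊕ D))) =
            (lineGen K D (Sum.inl i) : RatFun D K) := by
          intro i
          rw [Sum.elim_inl, Sum.elim_inl, rcst, map_zero, map_zero, add_zero]
          rfl
        have e2 : ∀ i : D, (lineGen K D (Sum.inr i) : RatFun D K) ^ a (Sum.inr i) =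
            (-1) ^ a (Sum.inr i) * (rvar K (Sum.elim id id (Sum.inr i : D ⊕ D)) +
            rcst D (Sum.elim (fun _ => (0 : K)) (fun _ => -1) (Sum.inr i : D ⊕ D))) ^
              a (Sum.inr i) := by
          intro i
          rw [← mul_zpow]
          congr 1
          rw [Sum.elim_inr, Sum.elim_inr, neg_one_mul]
          exact line_one_sub_eq i
        rw [Finset.prod_congr rfl (fun i _ => e2 i), Finset.prod_mul_distrib]
        rw [Finset.prod_congr rfl (fun i _ => congrArg (fun w => w ^ a (Sum.inl i)) (e1 i))]
        have e3 : rcst D ((∏ i : D, (-1 : Kˣ) ^ a (Sum.inr i) : Kˣ) : K) =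
            ∏ i : D, (-1 : RatFun D K) ^ a (Sum.inr i) := by
          rw [Units.coe_prod, rcst, map_prod, map_prod]
          refine Finset.prod_congr rfl (fun i _ => ?_)
          rw [Units.val_zpow_eq_zpow_val]
          have e4 : ∀ w : K, algebraMap (MvPolynomial D K) (RatFun D K) (C w) =
              algebraMap K (RatFun D K) w := by
            intro w
            rw [IsScalarTower.algebraMap_apply K (MvPolynomial D K) (RatFun D K)]
            rfl
          rw [e4, map_zpow₀]
          simp
        rw [e3]
        ring)
    exact h2.1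

theorem line_irrClosed (K : Type) [Field K] [Infinite K] (D : Type) [Fintype D] :
    IrrClosed (lineProd K D) := by
  obtain ⟨γ, h, _, _⟩ := line_generic K D
  refine ⟨h ▸ locus_isPrime K γ, fun x hx i => ?_⟩
  have h1 := hx _ (X_add_X_sub_mem K D i)
  rw [map_sub, map_add, map_one, eval_X, eval_X] at h1
  exact sub_eq_zero.mp h1

/-- Points of `ℓ^D` over extension fields. -/
theorem line_le_locus {K L : Type} [Field K] [Infinite K] [Field L] [Algebra K L] {D : Type}
    [Fintype D] (τ : D ⊕ D → Lˣ) :
    vanIdeal (lineProd K D) ≤ locus K τ ↔ ∀ i, (τ (Sum.inl i) : L) + τ (Sum.inr i) = 1 := by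
  constructor
  · intro h i
    have h1 := mem_locus.mp (h (X_add_X_sub_mem K D i))
    rw [map_sub, map_add, map_one, aeval_X, aeval_X] at h1
    exact sub_eq_zero.mp h1
  · intro h f hf
    rw [lineSub_eq_zero_iff] at hf
    rw [mem_locus]
    have h1 := lineSub_aeval (fun i => (τ (Sum.inl i) : L)) f
    rw [hf, map_zero] at h1
    rw [show (fun i => (τ i : L)) = Sum.elim (fun i => (τ (Sum.inl i) : L))
      (fun i => 1 - (τ (Sum.inl i) : L)) from ?_]
    · exact h1.symm
    · funext i
      rcases i with i | i
      · rfl
      · rw [Sum.elim_inr, ← h i]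
        ring

end Pool.Agent.Lib.MP_a325a5_ag.UL
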