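import Pool.Agent.Lib.MP_a325a5_ag.UL.PtsDense
import Pool.Agent.Lib.MP_a325a5_ag.UL.Line

/-! Use of the hypothesis on `ℓ^D` for points over extension fields.

Paper proof.  Otherwise choose for each of the finitely many maximal atypical `Z` a polynomial
`f_Z ∈ vanIdeal Z` with `f_Z ∉ locus k τ`, and let `f` be their product, `f ∉ locus k τ` (prime).
`exists_torsion_point` gives `x` over `k` with `locus k τ ≤ locus k x`, `f(x) ≠ 0` and
`mr x + td k τ ≤ mr τ`, so `x ∈ ℓ^D` and `mr x < card D`.  By `smallRank_subset_HLatyp` and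
`line_generic` the point `x` lies on an atypical special subvariety of `ℓ^D`, so on a maximal one
(`exists_maxAtypical`), where `f` vanishes. -/

namespace Pool.Agent.Lib.MP_a325a5_ag.UL

open MvPolynomial

theorem step_S {k L : Type} [Field k] [IsAlgClosed k] [CharZero k] [Field L] [Algebra k L]
    {D : Type} [Fintype D] (hfin : (MaxAtypical (lineProd k D)).Finite) (τ : D ⊕ D → Lˣ)
    (h1 : ∀ e, (τ (Sum.inl e) : L) + τ (Sum.inr e) = 1)
    (h2 : mr τ < Fintype.card D + td k τ) :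
    ∃ Z ∈ MaxAtypical (lineProd k D), vanIdeal Z ≤ locus k τ := by
  by_contra hcon
  push Not at hcon
  have hex : ∀ Z ∈ MaxAtypical (lineProd k D), ∃ f ∈ vanIdeal Z, f ∉ locus k τ := by
    intro Z hZ
    exact SetLike.not_le_iff_exists.mp (hcon Z hZ)
  choose! F hF1 hF2 using hex
  set f : MvPolynomial (D ⊕ D) k := ∏ Z ∈ hfin.toFinset, F Z with hf
  have hfτ : f ∉ locus k τ := by
    intro h
    rw [hf] at h
    obtain ⟨Z, hZ, hZ'⟩ := Ideal.IsPrime.prod_mem_iff.mp h
    exact hF2 Z (hfin.mem_toFinset.mp hZ) hZ'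
  obtain ⟨x, hx1, hx2, hx3⟩ := exists_torsion_point τ f hfτ
  obtain ⟨γl, hγl, htd, hmr⟩ := line_generic k D
  have hlirr := line_irrClosed k D
  have hxl : x ∈ lineProd k D :=
    (mem_iff_le_locus hlirr x).mpr (((line_le_locus (K := k) τ).mpr h1).trans hx1)
  have hxH : x ∈ HLatyp (lineProd k D) :=
    smallRank_subset_HLatyp (lineProd k D) hlirr γl hγl ⟨hxl, by omega⟩
  obtain ⟨Z, hZ, hxZ⟩ := hxH
  obtain ⟨W, hW, hZW⟩ := exists_maxAtypical (lineProd k D) Z hZ
  apply hx2
  rw [mem_locus_self, hf, map_prod]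
  exact Finset.prod_eq_zero (hfin.mem_toFinset.mpr hW) (hF1 W hW x (hZW hxZ))

end Pool.Agent.Lib.MP_a325a5_ag.UL
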