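import Pool.Agent.Lib.MP_a325a5_ag.UL.Iso
import Pool.Agent.Lib.MP_a325a5_ag.UL.StepS
import Pool.Agent.Lib.MP_a325a5_ag.UL.Coeffs
import Pool.Agent.Lib.MP_a325a5_ag.UL.Sel
import Pool.Agent.Lib.MP_a325a5_ag.UL.Seed

/-! Finiteness for all `ℓ^D` over `k` implies Zilber-Pink for all subvarieties of tori over `K`.

Paper proof.  Let `γ` be a generic point of `X` with coordinates in `F ⊇ K ⊇ k`, and suppose that
`HLatyp X` is dense in `X`, so (`denseIn_iff`) the points `x ∈ X` of small rank are dense.
`exists_seed` gives constants `c` and `I`; put `y = (γ, c)_I`.  `exists_system` gives `S`.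
`generic_not_mem`: no maximal atypical `Z` in `ℓ^(S.D)` has `vanIdeal Z ≤ locus k (genConfig y).pt`;
choose `f_Z` in `vanIdeal Z`, not in this prime ideal, and let `G` be their product.
`exists_coeffs` gives `T` and, as `G` is not in the locus, some `h ∈ T` with `h(y) ≠ 0`.
Replace the variables of `h` in `I` by the corresponding variables of `X` or constants `c`: a
polynomial over `K` not vanishing at `γ`; by density there is `x ∈ X` of small rank with
`h((x, c)_I) ≠ 0`.  Put `y_x = (x, c)_I`.  The relations of `S` hold at `y_x` (they hold at `y`,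
and `rel` is a polynomial expression; `locus K γ ≤ locus K x`).  So `G` does not vanish at
`τ = (genConfig y_x).pt`.  But `mr τ ≤ mr y_x + 3 card I + ∑ (m b + 1)` (`Config.mr_pt_le`,
`mr_genConfig_y`), `td k τ = td k y_x + card I + card S.B`, and the inequality of `exists_seed`
gives `mr τ < card S.D + td k τ`; by `step_S` some maximal atypical `Z` has
`vanIdeal Z ≤ locus k τ`, so `G` vanishes at `τ`: contradiction. -/

namespace Pool.Agent.Lib.MP_a325a5_ag.UL

open MvPolynomial

private theorem bwd_rel {J : Type} [Fintype J] (S : Sys J) {k : Type} [Field k] (b : S.B) :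
    ∃ P : MvPolynomial J k, ∀ (E : Type) [Field E] [Algebra k E] (y : J → Eˣ),
      aeval (fun i => (y i : E)) P = S.rel y b := by
  refine ⟨∑ l, C (((S.ε b l : ℤˣ) : ℤ) : k) * ∏ i, (X i : MvPolynomial J k) ^ S.α b l i, ?_⟩
  intro E _ _ y
  unfold Sys.rel Sys.term sgnUnit
  rw [map_sum]
  refine Finset.sum_congr rfl fun l _ => ?_
  rw [map_mul, map_prod]
  simp

theorem backward {k K : Type} [Field k] [IsAlgClosed k] [CharZero k] [Algebra.IsAlgebraic ℚ k]
    [Field K] [IsAlgClosed K] [CharZero K] [Algebra k K]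
    (hfin : ∀ (D : Type) [Fintype D], (MaxAtypical (lineProd k D)).Finite)
    (ι : Type) [Fintype ι] (X : Set (ι → Kˣ)) (hX : IrrClosed X) : ¬ DenseIn (HLatyp X) X := by
  classical
  intro hd
  obtain ⟨F, iF, iA, γ, hγ⟩ := exists_generic X hX
  let iAk : Algebra k F := ((algebraMap K F).comp (algebraMap k K)).toAlgebra
  have iT : IsScalarTower k K F := IsScalarTower.of_algebraMap_eq' rfl
  rw [denseIn_iff X hX γ hγ] at hd
  obtain ⟨e, c, I, hmr, hseed⟩ := exists_seed (k := k) (K := K) (F := F) γ
  set y : I → Fˣ := fun i : I => Sum.elim γ (fun j => cst K F (c j)) i with hy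
  obtain ⟨S, hrel, hdist, hcard, hiso⟩ := exists_system (k := k) y
  have hind : mr y = Fintype.card I := by
    rw [hmr, Fintype.card_coe]
  have hnot := generic_not_mem (k := k) S y hrel hind hdist hcard hiso
  have hch : ∀ Z ∈ MaxAtypical (lineProd k S.D), ∃ f ∈ vanIdeal Z,
      f ∉ locus k (genConfig S y hrel).pt := by
    intro Z hZ
    have := hnot Z hZ.1
    rw [SetLike.not_le_iff_exists] at this
    exact this
  choose! f hfZ hfn using hch
  have hfinD := hfin S.D
  set G : MvPolynomial (S.D ⊕ S.D) k := ∏ Z ∈ hfinD.toFinset, f Z with hG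
  have hGn : G ∉ locus k (genConfig S y hrel).pt := by
    rw [hG, Ideal.IsPrime.prod_mem_iff]
    rintro ⟨Z, hZ, hZf⟩
    exact hfn Z (hfinD.mem_toFinset.mp hZ) hZf
  obtain ⟨T, hT⟩ := exists_coeffs S G
  obtain ⟨h, hhT, hh⟩ := (hT F y hrel).mp hGn
  -- substitution
  let sub : MvPolynomial I k →ₐ[k] MvPolynomial ι K :=
    aeval (fun i : I => Sum.elim (fun a => (MvPolynomial.X a : MvPolynomial ι K)) (fun j => C (c j : K)) (i : ι ⊕ Fin e))
  have hsubγ : ∀ g : MvPolynomial I k, aeval (fun i => (γ i : F)) (sub g) =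
      aeval (fun i => (y i : F)) g := by
    intro g
    have : ((aeval (fun i => (γ i : F)) : MvPolynomial ι K →ₐ[K] F).restrictScalars k).comp sub =
        aeval (fun i => (y i : F)) := by
      apply MvPolynomial.algHom_ext
      rintro ⟨i, hi⟩
      rcases i with a | j
      · simp [sub, hy]
      · simp [sub, hy]
    exact congrArg (fun φ : MvPolynomial I k →ₐ[k] F => φ g) this
  have hsubx : ∀ (x : ι → Kˣ) (g : MvPolynomial I k), eval (fun i => (x i : K)) (sub g) =
      aeval (fun i : I => ((Sum.elim x c (i : ι ⊕ Fin e) : Kˣ) : K)) g := by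
    intro x g
    rw [← MvPolynomial.coe_aeval_eq_eval]
    have : ((aeval (fun i => (x i : K)) : MvPolynomial ι K →ₐ[K] K).restrictScalars k).comp sub =
        aeval (fun i : I => ((Sum.elim x c (i : ι ⊕ Fin e) : Kˣ) : K)) := by
      apply MvPolynomial.algHom_ext
      rintro ⟨i, hi⟩
      rcases i with a | j
      · simp [sub]
      · simp [sub]
    exact congrArg (fun φ : MvPolynomial I k →ₐ[k] K => φ g) this
  have hPn : sub h ∉ vanIdeal X := by
    rw [← hγ, mem_locus, hsubγ]
    exact hh
  have hPn2 : sub h ∉ vanIdeal {x | x ∈ X ∧ mr x + td K γ < mr γ} := fun h0 => hPn (hd h0)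
  rw [mem_vanIdeal] at hPn2
  push Not at hPn2
  obtain ⟨x, ⟨hxX, hxr⟩, hxh⟩ := hPn2
  have hloc : locus K γ ≤ locus K x := by
    rw [hγ]
    exact (mem_iff_le_locus hX x).mp hxX
  have hseedx := hseed x hloc hxr
  set yx : I → Kˣ := fun i : I => Sum.elim x c i with hyx
  have hspec : ∀ g : MvPolynomial I k, aeval (fun i => (y i : F)) g = 0 →
      aeval (fun i => (yx i : K)) g = 0 := by
    intro g hg
    rw [← hsubγ, ← mem_locus] at hg
    have := hloc hg
    rw [mem_locus_self, hsubx] at this
    exact this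
  have hrelx : ∀ b, S.rel yx b = 0 := by
    intro b
    obtain ⟨P, hP⟩ := bwd_rel S (k := k) b
    rw [← hP K yx]
    apply hspec
    rw [hP F y]
    exact hrel b
  have hGx : G ∉ locus k (genConfig S yx hrelx).pt := by
    rw [hT K yx hrelx]
    refine ⟨h, hhT, ?_⟩
    rw [← hsubx]
    exact hxh
  obtain ⟨Z, hZ, hZl⟩ := step_S hfinD (genConfig S yx hrelx).pt
    (fun e => (genConfig S yx hrelx).pt_add e) (by
      have h1 := (genConfig S yx hrelx).mr_pt_le
      rw [mr_genConfig_y] at h1
      have h2 := td_genConfig (k := k) S yx hrelx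
      have h3 := Sys.card_D S
      rw [← Fintype.card_coe] at hseedx
      omega)
  apply hGx
  rw [hG, Ideal.IsPrime.prod_mem_iff]
  exact ⟨Z, hfinD.mem_toFinset.mpr hZ, hZl (hfZ Z hZ)⟩

end Pool.Agent.Lib.MP_a325a5_ag.UL
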