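import Pool.Agent.Lib.MP_a325a5_ag.UL.Fwd
import Pool.Agent.Lib.MP_a325a5_ag.UL.Bwd

/-! Universality of the line: assembly. -/

namespace Pool.Agent.Lib.MP_a325a5_ag.UL

theorem isAlgebraic_rat : Algebra.IsAlgebraic ℚ (AlgebraicClosure ℚ) :=
  AlgebraicClosure.isAlgebraic ℚ

theorem universality :
    (∀ (ι : Type) [Fintype ι] (X : Set (ι → ℂˣ)), IrrClosed X → ¬ DenseIn (HLatyp X) X) ↔
      ∀ (D : Type) [Fintype D], (MaxAtypical (lineProd (AlgebraicClosure ℚ) D)).Finite := by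
  have := isAlgebraic_rat
  let _ : Algebra (AlgebraicClosure ℚ) ℂ :=
    (IsAlgClosed.lift (R := ℚ) (S := AlgebraicClosure ℚ) (M := ℂ)).toRingHom.toAlgebra
  constructor
  · intro h D _
    exact forward h D
  · intro h ι _ X hX
    exact backward h ι X hX

end Pool.Agent.Lib.MP_a325a5_ag.UL
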