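import Pool.Agent.Lib.MP_a325a5_ag.UL.Sys
import Pool.Agent.Lib.MP_a325a5_ag.UL.Lin

/-! Existence of the generic configuration over a point `y` satisfying all relations.

Over `RatFun (I ⊕ S.B) E`: `y_i` constant, `a_0 i = u_i`, `a_1 i = u_i + 1`,
`a_2 i = u_i + (1 + y_i)`, `s b k = u_b + part b k` (nonzero by `rvar_add_rcst_ne_zero`).  The
chain closes: for `k` not the last index `part (k + 1) = part k + term k`, and for the last one
`part k + term k = rel = 0 = part 0` (cyclic addition in `Fin (m b + 1)`). -/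

namespace Pool.Agent.Lib.MP_a325a5_ag.UL

open MvPolynomial

variable {I : Type} [Fintype I] (S : Sys I)

private theorem genA_part_succ {E : Type} [Field E] (y : I → Eˣ) (hy : ∀ b, S.rel y b = 0)
    (b : S.B) (k : Fin (S.m b + 1)) :
    S.part y b (k + 1) = S.part y b k + ((S.term y b k : Eˣ) : E) := by
  classical
  by_cases hk : k = Fin.last (S.m b)
  · subst hk
    rw [Fin.last_add_one]
    have h0 : S.part y b 0 = 0 := by
      unfold Sys.part
      rw [Finset.filter_false_of_mem, Finset.sum_empty]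
      intro l _
      exact not_lt.mpr (Fin.zero_le l)
    have h1 := hy b
    unfold Sys.rel at h1
    rw [Fin.sum_univ_castSucc] at h1
    have h2 : S.part y b (Fin.last (S.m b)) =
        ∑ i : Fin (S.m b), ((S.term y b i.castSucc : Eˣ) : E) := by
      unfold Sys.part
      rw [Finset.sum_filter, Fin.sum_univ_castSucc, if_neg (lt_irrefl _), add_zero]
      refine Finset.sum_congr rfl fun i _ => ?_
      rw [if_pos (Fin.castSucc_lt_last i)]
    rw [h0, h2, h1]
  · have hlt : k < Fin.last (S.m b) := lt_of_le_of_ne (Fin.le_last k) hk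
    have hval : (k + 1).val = k.val + 1 := Fin.val_add_one_of_lt hlt
    have h3 : (Finset.univ.filter fun l => l < k + 1) =
        insert k (Finset.univ.filter fun l : Fin (S.m b + 1) => l < k) := by
      ext l
      simp only [Finset.mem_filter, Finset.mem_univ, true_and, Finset.mem_insert, Fin.lt_def,
        Fin.ext_iff, hval]
      omega
    unfold Sys.part
    rw [h3, Finset.sum_insert, add_comm]
    simp only [Finset.mem_filter, Finset.mem_univ, true_and, lt_irrefl, not_false_eq_true]

private theorem genA_rcst_add {U E : Type} [Field E] (a b : E) :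
    rcst U (a + b) = rcst U a + rcst U b := by
  unfold rcst
  rw [map_add, map_add]

private theorem genA_rcst_one {U E : Type} [Field E] : rcst U (1 : E) = 1 := by
  unfold rcst
  rw [map_one, map_one]

private theorem genA_rcst_zero {U E : Type} [Field E] : rcst U (0 : E) = 0 := by
  unfold rcst
  rw [map_zero, map_zero]

private theorem genA_rcst_ne {U E : Type} [Field E] (u : Eˣ) : rcst U (u : E) ≠ 0 := by
  have h : (rcst U (u : E)) * rcst U ((u⁻¹ : Eˣ) : E) = 1 := by
    unfold rcst
    rw [← map_mul, ← map_mul, Units.mul_inv, map_one, map_one]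
  exact left_ne_zero_of_mul_eq_one h

private theorem genA_term {E : Type} [Field E] (U : Type) (y : I → Eˣ) (b : S.B)
    (k : Fin (S.m b + 1)) (w : I → (RatFun U E)ˣ)
    (hw : ∀ i, ((w i : (RatFun U E)ˣ) : RatFun U E) = rcst U (y i : E)) :
    ((S.term w b k : (RatFun U E)ˣ) : RatFun U E) = rcst U ((S.term y b k : Eˣ) : E) := by
  unfold Sys.term sgnUnit
  rw [Units.val_mul, Units.val_mul, Units.coe_prod, Units.coe_prod]
  simp only [Units.val_pow_eq_pow_val, hw, Units.coe_map]
  unfold rcst
  rw [map_mul, map_mul, map_prod, map_prod]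
  simp only [map_pow]
  congr 1
  simp

theorem exists_genConfig {E : Type} [Field E] (y : I → Eˣ) (hy : ∀ b, S.rel y b = 0) :
    ∃ v : Config S (RatFun (I ⊕ S.B) E),
      (∀ i, (v.y i : RatFun (I ⊕ S.B) E) = rcst (I ⊕ S.B) (y i : E)) ∧
      (∀ i, (v.a 0 i : RatFun (I ⊕ S.B) E) = rvar E (Sum.inl i)) ∧
      (∀ b k, (v.s b k : RatFun (I ⊕ S.B) E) =
        rvar E (Sum.inr b) + rcst (I ⊕ S.B) (S.part y b k)) := by
  have hne0 : ∀ i : I, (rvar E (Sum.inl i) : RatFun (I ⊕ S.B) E) ≠ 0 := by
    intro i
    have h := rvar_add_rcst_ne_zero (E := E) (Sum.inl i : I ⊕ S.B) 0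
    rwa [genA_rcst_zero, add_zero] at h
  let yy : I → (RatFun (I ⊕ S.B) E)ˣ := fun i => Units.mk0 (rcst (I ⊕ S.B) (y i : E)) (genA_rcst_ne _)
  refine ⟨{ y := yy
            a := ![fun i => Units.mk0 (rvar E (Sum.inl i)) (hne0 i),
              fun i => Units.mk0 (rvar E (Sum.inl i) + rcst (I ⊕ S.B) 1)
                (rvar_add_rcst_ne_zero _ _),
              fun i => Units.mk0 (rvar E (Sum.inl i) + rcst (I ⊕ S.B) (1 + (y i : E)))
                (rvar_add_rcst_ne_zero _ _)]
            s := fun b k => Units.mk0 (rvar E (Sum.inr b) + rcst (I ⊕ S.B) (S.part y b k))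
                (rvar_add_rcst_ne_zero _ _)
            ha1 := ?_
            ha2 := ?_
            hs := ?_ }, ?_, ?_, ?_⟩
  · intro i
    simp only [Matrix.cons_val_one, Matrix.cons_val_zero, Units.val_mk0]
    rw [genA_rcst_one]
  · intro i
    simp only [Matrix.cons_val_one, Matrix.cons_val, Units.val_mk0, yy]
    rw [genA_rcst_add, add_assoc]
  · intro b k
    rw [Units.val_mk0, Units.val_mk0, genA_part_succ S y hy, genA_rcst_add,
      genA_term S (I ⊕ S.B) y b k yy (fun i => Units.val_mk0 (genA_rcst_ne _)), add_assoc]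
  · intro i
    exact Units.val_mk0 (genA_rcst_ne _)
  · intro i
    simp only [Matrix.cons_val_zero, Units.val_mk0]
  · intro b k
    exact Units.val_mk0 (rvar_add_rcst_ne_zero _ _)

/-- The generic configuration. -/
noncomputable def genConfig {E : Type} [Field E] (y : I → Eˣ) (hy : ∀ b, S.rel y b = 0) :
    Config S (RatFun (I ⊕ S.B) E) := (exists_genConfig S y hy).choose

theorem genConfig_y {E : Type} [Field E] (y : I → Eˣ) (hy : ∀ b, S.rel y b = 0) (i : I) :
    ((genConfig S y hy).y i : RatFun (I ⊕ S.B) E) = rcst (I ⊕ S.B) (y i : E) :=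
  (exists_genConfig S y hy).choose_spec.1 i

theorem genConfig_a0 {E : Type} [Field E] (y : I → Eˣ) (hy : ∀ b, S.rel y b = 0) (i : I) :
    ((genConfig S y hy).a 0 i : RatFun (I ⊕ S.B) E) = rvar E (Sum.inl i) :=
  (exists_genConfig S y hy).choose_spec.2.1 i

theorem genConfig_s {E : Type} [Field E] (y : I → Eˣ) (hy : ∀ b, S.rel y b = 0) (b : S.B)
    (k : Fin (S.m b + 1)) : ((genConfig S y hy).s b k : RatFun (I ⊕ S.B) E) =
      rvar E (Sum.inr b) + rcst (I ⊕ S.B) (S.part y b k) :=
  (exists_genConfig S y hy).choose_spec.2.2 b k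

end Pool.Agent.Lib.MP_a325a5_ag.UL
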