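import Pool.Agent.Lib.MP_a325a5_ag.UL.ConfMr
import Pool.Agent.Lib.MP_a325a5_ag.UL.GenA
import Pool.Agent.Lib.MP_a325a5_ag.UL.MRloc
import Pool.Agent.Lib.MP_a325a5_ag.UL.TDloc

/-! Rank and transcendence degree of the generic configuration.

Rank (`mr_eq_card_iff`, `Sys.card_V`): a relation `∏ y^(..) ∏ nodes^(..) = 1` gives trivial
exponents for the nodes (`lin_independent`, the nodes are `u_i + 0`, `u_i + 1`,
`u_i + (1 + y_i)`, `u_b + part b k`; `1 + y_i` is different from `0` and `1`, because `y_i` is not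
a root of unity) and then for `y`.  Transcendence degree: `Config.td_pt_le` and, for the lower
bound, `algebraicIndependent_rvar` applied to a transcendence basis of `y`, and `le_td` (the
variables `u` and the `y` are rational functions of `pt`). -/

namespace Pool.Agent.Lib.MP_a325a5_ag.UL

open MvPolynomial

/-- The constants as an algebra homomorphism. -/
private noncomputable def Gen_rho (k E U : Type) [Field k] [Field E] [Algebra k E] :
    E →ₐ[k] RatFun U E :=
  { toRingHom := (algebraMap (MvPolynomial U E) (RatFun U E)).comp C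
    commutes' := by
      intro r
      rw [IsScalarTower.algebraMap_apply k (MvPolynomial U E) (RatFun U E)]
      rfl }

private theorem Gen_rho_apply (k E U : Type) [Field k] [Field E] [Algebra k E] (c : E) :
    Gen_rho k E U c = rcst U c := rfl

private theorem Gen_rcst_inj {E U : Type} [Field E] {a b : E} (h : rcst U a = rcst U b) :
    a = b := (Gen_rho E E U).toRingHom.injective h

variable {I : Type} [Fintype I] (S : Sys I)

private theorem Gen_y_unit {E : Type} [Field E] (y : I → Eˣ) (hy : ∀ b, S.rel y b = 0) (i : I) :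
    (genConfig S y hy).y i = Units.map ((Gen_rho E E (I ⊕ S.B)).toRingHom : E →* _) (y i) := by
  apply Units.ext
  rw [genConfig_y]
  rfl

private theorem Gen_prod {E : Type} [Field E] (y : I → Eˣ) (hy : ∀ b, S.rel y b = 0)
    (a : I → ℤ) : ((∏ i, (genConfig S y hy).y i ^ a i : (RatFun (I ⊕ S.B) E)ˣ) :
      RatFun (I ⊕ S.B) E) = rcst (I ⊕ S.B) ((∏ i, y i ^ a i : Eˣ) : E) := by
  have h1 : ∏ i, (genConfig S y hy).y i ^ a i =
      Units.map ((Gen_rho E E (I ⊕ S.B)).toRingHom : E →* _) (∏ i, y i ^ a i) := by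
    rw [map_prod]
    apply Finset.prod_congr rfl
    intro i _
    rw [Gen_y_unit, map_zpow]
  rw [h1]
  rfl

theorem mr_genConfig_y {E : Type} [Field E] (y : I → Eˣ) (hy : ∀ b, S.rel y b = 0) :
    mr (genConfig S y hy).y = mr y := by
  apply mr_congr
  intro a
  constructor
  · intro h
    apply Units.ext
    rw [Gen_prod, h, Units.val_one]
    exact map_one (Gen_rho E E (I ⊕ S.B))
  · intro h
    apply Units.ext
    apply Gen_rcst_inj (U := I ⊕ S.B)
    rw [← Gen_prod S y hy a, h, Units.val_one, Units.val_one]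
    exact (map_one (Gen_rho E E (I ⊕ S.B))).symm

/-- The block of a node. -/
private def Gen_beta : (Fin 3 × I) ⊕ (Σ b : S.B, Fin (S.m b + 1)) → I ⊕ S.B
  | Sum.inl (_, i) => Sum.inl i
  | Sum.inr ⟨b, _⟩ => Sum.inr b

/-- The constant of a node. -/
private def Gen_sigma {E : Type} [Field E] (y : I → Eˣ) :
    (Fin 3 × I) ⊕ (Σ b : S.B, Fin (S.m b + 1)) → E
  | Sum.inl (j, i) => ![0, 1, 1 + (y i : E)] j
  | Sum.inr ⟨b, k⟩ => S.part y b k

private theorem Gen_node {E : Type} [Field E] (y : I → Eˣ) (hy : ∀ b, S.rel y b = 0)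
    (t : (Fin 3 × I) ⊕ (Σ b : S.B, Fin (S.m b + 1))) :
    rvar E (Gen_beta S t) + rcst (I ⊕ S.B) (Gen_sigma S y t) =
      ((match t with
        | Sum.inl (j, i) => (genConfig S y hy).a j i
        | Sum.inr ⟨b, k⟩ => (genConfig S y hy).s b k : (RatFun (I ⊕ S.B) E)ˣ) :
        RatFun (I ⊕ S.B) E) := by
  have h0 : rcst (I ⊕ S.B) (0 : E) = 0 := map_zero (Gen_rho E E (I ⊕ S.B))
  have h1 : rcst (I ⊕ S.B) (1 : E) = 1 := map_one (Gen_rho E E (I ⊕ S.B))
  have h2 : ∀ a b : E, rcst (I ⊕ S.B) (a + b) = rcst (I ⊕ S.B) a + rcst (I ⊕ S.B) b :=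
    fun a b => map_add (Gen_rho E E (I ⊕ S.B)) a b
  rcases t with ⟨j, i⟩ | ⟨b, k⟩
  · have e0 := genConfig_a0 S y hy i
    have e1 := (genConfig S y hy).ha1 i
    have e2 := (genConfig S y hy).ha2 i
    have e3 := genConfig_y S y hy i
    fin_cases j
    · change rvar E (Sum.inl i) + rcst (I ⊕ S.B) (0 : E) = ((genConfig S y hy).a 0 i : RatFun _ E)
      rw [h0, add_zero, e0]
    · change rvar E (Sum.inl i) + rcst (I ⊕ S.B) (1 : E) = ((genConfig S y hy).a 1 i : RatFun _ E)
      rw [h1, e1, e0]
    · change rvar E (Sum.inl i) + rcst (I ⊕ S.B) (1 + (y i : E)) =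
        ((genConfig S y hy).a 2 i : RatFun _ E)
      rw [e2, e1, e0, h2, h1, e3, add_assoc]
  · change rvar E (Sum.inr b) + rcst (I ⊕ S.B) (S.part y b k) =
      ((genConfig S y hy).s b k : RatFun _ E)
    rw [genConfig_s]

theorem mr_genConfig {E : Type} [Field E] (y : I → Eˣ) (hy : ∀ b, S.rel y b = 0)
    (hind : mr y = Fintype.card I) (hdist : ∀ b k l, S.part y b k = S.part y b l → k = l) :
    mr (genConfig S y hy).all = 4 * Fintype.card I + ∑ b : S.B, (S.m b + 1) := by
  rw [← S.card_V, mr_eq_card_iff]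
  intro e he
  have hyind := (mr_eq_card_iff y).mp hind
  set v := genConfig S y hy with hv
  -- the exponents of the nodes
  let e' : (Fin 3 × I) ⊕ (Σ b : S.B, Fin (S.m b + 1)) → ℤ := fun t =>
    match t with
    | Sum.inl t => e (Sum.inl (Sum.inr t))
    | Sum.inr t => e (Sum.inr t)
  have hinj : ∀ i j, Gen_beta S i = Gen_beta S j → Gen_sigma S y i = Gen_sigma S y j → i = j := by
    intro t t' h1 h2
    rcases t with ⟨j, i⟩ | ⟨b, k⟩ <;> rcases t' with ⟨j', i'⟩ | ⟨b', k'⟩
    · have hi : i = i' := Sum.inl.inj h1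
      subst hi
      have hy0 : (y i : E) ≠ 0 := (y i).ne_zero
      have hy1 : (1 + (y i : E)) ≠ 0 := by
        intro hcon
        have h3 : (y i) ^ (2 : ℤ) = 1 := by
          apply Units.ext
          have h4 : (y i : E) = -1 := by linear_combination hcon
          rw [zpow_ofNat, Units.val_pow_eq_pow_val, h4]
          simp
        have h5 := hyind (fun l => by classical exact if l = i then 2 else 0) (by
          classical
          rw [Finset.prod_eq_single i]
          · simpa using h3
          · intro l _ hl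
            simp [hl]
          · simp)
        have h6 := congrFun h5 i
        simp at h6
      have h3 : ![0, 1, 1 + (y i : E)] j = ![0, 1, 1 + (y i : E)] j' := h2
      have : j = j' := by
        fin_cases j <;> fin_cases j' <;> simp at h3 ⊢
        · exact hy1 h3.symm
        · exact hy1 h3
      rw [this]
    · exact absurd h1 (by simp [Gen_beta])
    · exact absurd h1 (by simp [Gen_beta])
    · have hb : b = b' := Sum.inr.inj h1
      subst hb
      rw [hdist b k k' h2]
  have hprod : rcst (I ⊕ S.B) ((∏ i, y i ^ e (Sum.inl (Sum.inl i)) : Eˣ) : E) *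
      ∏ t, (rvar E (Gen_beta S t) + rcst (I ⊕ S.B) (Gen_sigma S y t)) ^ e' t = 1 := by
    rw [← Gen_prod S y hy]
    have h1 := congrArg (fun w : (RatFun (I ⊕ S.B) E)ˣ => (w : RatFun (I ⊕ S.B) E)) he
    simp only [Units.val_one] at h1
    rw [← h1, Fintype.prod_sum_type, Fintype.prod_sum_type, Fintype.prod_sum_type, Units.val_mul,
      Units.val_mul, mul_assoc]
    congr 1
    congr 1
    · rw [Units.coe_prod]
      apply Finset.prod_congr rfl
      intro t _
      have h2 := Gen_node S y hy (Sum.inl t)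
      rw [h2, Units.val_zpow_eq_zpow_val]
      rfl
    · rw [Units.coe_prod]
      apply Finset.prod_congr rfl
      intro t _
      have h2 := Gen_node S y hy (Sum.inr t)
      rw [h2, Units.val_zpow_eq_zpow_val]
      rfl
  obtain ⟨h1, h2⟩ := lin_independent (Gen_beta S) (Gen_sigma S y) hinj e'
    (∏ i, y i ^ e (Sum.inl (Sum.inl i))) hprod
  have h3 := hyind _ h2
  funext t
  rcases t with (i | t) | t
  · exact congrFun h3 i
  · exact congrFun h1 (Sum.inl t)
  · exact congrFun h1 (Sum.inr t)

theorem locus_genConfig_y {k E : Type} [Field k] [Field E] [Algebra k E] (y : I → Eˣ)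
    (hy : ∀ b, S.rel y b = 0) : locus k (genConfig S y hy).y = locus k y := by
  ext f
  rw [mem_locus, mem_locus]
  have h1 : (fun i => (((genConfig S y hy).y i : (RatFun (I ⊕ S.B) E)ˣ) : RatFun (I ⊕ S.B) E)) =
      fun i => Gen_rho k E (I ⊕ S.B) (y i : E) := by
    funext i
    exact genConfig_y S y hy i
  have h2 : aeval (fun i => Gen_rho k E (I ⊕ S.B) (y i : E)) f =
      Gen_rho k E (I ⊕ S.B) (aeval (fun i => (y i : E)) f) := by
    rw [← AlgHom.comp_apply]
    congr 1
    ext i
    simp
  rw [h1, h2]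
  exact map_eq_zero_iff _ (Gen_rho k E (I ⊕ S.B)).toRingHom.injective

theorem td_genConfig {k E : Type} [Field k] [Field E] [Algebra k E] (y : I → Eˣ)
    (hy : ∀ b, S.rel y b = 0) :
    td k (genConfig S y hy).pt = td k y + Fintype.card I + Fintype.card S.B := by
  apply le_antisymm
  · have h1 := (genConfig S y hy).td_pt_le (K := k)
    rw [td_congr y (genConfig S y hy).y (locus_genConfig_y S y hy)] at h1
    exact h1
  · obtain ⟨J, hJ, hJc, -⟩ := td_spec (K := k) y
    have hind := algebraicIndependent_rvar (U := I ⊕ S.B) (k := k)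
      (fun j : J => ((y j : Eˣ) : E)) hJ
    have hle := le_td (K := k) (genConfig S y hy).pt _ hind ?_
    · rw [Fintype.card_sum, Fintype.card_coe, Fintype.card_sum, hJc] at hle
      omega
    · set v := genConfig S y hy with hv
      set A := Algebra.adjoin k (Set.range fun i => ((v.pt i : (RatFun (I ⊕ S.B) E)ˣ) :
        RatFun (I ⊕ S.B) E)) with hA
      have hpt : ∀ i, IsAlgebraic A ((v.pt i : (RatFun (I ⊕ S.B) E)ˣ) : RatFun (I ⊕ S.B) E) := by
        intro i
        exact isAlgebraic_algebraMap (⟨_, Algebra.subset_adjoin ⟨i, rfl⟩⟩ : A)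
      have ha1 : ∀ i, IsAlgebraic A ((v.a 1 i : (RatFun (I ⊕ S.B) E)ˣ) :
          RatFun (I ⊕ S.B) E) := by
        intro i
        have h1 := (hpt (Sum.inr (Sum.inl (Sum.inl i)))).inv
        have h2 : ((v.pt (Sum.inr (Sum.inl (Sum.inl i))) : (RatFun (I ⊕ S.B) E)ˣ) :
          RatFun (I ⊕ S.B) E)⁻¹ = v.a 1 i := by
          simp [Config.pt]
        rwa [h2] at h1
      have ha0 : ∀ i, IsAlgebraic A ((v.a 0 i : (RatFun (I ⊕ S.B) E)ˣ) :
          RatFun (I ⊕ S.B) E) := by
        intro i
        have h1 := (hpt (Sum.inl (Sum.inl (Sum.inl i)))).mul (ha1 i)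
        have h2 : ((v.pt (Sum.inl (Sum.inl (Sum.inl i))) : (RatFun (I ⊕ S.B) E)ˣ) :
          RatFun (I ⊕ S.B) E) * v.a 1 i = v.a 0 i := by
          simp [Config.pt]
        rwa [h2] at h1
      have ha2 : ∀ i, IsAlgebraic A ((v.a 2 i : (RatFun (I ⊕ S.B) E)ˣ) :
          RatFun (I ⊕ S.B) E) := by
        intro i
        have h1 := (hpt (Sum.inl (Sum.inl (Sum.inr i)))).inv.mul (ha1 i)
        have h2 : ((v.pt (Sum.inl (Sum.inl (Sum.inr i))) : (RatFun (I ⊕ S.B) E)ˣ) :
          RatFun (I ⊕ S.B) E)⁻¹ * v.a 1 i = v.a 2 i := by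
          simp [Config.pt]
        rwa [h2] at h1
      have hyy : ∀ i, IsAlgebraic A ((v.y i : (RatFun (I ⊕ S.B) E)ˣ) :
          RatFun (I ⊕ S.B) E) := by
        intro i
        have h1 := (hpt (Sum.inr (Sum.inl (Sum.inr i)))).mul (ha2 i)
        have h2 : ((v.pt (Sum.inr (Sum.inl (Sum.inr i))) : (RatFun (I ⊕ S.B) E)ˣ) :
          RatFun (I ⊕ S.B) E) * v.a 2 i = v.y i := by
          simp [Config.pt]
        rwa [h2] at h1
      have hterm : ∀ b k, IsAlgebraic A ((S.term v.y b k : (RatFun (I ⊕ S.B) E)ˣ) :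
          RatFun (I ⊕ S.B) E) := by
        intro b k
        have h1 : ((S.term v.y b k : (RatFun (I ⊕ S.B) E)ˣ) : RatFun (I ⊕ S.B) E) =
            ((S.ε b k : ℤ) : RatFun (I ⊕ S.B) E) *
              ∏ i, ((v.y i : (RatFun (I ⊕ S.B) E)ˣ) : RatFun (I ⊕ S.B) E) ^ S.α b k i := by
          rw [Sys.term, Units.val_mul, Units.coe_prod]
          simp [sgnUnit]
        rw [h1]
        refine IsAlgebraic.mul ?_ ?_
        · have := isAlgebraic_algebraMap (R := A) (A := RatFun (I ⊕ S.B) E)
            ((S.ε b k : ℤ) : A)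
          simpa using this
        · classical
          induction (Finset.univ : Finset I) using Finset.induction_on with
          | empty =>
            simpa using isAlgebraic_one (R := A) (A := RatFun (I ⊕ S.B) E)
          | insert a s ha ih =>
            rw [Finset.prod_insert ha]
            exact ((hyy a).pow _).mul ih
      rintro (j | i | b)
      · have h1 := hyy (j : I)
        rw [hv, genConfig_y] at h1
        exact h1
      · have h1 := ha0 i
        rw [hv, genConfig_a0] at h1
        exact h1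
      · have h1 := (hpt (Sum.inr (Sum.inr ⟨b, Fin.last _⟩))).inv.mul (hterm b (Fin.last _))
        have h2 : ((v.pt (Sum.inr (Sum.inr ⟨b, Fin.last _⟩)) : (RatFun (I ⊕ S.B) E)ˣ) :
            RatFun (I ⊕ S.B) E)⁻¹ * S.term v.y b (Fin.last _) = v.s b 0 := by
          simp [Config.pt]
        rw [h2, hv, genConfig_s] at h1
        have h3 : S.part y b 0 = 0 := by
          rw [Sys.part]
          apply Finset.sum_eq_zero
          intro l hl
          simp at hl
        rw [h3] at h1
        have h0 : rcst (I ⊕ S.B) (0 : E) = 0 := map_zero (Gen_rho E E (I ⊕ S.B))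
        rw [h0, add_zero] at h1
        exact h1

end Pool.Agent.Lib.MP_a325a5_ag.UL
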