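import Pool.Agent.Lib.MP_a325a5_ag.UL.DimA

/-! The dimension theorem: `c` equations lower the dimension by at most `c`.

Paper proof.  Induction on `c`: let `P` be minimal over `(a_1..a_c)`; choose a minimal prime
`Q ≤ P` over `(a_1..a_(c-1))` (`Ideal.exists_minimalPrimes_le`); then `P/Q` is minimal over
`(a_c)` in the domain `R/Q`. -/

namespace Pool.Agent.Lib.MP_a325a5_ag.UL

open MvPolynomial

theorem indep_mk_bot {K R : Type} [Field K] [CommRing R] [Algebra K R] {κ : Type}
    (y : κ → R) (hy : AlgebraicIndependent K y) :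
    AlgebraicIndependent K (fun i => Ideal.Quotient.mk (⊥ : Ideal R) (y i)) := by
  have hinj : Function.Injective (Ideal.Quotient.mkₐ K (⊥ : Ideal R)) := by
    rw [injective_iff_map_eq_zero]
    intro x hx
    have : x ∈ (⊥ : Ideal R) := Ideal.Quotient.eq_zero_iff_mem.mp hx
    simpa using this
  have h := AlgebraicIndependent.map' hy hinj
  exact h

theorem exists_indep_of_mem_minimalPrimes {K R : Type} [Field K] [CommRing R]
    [IsDomain R] [Algebra K R] [Algebra.FiniteType K R] {s c : ℕ} (y : Fin (s + c) → R)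
    (hy : AlgebraicIndependent K y) (a : Fin c → R) (P : Ideal R)
    (hP : P ∈ (Ideal.span (Set.range a)).minimalPrimes) :
    ∃ z : Fin s → R, AlgebraicIndependent K (fun i => Ideal.Quotient.mk P (z i)) := by
  induction c generalizing s P with
  | zero =>
    have hb : P = ⊥ := by
      have h1 : P ≤ ⊥ := hP.2 ⟨Ideal.isPrime_bot, by simp⟩ bot_le
      exact le_bot_iff.mp h1
    subst hb
    refine ⟨fun i => y (Fin.cast (Nat.add_zero s).symm i), ?_⟩
    have hy' : AlgebraicIndependent K (fun i : Fin s => y (Fin.cast (Nat.add_zero s).symm i)) :=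
      hy.comp _ (Fin.cast_injective _)
    exact indep_mk_bot _ hy'
  | succ c ih =>
    have hPp : P.IsPrime := hP.1.1
    have hle : Ideal.span (Set.range (fun i : Fin c => a i.castSucc)) ≤ P := by
      refine le_trans (Ideal.span_mono ?_) hP.1.2
      rintro _ ⟨i, rfl⟩
      exact ⟨i.castSucc, rfl⟩
    obtain ⟨Q, hQ, hQP⟩ := Ideal.exists_minimalPrimes_le hle
    have hQp : Q.IsPrime := hQ.1.1
    have hidx : s + 1 + c = s + (c + 1) := by omega
    obtain ⟨z, hz⟩ := ih (s := s + 1) (fun i => y (Fin.cast hidx i))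
      (hy.comp _ (Fin.cast_injective hidx)) (fun i : Fin c => a i.castSucc) Q hQ
    have hmin : P ∈ (Ideal.span {a (Fin.last c)} ⊔ Q).minimalPrimes := by
      refine ⟨⟨hPp, sup_le ?_ hQP⟩, ?_⟩
      · rw [Ideal.span_singleton_le_iff_mem]
        exact hP.1.2 (Ideal.subset_span ⟨_, rfl⟩)
      · rintro J ⟨hJ, hJle⟩ hJP
        refine hP.2 ⟨hJ, ?_⟩ hJP
        rw [Ideal.span_le]
        rintro _ ⟨i, rfl⟩
        refine Fin.lastCases ?_ (fun j => ?_) i
        · exact hJle (Ideal.mem_sup_left (Ideal.mem_span_singleton_self _))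
        · exact hJle (Ideal.mem_sup_right (hQ.1.2 (Ideal.subset_span ⟨j, rfl⟩)))
    have hP' : P.map (Ideal.Quotient.mk Q) ∈
        (Ideal.span {Ideal.Quotient.mk Q (a (Fin.last c))}).minimalPrimes := by
      have h1 := Ideal.minimalPrimes_map_of_surjective
        (Ideal.Quotient.mk_surjective (I := Q)) (Ideal.span {a (Fin.last c)})
      rw [Ideal.map_span, Set.image_singleton, Ideal.mk_ker] at h1
      rw [h1]
      exact ⟨P, hmin, rfl⟩
    obtain ⟨w, hw⟩ := exists_indep_of_mem_minimalPrimes_singleton (K := K) (R := R ⧸ Q)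
      (fun i => Ideal.Quotient.mk Q (z i)) hz (Ideal.Quotient.mk Q (a (Fin.last c)))
      (P.map (Ideal.Quotient.mk Q)) hP'
    have hsur : ∀ i, ∃ x : R, Ideal.Quotient.mk Q x = w i := fun i =>
      Ideal.Quotient.mk_surjective (w i)
    choose x hx using hsur
    refine ⟨x, ?_⟩
    have hker : ∀ b : R, b ∈ P → ((Ideal.Quotient.mkₐ K (P.map (Ideal.Quotient.mk Q))).comp
        (Ideal.Quotient.mkₐ K Q)) b = 0 := by
      intro b hb
      exact Ideal.Quotient.eq_zero_iff_mem.mpr (Ideal.mem_map_of_mem _ hb)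
    refine AlgebraicIndependent.of_comp (Ideal.Quotient.liftₐ P
      ((Ideal.Quotient.mkₐ K (P.map (Ideal.Quotient.mk Q))).comp
        (Ideal.Quotient.mkₐ K Q)) hker) ?_
    have hfun : (fun i => Ideal.Quotient.mk (P.map (Ideal.Quotient.mk Q)) (w i)) =
        (Ideal.Quotient.liftₐ P ((Ideal.Quotient.mkₐ K (P.map (Ideal.Quotient.mk Q))).comp
        (Ideal.Quotient.mkₐ K Q)) hker) ∘ (fun i => Ideal.Quotient.mk P (x i)) := by
      funext i
      rw [← hx i]
      rfl
    rw [← hfun]
    exact hw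

end Pool.Agent.Lib.MP_a325a5_ag.UL
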