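import Pool.Agent.Lib.MP_a325a5_ag.UL.MRloc
import Pool.Agent.Lib.MP_a325a5_ag.UL.TDloc

/-! The kernel of a specialisation of multiplicative groups.

Paper proof.  Let `Γ` be the group generated by the `γ i`, `N` the kernel of `Γ → ⟨τ⟩`,
`γ i ↦ τ i` (well defined by `monomial_spec_one`).  `N` has rank `mr γ - mr τ`, it is finitely
generated, and torsion free: a torsion element of `Γ` is a root of unity of `L₁`, so a constant
`ζ ∈ K` (`exists_cst_of_isOfFinOrder`), and it specialises to `ζ` (`monomial_spec`), so `ζ = 1`.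
Hence `N` is free; take exponent vectors of a basis. -/

namespace Pool.Agent.Lib.MP_a325a5_ag.UL

open MvPolynomial

/-- the monomial map -/
private noncomputable def monMap {L : Type} [Field L] {ι : Type} [Fintype ι] (p : ι → Lˣ) :
    (ι → ℤ) →ₗ[ℤ] Additive Lˣ :=
  Fintype.linearCombination ℤ (fun i => Additive.ofMul (p i))

private theorem monMap_apply {L : Type} [Field L] {ι : Type} [Fintype ι] (p : ι → Lˣ)
    (a : ι → ℤ) : monMap p a = Additive.ofMul (∏ i, p i ^ a i) := by
  unfold monMap
  rw [Fintype.linearCombination_apply, ofMul_prod]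
  exact Finset.sum_congr rfl fun i _ => (ofMul_zpow _ _).symm

private theorem monMap_range {L : Type} [Field L] {ι : Type} [Fintype ι] (p : ι → Lˣ) :
    Module.finrank ℤ (LinearMap.range (monMap p)) = mr p := by
  unfold monMap mr
  rw [Fintype.range_linearCombination]

private theorem rank_nullity_gen {R M M' : Type} [CommRing R] [IsDomain R] [AddCommGroup M]
    [Module R M] [AddCommGroup M'] [Module R M'] [Module.Finite R M] (f : M →ₗ[R] M') :
    Module.finrank R (LinearMap.range f) + Module.finrank R (LinearMap.ker f) =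
      Module.finrank R M := by
  have h1 := Submodule.finrank_quotient_add_finrank (R := R) (LinearMap.ker f)
  have h2 := LinearEquiv.finrank_eq f.quotKerEquivRange
  omega

/-- A basis of the group of all monomials in `γ` that specialise to `1`. -/
theorem exists_kernel_basis {K L L₁ : Type} [Field K] [IsAlgClosed K] [Field L] [Algebra K L]
    [Field L₁] [Algebra K L₁] {ι : Type} [Fintype ι] (γ : ι → L₁ˣ) (τ : ι → Lˣ)
    (hspec : locus K γ ≤ locus K τ) :
    ∃ (g : ℕ) (h : Fin g → (ι → ℤ)), g + mr τ = mr γ ∧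
      (∀ j, ∏ i, τ i ^ h j i = 1) ∧
      ∀ a : ι → ℤ, ∏ i, τ i ^ a i = 1 → ∃ n : Fin g → ℤ,
        ∏ i, γ i ^ a i = ∏ j, (∏ i, γ i ^ h j i) ^ n j := by
  classical
  set A := monMap γ with hA
  set B := monMap τ with hB
  have memB : ∀ a : ι → ℤ, a ∈ LinearMap.ker B ↔ ∏ i, τ i ^ a i = 1 := by
    intro a
    rw [LinearMap.mem_ker, hB, monMap_apply]
    exact ofMul_eq_zero
  have memA : ∀ a : ι → ℤ, a ∈ LinearMap.ker A ↔ ∏ i, γ i ^ a i = 1 := by
    intro a
    rw [LinearMap.mem_ker, hA, monMap_apply]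
    exact ofMul_eq_zero
  have hle : LinearMap.ker A ≤ LinearMap.ker B := by
    intro a ha
    rw [memB]
    exact monomial_spec_one τ γ hspec a ((memA a).mp ha)
  set N : Submodule ℤ (Additive L₁ˣ) := LinearMap.range (A.domRestrict (LinearMap.ker B)) with hN
  have hNmem : ∀ z : N, ∃ a : ι → ℤ, a ∈ LinearMap.ker B ∧ A a = z.1 := by
    intro z
    obtain ⟨a, ha⟩ := z.2
    exact ⟨a.1, a.2, ha⟩
  have hfin : Module.Finite ℤ N := by
    rw [hN]
    infer_instance
  have htf : Module.IsTorsionFree ℤ N := by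
    refine Module.IsTorsionFree.of_smul_eq_zero fun r z hz => ?_
    by_cases hr : r = 0
    · exact Or.inl hr
    right
    obtain ⟨a, ha, hval⟩ := hNmem z
    have h1 : (∏ i, γ i ^ a i) ^ r = 1 := by
      have h2 := congrArg (fun w : N => (w : Additive L₁ˣ)) hz
      simp only [Submodule.coe_smul, Submodule.coe_zero] at h2
      rw [← hval, hA, monMap_apply, ← ofMul_zpow] at h2
      exact ofMul_eq_zero.mp h2
    have h3 : IsOfFinOrder (∏ i, γ i ^ a i) := isOfFinOrder_iff_zpow_eq_one.mpr ⟨r, hr, h1⟩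
    obtain ⟨ζ, _, hζ2⟩ := exists_cst_of_isOfFinOrder (K := K) _ h3
    have h4 := monomial_spec τ γ hspec a ζ hζ2.symm
    rw [(memB a).mp ha] at h4
    have h5 : ζ = 1 := cst_injective (K := K) (L := L) (by rw [← h4, map_one])
    apply Subtype.ext
    rw [← hval, hA, monMap_apply, ← hζ2, h5, map_one]
    rfl
  have hfree : Module.Free ℤ N := Module.free_of_finite_type_torsion_free'
  have r1 := rank_nullity_gen A
  have r2 := rank_nullity_gen B
  have r3 := rank_nullity_gen (A.domRestrict (LinearMap.ker B))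
  have r4 : Module.finrank ℤ (LinearMap.ker (A.domRestrict (LinearMap.ker B))) =
      Module.finrank ℤ (LinearMap.ker A) := by
    have h1 : LinearMap.ker (A.domRestrict (LinearMap.ker B)) =
        (LinearMap.ker A).comap (LinearMap.ker B).subtype := by
      ext x
      rfl
    rw [h1]
    exact LinearEquiv.finrank_eq (Submodule.comapSubtypeEquivOfLe hle)
  rw [hA, monMap_range] at r1
  rw [hB, monMap_range] at r2
  rw [← hA] at r1
  rw [← hB] at r2
  let bas := Module.finBasis ℤ N
  choose h hker hval using fun j => hNmem (bas j)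
  refine ⟨Module.finrank ℤ N, h, ?_, fun j => (memB _).mp (hker j), fun a ha => ?_⟩
  · rw [r4] at r3
    change Module.finrank ℤ N + _ = _ at r3
    omega
  · have h1 : A a ∈ N := ⟨⟨a, (memB a).mpr ha⟩, rfl⟩
    have h2 := bas.sum_repr ⟨A a, h1⟩
    refine ⟨fun j => bas.repr ⟨A a, h1⟩ j, ?_⟩
    have h3 := congrArg (fun z : N => (z : Additive L₁ˣ)) h2
    simp only [Submodule.coe_sum, Submodule.coe_smul] at h3
    have h4 : ∀ j, ((bas j : N) : Additive L₁ˣ) = Additive.ofMul (∏ i, γ i ^ h j i) := by
      intro j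
      rw [← hval j, hA, monMap_apply]
    have h6 : A a = Additive.ofMul (∏ i, γ i ^ a i) := by rw [hA, monMap_apply]
    have h7 := h3.trans h6
    apply Additive.ofMul.injective
    rw [← h7, ofMul_prod]
    refine Finset.sum_congr rfl fun j _ => ?_
    rw [h4 j, ofMul_zpow]

end Pool.Agent.Lib.MP_a325a5_ag.UL
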