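import Pool.Agent.Lib.MP_a325a5_ag.UL.Sys
import Pool.Agent.Lib.MP_a325a5_ag.UL.MR
import Pool.Agent.Lib.MP_a325a5_ag.UL.TD

/-! Rank and transcendence degree of a configuration.

Rank (`mr_le_of_pow_mem` in both directions): up to signs (exponent 2) the coordinates of `pt` are
monomials in `all`, and conversely `a_1 = 1 / pt`, `a_0 = pt a_1`, `a_2 = a_1 / pt`,
`y = pt a_2`, `s_(k+1) = term_k / pt`.  Transcendence degree: the coordinates of `pt` are rational
functions of `y`, `a 0` and `s b 0` (`s b k = s b 0 + part`), and conversely. -/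

namespace Pool.Agent.Lib.MP_a325a5_ag.UL

open MvPolynomial

variable {I : Type} [Fintype I] {S : Sys I} {L : Type} [Field L]

private theorem cm_sgn_sq (ε : ℤˣ) : sgnUnit L ε ^ 2 = 1 := by
  unfold sgnUnit
  rw [← map_pow]
  have : ε ^ 2 = 1 := Int.units_sq ε
  rw [this, map_one]

private theorem cm_term_sq_mem (v : Config S L) (b : S.B) (k : Fin (S.m b + 1))
    (H : Subgroup Lˣ) (hy : ∀ i, v.y i ∈ H) : S.term v.y b k ^ 2 ∈ H := by
  unfold Sys.term
  rw [mul_pow, cm_sgn_sq, one_mul]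
  exact pow_mem (Subgroup.prod_mem _ fun i _ => pow_mem (hy i) _) 2

theorem Config.mr_pt (v : Config S L) : mr v.pt = mr v.all := by
  apply le_antisymm
  · apply mr_le_of_pow_mem
    intro j
    refine ⟨2, by norm_num, ?_⟩
    have hy : ∀ i, v.y i ∈ Subgroup.closure (Set.range v.all) := fun i =>
      Subgroup.subset_closure ⟨Sum.inl (Sum.inl i), rfl⟩
    have ha : ∀ j i, v.a j i ∈ Subgroup.closure (Set.range v.all) := fun j i =>
      Subgroup.subset_closure ⟨Sum.inl (Sum.inr (j, i)), rfl⟩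
    have hs : ∀ b k, v.s b k ∈ Subgroup.closure (Set.range v.all) := fun b k =>
      Subgroup.subset_closure ⟨Sum.inr ⟨b, k⟩, rfl⟩
    rcases j with (((i | i) | ⟨b, k⟩) | ((i | i) | ⟨b, k⟩))
    · exact pow_mem (div_mem (ha 0 i) (ha 1 i)) 2
    · exact pow_mem (div_mem (ha 1 i) (ha 2 i)) 2
    · exact pow_mem (div_mem (hs b k) (hs b (k + 1))) 2
    · exact pow_mem (div_mem (one_mem _) (ha 1 i)) 2
    · exact pow_mem (div_mem (hy i) (ha 2 i)) 2
    · change (S.term v.y b k / v.s b (k + 1)) ^ 2 ∈ _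
      rw [div_pow]
      exact div_mem (cm_term_sq_mem v b k _ hy) (pow_mem (hs b (k + 1)) 2)
  · apply mr_le_of_pow_mem
    intro j
    refine ⟨2, by norm_num, ?_⟩
    have h1 : ∀ i, v.a 1 i ∈ Subgroup.closure (Set.range v.pt) := by
      intro i
      have h : v.pt (Sum.inr (Sum.inl (Sum.inl i))) ∈ Subgroup.closure (Set.range v.pt) :=
        Subgroup.subset_closure ⟨_, rfl⟩
      have e : v.a 1 i = (v.pt (Sum.inr (Sum.inl (Sum.inl i))))⁻¹ := by
        change v.a 1 i = (1 / v.a 1 i)⁻¹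
        rw [one_div, inv_inv]
      rw [e]
      exact inv_mem h
    have h0 : ∀ i, v.a 0 i ∈ Subgroup.closure (Set.range v.pt) := by
      intro i
      have h : v.pt (Sum.inl (Sum.inl (Sum.inl i))) ∈ Subgroup.closure (Set.range v.pt) :=
        Subgroup.subset_closure ⟨_, rfl⟩
      have e : v.a 0 i = v.pt (Sum.inl (Sum.inl (Sum.inl i))) * v.a 1 i := by
        change v.a 0 i = (v.a 0 i / v.a 1 i) * v.a 1 i
        rw [div_mul_cancel]
      rw [e]
      exact mul_mem h (h1 i)
    have h2 : ∀ i, v.a 2 i ∈ Subgroup.closure (Set.range v.pt) := by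
      intro i
      have h : v.pt (Sum.inl (Sum.inl (Sum.inr i))) ∈ Subgroup.closure (Set.range v.pt) :=
        Subgroup.subset_closure ⟨_, rfl⟩
      have e : v.a 2 i = v.a 1 i / v.pt (Sum.inl (Sum.inl (Sum.inr i))) := by
        change v.a 2 i = v.a 1 i / (v.a 1 i / v.a 2 i)
        rw [div_div_cancel]
      rw [e]
      exact div_mem (h1 i) h
    have hy : ∀ i, v.y i ∈ Subgroup.closure (Set.range v.pt) := by
      intro i
      have h : v.pt (Sum.inr (Sum.inl (Sum.inr i))) ∈ Subgroup.closure (Set.range v.pt) :=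
        Subgroup.subset_closure ⟨_, rfl⟩
      have e : v.y i = v.pt (Sum.inr (Sum.inl (Sum.inr i))) * v.a 2 i := by
        change v.y i = (v.y i / v.a 2 i) * v.a 2 i
        rw [div_mul_cancel]
      rw [e]
      exact mul_mem h (h2 i)
    rcases j with ((i | ⟨j, i⟩) | ⟨b, k⟩)
    · exact pow_mem (hy i) 2
    · change v.a j i ^ 2 ∈ _
      fin_cases j
      · exact pow_mem (h0 i) 2
      · exact pow_mem (h1 i) 2
      · exact pow_mem (h2 i) 2
    · change v.s b k ^ 2 ∈ _
      have h : v.pt (Sum.inr (Sum.inr ⟨b, k - 1⟩)) ∈ Subgroup.closure (Set.range v.pt) :=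
        Subgroup.subset_closure ⟨_, rfl⟩
      have e : v.s b k = S.term v.y b (k - 1) / v.pt (Sum.inr (Sum.inr ⟨b, k - 1⟩)) := by
        change v.s b k = S.term v.y b (k - 1) / (S.term v.y b (k - 1) / v.s b (k - 1 + 1))
        rw [div_div_cancel, sub_add_cancel]
      rw [e, div_pow]
      exact div_mem (cm_term_sq_mem v b (k - 1) _ hy) (pow_mem h 2)

theorem Config.mr_pt_le (v : Config S L) :
    mr v.pt ≤ mr v.y + 3 * Fintype.card I + ∑ b : S.B, (S.m b + 1) := by
  rw [v.mr_pt]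
  let q : (Fin 3 × I) ⊕ (Σ b : S.B, Fin (S.m b + 1)) → Lˣ :=
    Sum.elim (fun ji => v.a ji.1 ji.2) (fun bk => v.s bk.1 bk.2)
  have h1 : mr v.all ≤ mr (Sum.elim v.y q) := by
    apply mr_le_of_pow_mem
    intro j
    refine ⟨1, by norm_num, ?_⟩
    rw [pow_one]
    apply Subgroup.subset_closure
    rcases j with ((i | ⟨j, i⟩) | ⟨b, k⟩)
    · exact ⟨Sum.inl i, rfl⟩
    · exact ⟨Sum.inr (Sum.inl (j, i)), rfl⟩
    · exact ⟨Sum.inr (Sum.inr ⟨b, k⟩), rfl⟩
  have h2 := mr_sumElim_le v.y q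
  have h3 : Fintype.card ((Fin 3 × I) ⊕ (Σ b : S.B, Fin (S.m b + 1))) =
      3 * Fintype.card I + ∑ b : S.B, (S.m b + 1) := by
    rw [Fintype.card_sum, Fintype.card_prod, Fintype.card_fin, Fintype.card_sigma]
    simp only [Fintype.card_fin]
  rw [h3] at h2
  omega

private theorem cm_alg_mono {K : Type} [Field K] [Algebra K L] {A B : Subalgebra K L} (h : A ≤ B)
    {x : L} (hx : IsAlgebraic A x) : IsAlgebraic B x := by
  obtain ⟨f, hf, hfx⟩ := hx
  refine ⟨f.map (Subalgebra.inclusion h).toRingHom, ?_, ?_⟩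
  · rw [Ne, Polynomial.map_eq_zero_iff]
    · exact hf
    · exact Subalgebra.inclusion_injective h
  · rw [Polynomial.aeval_def, Polynomial.eval₂_map]
    exact hfx

theorem Config.td_pt_le {K : Type} [Field K] [Algebra K L] (v : Config S L) :
    td K v.pt ≤ td K v.y + Fintype.card I + Fintype.card S.B := by
  classical
  obtain ⟨J, -, hJc, hJa⟩ := td_spec (K := K) v.y
  let q : J ⊕ (I ⊕ S.B) → L :=
    Sum.elim (fun j => (v.y j : L)) (Sum.elim (fun i => (v.a 0 i : L)) (fun b => (v.s b 0 : L)))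
  let R : Subalgebra K L := Algebra.adjoin K (Set.range q)
  have hmem : ∀ j, IsAlgebraic R (q j) := by
    intro j
    have h : q j ∈ R := Algebra.subset_adjoin ⟨j, rfl⟩
    exact isAlgebraic_algebraMap (⟨q j, h⟩ : R)
  have hy : ∀ i, IsAlgebraic R (v.y i : L) := by
    intro i
    apply cm_alg_mono _ (hJa i)
    apply Algebra.adjoin_mono
    rintro _ ⟨j, hj, rfl⟩
    exact ⟨Sum.inl ⟨j, hj⟩, rfl⟩
  have ha0 : ∀ i, IsAlgebraic R (v.a 0 i : L) := fun i => hmem (Sum.inr (Sum.inl i))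
  have hs0 : ∀ b, IsAlgebraic R (v.s b 0 : L) := fun b => hmem (Sum.inr (Sum.inr b))
  have ha1 : ∀ i, IsAlgebraic R (v.a 1 i : L) := by
    intro i
    rw [v.ha1]
    exact (ha0 i).add isAlgebraic_one
  have ha2 : ∀ i, IsAlgebraic R (v.a 2 i : L) := by
    intro i
    rw [v.ha2]
    exact (ha1 i).add (hy i)
  have ht : ∀ b k, IsAlgebraic R (S.term v.y b k : L) := by
    intro b k
    unfold Sys.term
    rw [Units.val_mul, Units.coe_prod]
    apply IsAlgebraic.mul
    · unfold sgnUnit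
      change IsAlgebraic R ((Int.castRingHom L) ((S.ε b k : ℤˣ) : ℤ))
      exact isAlgebraic_intCast _
    · refine Finset.prod_induction _ (fun z : L => IsAlgebraic R z) (fun _ _ h h' => h.mul h')
        isAlgebraic_one fun i _ => ?_
      rw [Units.val_pow_eq_pow_val]
      exact (hy i).pow _
  have hs : ∀ b k, IsAlgebraic R (v.s b k : L) := by
    intro b k
    induction k using Fin.induction with
    | zero => exact hs0 b
    | succ k ih =>
      rw [← Fin.coeSucc_eq_succ, v.hs]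
      exact ih.add (ht b _)
  have hdiv : ∀ x y : Lˣ, IsAlgebraic R (x : L) → IsAlgebraic R (y : L) →
      IsAlgebraic R ((x / y : Lˣ) : L) := by
    intro x y hx hy
    rw [Units.val_div_eq_div_val, div_eq_mul_inv]
    exact hx.mul hy.inv
  have hfin : ∀ j, IsAlgebraic R (v.pt j : L) := by
    intro j
    rcases j with (((i | i) | ⟨b, k⟩) | ((i | i) | ⟨b, k⟩))
    · exact hdiv _ _ (ha0 i) (ha1 i)
    · exact hdiv _ _ (ha1 i) (ha2 i)
    · exact hdiv _ _ (hs b k) (hs b (k + 1))
    · exact hdiv _ _ isAlgebraic_one (ha1 i)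
    · exact hdiv _ _ (hy i) (ha2 i)
    · exact hdiv _ _ (ht b k) (hs b (k + 1))
  have h := td_le_card_of_algebraic (K := K) v.pt q hfin
  rw [Fintype.card_sum, Fintype.card_sum, Fintype.card_coe, hJc] at h
  omega

end Pool.Agent.Lib.MP_a325a5_ag.UL
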