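import Pool.Agent.Lib.MP_a325a5_ag.UL.MR

/-! Monomials and specialisation.

Proof hints.  `τ' ^ a = c` is equivalent to the polynomial relation `τ' ^ (a⁺) = c τ' ^ (a⁻)`.
`locus_monomial_le`: a polynomial in the monomials `c_j τ' ^ (A_j)`, multiplied by a high power of
the product of all coordinates, is a polynomial in `τ'`.
`exists_cst_of_isOfFinOrder`: a root of unity of `L` is a root of `X ^ N - 1`, which splits over
the algebraically closed field `K`. -/

namespace Pool.Agent.Lib.MP_a325a5_ag.UL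

open MvPolynomial

variable {K : Type} [Field K] {L L' : Type} [Field L] [Algebra K L] [Field L'] [Algebra K L']
  {ι κ : Type} [Fintype ι] [Fintype κ]

/-- the polynomial of a monomial relation -/
private noncomputable def monRel (a : ι → ℤ) (c : Kˣ) : MvPolynomial ι K :=
  ∏ i, X i ^ (a i).toNat - C (c : K) * ∏ i, X i ^ (-a i).toNat

private theorem mon_split {M : Type} [CommGroup M] (p : ι → M) (h : ι → ℤ) :
    ∏ i, p i ^ h i = (∏ i, p i ^ (h i).toNat) / ∏ i, p i ^ (-h i).toNat := by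
  rw [← Finset.prod_div_distrib]
  refine Finset.prod_congr rfl fun i _ => ?_
  rw [← zpow_natCast, ← zpow_natCast, div_eq_mul_inv, ← zpow_sub]
  congr 1
  omega

private theorem monRel_mem (p : ι → Lˣ) (a : ι → ℤ) (c : Kˣ) :
    monRel a c ∈ locus K p ↔ ∏ i, p i ^ a i = cst K L c := by
  rw [mem_locus, monRel, mon_split, div_eq_iff_eq_mul, map_sub, map_mul, map_prod, map_prod,
    sub_eq_zero, aeval_C]
  simp only [map_pow, aeval_X]
  constructor
  · intro hh
    apply Units.ext
    push_cast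
    exact hh
  · intro hh
    have := congrArg (fun u : Lˣ => (u : L)) hh
    push_cast at this
    exact this

/-- Monomial relations with constant right hand side specialise. -/
theorem monomial_spec (τ : ι → Lˣ) (τ' : ι → L'ˣ) (h : locus K τ' ≤ locus K τ) (a : ι → ℤ)
    (c : Kˣ) (hc : ∏ i, τ' i ^ a i = cst K L' c) : ∏ i, τ i ^ a i = cst K L c := by
  rw [← monRel_mem] at hc ⊢
  exact h hc

/-- The same for the right hand side `1`. -/
theorem monomial_spec_one (τ : ι → Lˣ) (τ' : ι → L'ˣ) (h : locus K τ' ≤ locus K τ) (a : ι → ℤ)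
    (hc : ∏ i, τ' i ^ a i = 1) : ∏ i, τ i ^ a i = 1 := by
  have h1 := monomial_spec τ τ' h a 1 (by rw [hc, map_one])
  rw [h1, map_one]

/-- the total exponent -/
private def monE (A : κ → ι → ℤ) (d : κ →₀ ℕ) (i : ι) : ℤ := ∑ j, (d j : ℤ) * A j i

private theorem mon_exp {M : Type} [CommGroup M] (t : ι → M) (A : κ → ι → ℤ) (c : κ → M)
    (d : κ →₀ ℕ) (N : ℕ) (hN : ∀ i, 0 ≤ (N : ℤ) + monE A d i) :
    (∏ i, t i) ^ N * ∏ j, (c j * ∏ i, t i ^ A j i) ^ d j =
      (∏ j, c j ^ d j) * ∏ i, t i ^ ((N : ℤ) + monE A d i).toNat := by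
  have e1 : ∏ j, (c j * ∏ i, t i ^ A j i) ^ d j =
      (∏ j, c j ^ d j) * ∏ i, t i ^ monE A d i := by
    have e2 : ∏ i, t i ^ monE A d i = ∏ j, (∏ i, t i ^ A j i) ^ d j := by
      have e3 : ∀ i, t i ^ monE A d i = ∏ j, t i ^ ((d j : ℤ) * A j i) := by
        intro i
        unfold monE
        induction (Finset.univ : Finset κ) using Finset.cons_induction with
        | empty => simp
        | cons x s hx ih => rw [Finset.sum_cons, Finset.prod_cons, zpow_add, ih]
      simp_rw [e3]
      rw [Finset.prod_comm]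
      refine Finset.prod_congr rfl fun j _ => ?_
      rw [← Finset.prod_pow]
      refine Finset.prod_congr rfl fun i _ => ?_
      rw [mul_comm, zpow_mul, zpow_natCast]
    rw [e2]
    simp_rw [mul_pow]
    rw [Finset.prod_mul_distrib]
  rw [e1, ← mul_assoc, mul_comm _ (∏ j, c j ^ d j), mul_assoc, ← Finset.prod_pow,
    ← Finset.prod_mul_distrib]
  congr 1
  refine Finset.prod_congr rfl fun i _ => ?_
  rw [← zpow_natCast, ← zpow_natCast, ← zpow_add, Int.toNat_of_nonneg (hN i)]

/-- the polynomial with cleared denominators -/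
private noncomputable def monClear (A : κ → ι → ℤ) (c : κ → Kˣ) (N : ℕ) (f : MvPolynomial κ K) :
    MvPolynomial ι K :=
  ∑ d ∈ f.support, C (f.coeff d * ∏ j, (c j : K) ^ d j) * ∏ i, X i ^ ((N : ℤ) + monE A d i).toNat

private theorem monClear_aeval (A : κ → ι → ℤ) (c : κ → Kˣ) (N : ℕ) (f : MvPolynomial κ K)
    (hN : ∀ d ∈ f.support, ∀ i, 0 ≤ (N : ℤ) + monE A d i) (t : ι → Lˣ) :
    aeval (fun i => (t i : L)) (monClear A c N f) =
      ((∏ i, (t i : L)) ^ N) *
        aeval (fun j => ((cst K L (c j) * ∏ i, t i ^ A j i : Lˣ) : L)) f := by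
  rw [monClear, map_sum, MvPolynomial.aeval_def (R := K), MvPolynomial.eval₂_eq', Finset.mul_sum]
  refine Finset.sum_congr rfl fun d hd => ?_
  have h1 := congrArg (fun u : Lˣ => (u : L))
    (mon_exp t A (fun j => cst K L (c j)) d N (hN d hd))
  simp only [Units.val_mul, Units.val_pow_eq_pow_val, Units.coe_prod, cst_val] at h1
  rw [map_mul, aeval_C, map_prod, map_mul, map_prod]
  simp only [map_pow, aeval_X, Units.val_mul, Units.coe_prod, cst_val]
  rw [mul_assoc, ← h1]
  ring

/-- Monomial maps with constant coefficients respect specialisation. -/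
theorem locus_monomial_le (τ : ι → Lˣ) (τ' : ι → L'ˣ) (h : locus K τ' ≤ locus K τ)
    (A : κ → ι → ℤ) (c : κ → Kˣ) :
    locus K (fun j => cst K L' (c j) * ∏ i, τ' i ^ A j i) ≤
      locus K (fun j => cst K L (c j) * ∏ i, τ i ^ A j i) := by
  intro f hf
  obtain ⟨N, hN⟩ : ∃ N : ℕ, ∀ d ∈ f.support, ∀ i, 0 ≤ (N : ℤ) + monE A d i := by
    refine ⟨∑ d ∈ f.support, ∑ i, (monE A d i).natAbs, fun d hd i => ?_⟩
    have h1 : (monE A d i).natAbs ≤ ∑ i, (monE A d i).natAbs :=
      Finset.single_le_sum (f := fun i => (monE A d i).natAbs) (fun _ _ => Nat.zero_le _)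
        (Finset.mem_univ i)
    have h2 : ∑ i, (monE A d i).natAbs ≤ ∑ d ∈ f.support, ∑ i, (monE A d i).natAbs :=
      Finset.single_le_sum (f := fun d => ∑ i, (monE A d i).natAbs) (fun _ _ => Nat.zero_le _) hd
    have h3 : ((monE A d i).natAbs : ℤ) ≤
        ((∑ d ∈ f.support, ∑ i, (monE A d i).natAbs : ℕ) : ℤ) := by exact_mod_cast h1.trans h2
    omega
  rw [mem_locus] at hf ⊢
  have h1 : monClear A c N f ∈ locus K τ' := by
    rw [mem_locus, monClear_aeval A c N f hN τ', hf, mul_zero]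
  have h2 := h h1
  rw [mem_locus, monClear_aeval A c N f hN τ] at h2
  rcases mul_eq_zero.mp h2 with h3 | h3
  · exfalso
    have h4 : ∏ i, (τ i : L) ≠ 0 := Finset.prod_ne_zero_iff.mpr fun i _ => (τ i).ne_zero
    exact pow_ne_zero N h4 h3
  · exact h3

/-- Roots of unity are constants. -/
theorem exists_cst_of_isOfFinOrder [IsAlgClosed K] (w : Lˣ) (hw : IsOfFinOrder w) :
    ∃ ζ : Kˣ, IsOfFinOrder ζ ∧ cst K L ζ = w := by
  obtain ⟨n, hn, hwn⟩ := isOfFinOrder_iff_pow_eq_one.mp hw
  have hint : IsIntegral K (w : L) := by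
    refine ⟨Polynomial.X ^ n - Polynomial.C 1, Polynomial.monic_X_pow_sub_C 1 hn.ne', ?_⟩
    have : (w : L) ^ n = 1 := by
      have := congrArg (fun u : Lˣ => (u : L)) hwn
      simpa using this
    simp [this]
  obtain ⟨z, hz⟩ := hint.mem_range_algebraMap_of_minpoly_splits (K := K)
    (IsAlgClosed.splits _)
  have hz0 : z ≠ 0 := by
    intro h0
    rw [h0, map_zero] at hz
    exact w.ne_zero hz.symm
  refine ⟨Units.mk0 z hz0, ?_, ?_⟩
  · rw [isOfFinOrder_iff_pow_eq_one]
    refine ⟨n, hn, ?_⟩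
    apply Units.ext
    apply (algebraMap K L).injective
    rw [Units.val_pow_eq_pow_val, Units.val_mk0, map_pow, hz, Units.val_one, map_one]
    have := congrArg (fun u : Lˣ => (u : L)) hwn
    simpa using this
  · apply Units.ext
    rw [cst_val, Units.val_mk0, hz]

end Pool.Agent.Lib.MP_a325a5_ag.UL
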