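import Pool.Agent.Lib.MP_a325a5_ag.UL.Sys
import Pool.Agent.Lib.MP_a325a5_ag.UL.MonA

/-! Points with the same torsion relations come from configurations.

Paper proof.  Put `a_1 = 1 / τ'(inr 0 i)`, `a_0 = τ'(inl 0 i) a_1`, `a_2 = a_1 / τ'(inl 1 i)`,
`y_i = τ'(inr 1 i) a_2`, and for the chain `b`: `o_k = term_k(y) / τ'(inr (b,k))` (the end of the
edge `k`), `s_(k+1) = o_k`.  The equations `t + (1 - t) = 1` give `a_1 = a_0 + 1`,
`a_2 = a_1 + y_i` and `o_k = τ'(inl (b,k)) o_k + term_k(y)`.  It remains to see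
`s_k = τ'(inl (b,k)) o_k`, that is `o_(k-1) = τ'(inl (b,k)) o_k`: the quotient of both sides is
`± ∏ τ'^(a)` for an exponent vector `a` that does not depend on `τ'`, and it is `1` for `v.pt`;
so it is `1` for `τ'` by the hypothesis on the torsion relations. -/

namespace Pool.Agent.Lib.MP_a325a5_ag.UL

open MvPolynomial

/-- Signed monomials, with the same sign and exponents for all rings. -/
private def SM {ι : Type} [Fintype ι] (Φ : ∀ (A : Type) [CommRing A], (ι → Aˣ) → Aˣ) : Prop :=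
  ∃ (ε : ℤˣ) (a : ι → ℤ), ∀ (A : Type) [CommRing A] (τ : ι → Aˣ),
    Φ A τ = sgnUnit A ε * ∏ i, τ i ^ a i

private theorem sgn_mul (A : Type) [CommRing A] (ε δ : ℤˣ) :
    sgnUnit A (ε * δ) = sgnUnit A ε * sgnUnit A δ := map_mul _ _ _

private theorem sgn_inv (A : Type) [CommRing A] (ε : ℤˣ) :
    sgnUnit A ε⁻¹ = (sgnUnit A ε)⁻¹ := map_inv _ _

private theorem sgn_one (A : Type) [CommRing A] : sgnUnit A 1 = 1 := map_one _

private theorem sgn_pow (A : Type) [CommRing A] (ε : ℤˣ) (n : ℕ) :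
    sgnUnit A (ε ^ n) = (sgnUnit A ε) ^ n := map_pow _ _ _

private theorem SM.proj {ι : Type} [Fintype ι] (j : ι) :
    SM (fun A _ (τ : ι → Aˣ) => τ j) := by
  classical
  refine ⟨1, Pi.single j 1, fun A _ τ => ?_⟩
  rw [sgn_one, one_mul, Finset.prod_eq_single j]
  · rw [Pi.single_eq_same, zpow_one]
  · intro b _ hb
    rw [Pi.single_eq_of_ne hb, zpow_zero]
  · intro h
    exact absurd (Finset.mem_univ j) h

private theorem SM.inv {ι : Type} [Fintype ι] {Φ : ∀ (A : Type) [CommRing A], (ι → Aˣ) → Aˣ}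
    (h : SM Φ) : SM (fun A _ τ => (Φ A τ)⁻¹) := by
  obtain ⟨ε, a, h⟩ := h
  refine ⟨ε⁻¹, fun i => - a i, fun A _ τ => ?_⟩
  beta_reduce
  rw [h A τ, sgn_inv, mul_inv]
  congr 1
  rw [← Finset.prod_inv_distrib]
  exact Finset.prod_congr rfl fun i _ => by rw [zpow_neg]

private theorem SM.mul {ι : Type} [Fintype ι] {Φ Ψ : ∀ (A : Type) [CommRing A], (ι → Aˣ) → Aˣ}
    (h : SM Φ) (h' : SM Ψ) : SM (fun A _ τ => Φ A τ * Ψ A τ) := by
  obtain ⟨ε, a, h⟩ := h
  obtain ⟨δ, b, h'⟩ := h'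
  refine ⟨ε * δ, fun i => a i + b i, fun A _ τ => ?_⟩
  have e : ∏ i, τ i ^ (a i + b i) = (∏ i, τ i ^ a i) * ∏ i, τ i ^ b i := by
    rw [← Finset.prod_mul_distrib]
    exact Finset.prod_congr rfl fun i _ => by rw [zpow_add]
  beta_reduce
  rw [h A τ, h' A τ, sgn_mul, e]
  exact mul_mul_mul_comm _ _ _ _

private theorem SM.sgn {ι : Type} [Fintype ι] (ε : ℤˣ) :
    SM (fun A _ (_ : ι → Aˣ) => sgnUnit A ε) := by
  refine ⟨ε, fun _ => 0, fun A _ τ => ?_⟩
  simp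

private theorem SM.pow {ι : Type} [Fintype ι] {Φ : ∀ (A : Type) [CommRing A], (ι → Aˣ) → Aˣ}
    (h : SM Φ) (n : ℕ) : SM (fun A _ τ => (Φ A τ) ^ n) := by
  induction n with
  | zero =>
    obtain ⟨ε, a, h⟩ := SM.sgn (ι := ι) 1
    refine ⟨ε, a, fun A _ τ => ?_⟩
    rw [← h A τ]
    beta_reduce
    rw [pow_zero, sgn_one]
  | succ n ih =>
    obtain ⟨ε, a, h⟩ := ih.mul h
    refine ⟨ε, a, fun A _ τ => ?_⟩
    rw [← h A τ]
    beta_reduce
    rw [pow_succ]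

private theorem SM.prod {ι J : Type} [Fintype ι] (s : Finset J)
    {Φ : J → ∀ (A : Type) [CommRing A], (ι → Aˣ) → Aˣ} (h : ∀ j, SM (Φ j)) :
    SM (fun A _ τ => ∏ j ∈ s, Φ j A τ) := by
  classical
  induction s using Finset.induction_on with
  | empty =>
    obtain ⟨ε, a, h⟩ := SM.sgn (ι := ι) 1
    refine ⟨ε, a, fun A _ τ => ?_⟩
    rw [← h A τ]
    beta_reduce
    rw [Finset.prod_empty, sgn_one]
  | insert j s hj ih =>
    obtain ⟨ε, a, h⟩ := (h j).mul ih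
    refine ⟨ε, a, fun A _ τ => ?_⟩
    rw [← h A τ]
    beta_reduce
    rw [Finset.prod_insert hj]

section

variable {I : Type} [Fintype I] (S : Sys I)

private def siA1 {A : Type} [CommRing A] (τ : S.D ⊕ S.D → Aˣ) (i : I) : Aˣ :=
  (τ (Sum.inr (Sum.inl (Sum.inl i))))⁻¹

private def siA2 {A : Type} [CommRing A] (τ : S.D ⊕ S.D → Aˣ) (i : I) : Aˣ :=
  siA1 S τ i * (τ (Sum.inl (Sum.inl (Sum.inr i))))⁻¹

private def siY {A : Type} [CommRing A] (τ : S.D ⊕ S.D → Aˣ) (i : I) : Aˣ :=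
  τ (Sum.inr (Sum.inl (Sum.inr i))) * siA2 S τ i

private def siO {A : Type} [CommRing A] (τ : S.D ⊕ S.D → Aˣ) (b : S.B) (k : Fin (S.m b + 1)) : Aˣ :=
  S.term (siY S τ) b k * (τ (Sum.inr (Sum.inr ⟨b, k⟩)))⁻¹

private theorem si_smA1 (i : I) : SM (fun A _ (τ : S.D ⊕ S.D → Aˣ) => siA1 S τ i) :=
  (SM.proj (ι := S.D ⊕ S.D) (Sum.inr (Sum.inl (Sum.inl i)))).inv

private theorem si_smA2 (i : I) : SM (fun A _ (τ : S.D ⊕ S.D → Aˣ) => siA2 S τ i) :=
  (si_smA1 S i).mul (SM.proj (ι := S.D ⊕ S.D) (Sum.inl (Sum.inl (Sum.inr i)))).inv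

private theorem si_smY (i : I) : SM (fun A _ (τ : S.D ⊕ S.D → Aˣ) => siY S τ i) :=
  (SM.proj (ι := S.D ⊕ S.D) (Sum.inr (Sum.inl (Sum.inr i)))).mul (si_smA2 S i)

private theorem si_smT (b : S.B) (k : Fin (S.m b + 1)) :
    SM (fun A _ (τ : S.D ⊕ S.D → Aˣ) => S.term (siY S τ) b k) :=
  (SM.sgn (S.ε b k)).mul (SM.prod Finset.univ fun i => (si_smY S i).pow (S.α b k i))

private theorem si_smO (b : S.B) (k : Fin (S.m b + 1)) :
    SM (fun A _ (τ : S.D ⊕ S.D → Aˣ) => siO S τ b k) :=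
  (si_smT S b k).mul (SM.proj (ι := S.D ⊕ S.D) (Sum.inr (Sum.inr ⟨b, k⟩))).inv

variable {S}

private theorem si_A1 {A : Type} [CommRing A] (v : Config S A) (i : I) :
    siA1 S v.pt i = v.a 1 i := by
  simp [siA1, Config.pt]

private theorem si_A2 {A : Type} [CommRing A] (v : Config S A) (i : I) :
    siA2 S v.pt i = v.a 2 i := by
  unfold siA2
  rw [si_A1]
  simp [Config.pt]

private theorem si_Y {A : Type} [CommRing A] (v : Config S A) (i : I) :
    siY S v.pt i = v.y i := by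
  unfold siY
  rw [si_A2]
  simp [Config.pt]

private theorem si_O {A : Type} [CommRing A] (v : Config S A) (b : S.B) (k : Fin (S.m b + 1)) :
    siO S v.pt b k = v.s b (k + 1) := by
  unfold siO
  have : siY S v.pt = v.y := funext (si_Y v)
  rw [this]
  simp [Config.pt]

end

theorem exists_config {I : Type} [Fintype I] (S : Sys I) {K L L' : Type} [Field K] [Field L]
    [Algebra K L] [Field L'] [Algebra K L'] (v : Config S L) (τ' : S.D ⊕ S.D → L'ˣ)
    (h1 : ∀ e, (τ' (Sum.inl e) : L') + τ' (Sum.inr e) = 1)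
    (h2 : ∀ (a : S.D ⊕ S.D → ℤ) (ζ : Kˣ), IsOfFinOrder ζ →
      ∏ i, v.pt i ^ a i = cst K L ζ → ∏ i, τ' i ^ a i = cst K L' ζ) :
    ∃ v' : Config S L', v'.pt = τ' := by
  have key : ∀ (b : S.B) (k : Fin (S.m b + 1)),
      siO S τ' b (k - 1) = τ' (Sum.inl (Sum.inr ⟨b, k⟩)) * siO S τ' b k := by
    intro b k
    obtain ⟨ε, a, hQ⟩ := (si_smO S b (k - 1)).mul
      ((SM.proj (ι := S.D ⊕ S.D) (Sum.inl (Sum.inr ⟨b, k⟩))).mul (si_smO S b k)).inv
    have hv := hQ L v.pt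
    beta_reduce at hv
    rw [si_O, si_O, sub_add_cancel] at hv
    have hv1 : v.s b k * (v.pt (Sum.inl (Sum.inr ⟨b, k⟩)) * v.s b (k + 1))⁻¹ = 1 := by
      simp [Config.pt]
    rw [hv1] at hv
    have hc : ∀ (M : Type) [Field M] [Algebra K M], cst K M (sgnUnit K ε)⁻¹ = (sgnUnit M ε)⁻¹ := by
      intro M _ _
      rw [map_inv]
      congr 1
      ext
      simp [sgnUnit]
    have hfin : IsOfFinOrder (sgnUnit K ε)⁻¹ := by
      rw [isOfFinOrder_inv_iff, isOfFinOrder_iff_pow_eq_one]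
      refine ⟨2, by norm_num, ?_⟩
      rw [← sgn_pow, Int.units_sq, sgn_one]
    have h3 := h2 a (sgnUnit K ε)⁻¹ hfin (by
      rw [hc]
      exact eq_inv_of_mul_eq_one_right hv.symm)
    have hτ := hQ L' τ'
    beta_reduce at hτ
    rw [h3, hc, mul_inv_cancel] at hτ
    exact mul_inv_eq_one.mp hτ
  refine ⟨⟨siY S τ', ![fun i => τ' (Sum.inl (Sum.inl (Sum.inl i))) * siA1 S τ' i, siA1 S τ',
    siA2 S τ'], fun b k => siO S τ' b (k - 1), ?_, ?_, ?_⟩, ?_⟩
  · intro i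
    have e := h1 (Sum.inl (Sum.inl i))
    have e2 : ((τ' (Sum.inr (Sum.inl (Sum.inl i))) : L'ˣ) : L') * (siA1 S τ' i : L'ˣ) = 1 := by
      rw [← Units.val_mul]
      simp [siA1]
    simp only [Matrix.cons_val_one, Matrix.cons_val_zero, Units.val_mul]
    linear_combination (-(siA1 S τ' i : L')) * e + e2
  · intro i
    have e := h1 (Sum.inl (Sum.inr i))
    have e2 : (siA1 S τ' i : L'ˣ) = τ' (Sum.inl (Sum.inl (Sum.inr i))) * siA2 S τ' i := by
      simp [siA2]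
    have e3 := congrArg (fun u : L'ˣ => (u : L')) e2
    simp only [Units.val_mul] at e3
    change ((siA2 S τ' i : L'ˣ) : L') = (siA1 S τ' i : L'ˣ) + (siY S τ' i : L'ˣ)
    simp only [siY, Units.val_mul]
    rw [e3]
    linear_combination (-(siA2 S τ' i : L')) * e
  · intro b k
    have e := h1 (Sum.inr ⟨b, k⟩)
    have e2 : S.term (siY S τ') b k = τ' (Sum.inr (Sum.inr ⟨b, k⟩)) * siO S τ' b k := by
      simp [siO]
    simp only [add_sub_cancel_right]
    rw [key b k, e2]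
    simp only [Units.val_mul]
    linear_combination (-(siO S τ' b k : L')) * e
  · funext j
    rcases j with ((i | i) | ⟨b, k⟩) | ((i | i) | ⟨b, k⟩)
    · simp [Config.pt]
    · simp [Config.pt, siA2]
    · simp only [Config.pt, add_sub_cancel_right]
      rw [key b k]
      simp
    · simp [Config.pt, siA1]
    · simp [Config.pt, siY]
    · simp [Config.pt, siO]

/-- The base points are monomials in `pt`, with the same exponents for all configurations. -/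
theorem exists_base_exponents {I : Type} [Fintype I] (S : Sys I) :
    ∃ A : I → (S.D ⊕ S.D → ℤ), ∀ (A' : Type) [CommRing A'] (v : Config S A') (i : I),
      v.y i = ∏ j, v.pt j ^ A i j := by
  classical
  have hs : ∀ (A' : Type) [CommRing A'] (τ : S.D ⊕ S.D → A'ˣ) (j : S.D ⊕ S.D),
      ∏ l, τ l ^ ((Pi.single j (1 : ℤ) : S.D ⊕ S.D → ℤ) l) = τ j := by
    intro A' _ τ j
    rw [Finset.prod_eq_single j]
    · rw [Pi.single_eq_same, zpow_one]
    · intro b _ hb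
      rw [Pi.single_eq_of_ne hb, zpow_zero]
    · intro h
      exact absurd (Finset.mem_univ j) h
  refine ⟨fun i => fun l => (Pi.single (Sum.inr (Sum.inl (Sum.inr i))) (1 : ℤ) : S.D ⊕ S.D → ℤ) l -
    (Pi.single (Sum.inr (Sum.inl (Sum.inl i))) (1 : ℤ) : S.D ⊕ S.D → ℤ) l -
    (Pi.single (Sum.inl (Sum.inl (Sum.inr i))) (1 : ℤ) : S.D ⊕ S.D → ℤ) l, fun A' _ v i => ?_⟩
  have e : ∏ j, v.pt j ^ ((Pi.single (Sum.inr (Sum.inl (Sum.inr i))) (1 : ℤ) : S.D ⊕ S.D → ℤ) j -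
    (Pi.single (Sum.inr (Sum.inl (Sum.inl i))) (1 : ℤ) : S.D ⊕ S.D → ℤ) j -
    (Pi.single (Sum.inl (Sum.inl (Sum.inr i))) (1 : ℤ) : S.D ⊕ S.D → ℤ) j) =
      v.pt (Sum.inr (Sum.inl (Sum.inr i))) / v.pt (Sum.inr (Sum.inl (Sum.inl i))) /
        v.pt (Sum.inl (Sum.inl (Sum.inr i))) := by
    conv_rhs => rw [← hs A' v.pt (Sum.inr (Sum.inl (Sum.inr i))),
      ← hs A' v.pt (Sum.inr (Sum.inl (Sum.inl i))), ← hs A' v.pt (Sum.inl (Sum.inl (Sum.inr i)))]
    rw [← Finset.prod_div_distrib, ← Finset.prod_div_distrib]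
    exact Finset.prod_congr rfl fun j _ => by rw [zpow_sub, zpow_sub]; rfl
  refine Eq.trans ?_ e.symm
  have h := si_Y v i
  rw [← h, siY, siA2, siA1, div_eq_mul_inv, div_eq_mul_inv, mul_assoc]

end Pool.Agent.Lib.MP_a325a5_ag.UL
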