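import Pool.Agent.Lib.MP_a325a5_ag.UL.CompA

/-! Atypical special subvarieties and defects.

`atypical_iff`: `zdim X = td γX`, `zdim (hull X) = mr γX` etc (`zdim_eq`, `zdim_hull`); the
inequality `defect_le` turns `≠` into `<`; if `hull Z = hull X` then `X ⊆ X ∩ hull Z`, so `Z = X`
(component) and the strict inequality fails (`td_congr`, `mr_eq_of_locus_eq`).

`exists_atypical`: `W` = the set of `exists_irrClosed p`, `Z` from `exists_component`; a generic
point `γZ` of `Z` has `mr γZ = mr p` (equal hulls, `zdim_hull`) and `td K γZ ≥ td K p`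
(`td_mono`).

`exists_maxAtypical`: among the atypical special subvarieties containing `Z` choose one whose
generic point has maximal `td` (bounded by `card ι`), and use `locus_eq_of_td_le`,
`IrrClosed.ext`. -/

namespace Pool.Agent.Lib.MP_a325a5_ag.UL

open MvPolynomial

variable {K : Type} [Field K] [IsAlgClosed K] [CharZero K] {ι : Type} [Fintype ι]

theorem atypical_iff {L L' : Type} [Field L] [Algebra K L] [Field L'] [Algebra K L']
    (X Z : Set (ι → Kˣ)) (hX : IrrClosed X) (hZ : IrrClosed Z) (hZX : Z ⊆ X)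
    (hc : ∀ Z', IrrClosed Z' → Z ⊆ Z' → Z' ⊆ X ∩ hull Z → Z' = Z)
    (γX : ι → Lˣ) (γZ : ι → L'ˣ) (hγX : locus K γX = vanIdeal X)
    (hγZ : locus K γZ = vanIdeal Z) :
    Atypical X Z ↔ mr γZ + td K γX < mr γX + td K γZ := by
  have e1 := zdim_eq X γX hγX
  have e2 := zdim_eq Z γZ hγZ
  have e3 := zdim_hull X hX γX hγX
  have e4 := zdim_hull Z hZ γZ hγZ
  have e5 := defect_le X Z hX hZ hZX hc γX γZ hγX hγZ
  have e6 : (zdim X + zdim (hull Z) ≠ zdim (hull X) + zdim Z) ↔
      mr γZ + td K γX ≠ mr γX + td K γZ := by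
    rw [e1, e2, e3, e4]
    constructor
    · intro h1 h2
      apply h1
      rw [add_comm]
      exact_mod_cast h2
    · intro h1 h2
      apply h1
      rw [add_comm] at h2
      exact_mod_cast h2
  constructor
  · rintro ⟨-, h2⟩
    have := e6.mp h2
    omega
  · intro h
    refine ⟨⟨hZ, hZX, hc, ?_⟩, e6.mpr (by omega)⟩
    intro hh
    have hXZ : X = Z := hc X hX hZX (fun x hx => ⟨hx, by rw [hh]; exact subset_hull X hx⟩)
    have hl : locus K γX = locus K γZ := by rw [hγX, hγZ, hXZ]
    have h1 := td_congr γZ γX hl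
    have h2 := mr_eq_of_locus_eq γZ γX hl
    omega

/-- Points of small defect lie on atypical special subvarieties. -/
theorem exists_atypical {L L' : Type} [Field L] [Algebra K L] [Field L'] [Algebra K L']
    (X : Set (ι → Kˣ)) (hX : IrrClosed X) (γX : ι → Lˣ) (hγX : locus K γX = vanIdeal X)
    (p : ι → L'ˣ) (hp : vanIdeal X ≤ locus K p) (h : mr p + td K γX < mr γX + td K p) :
    ∃ Z, Atypical X Z ∧ vanIdeal Z ≤ locus K p := by
  obtain ⟨W, hW, hWp⟩ := exists_irrClosed (K := K) p
  have hWX : W ⊆ X := (subset_iff hX).mpr (by rw [hWp]; exact hp)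
  obtain ⟨Z, hZ, hWZ, hZX, hh, hc⟩ := exists_component X W hX hW hWX
  obtain ⟨L₂, _, _, γZ, hγZ⟩ := exists_generic Z hZ
  have hle : locus K γZ ≤ locus K p := by
    rw [hγZ, ← hWp]
    exact vanIdeal_anti hWZ
  have h1 : mr γZ = mr p := by
    have e1 := zdim_hull Z hZ γZ hγZ
    have e2 := zdim_hull W hW p hWp.symm
    rw [hh, e2] at e1
    exact_mod_cast e1.symm
  have h2 := td_mono p γZ hle
  refine ⟨Z, (atypical_iff X Z hX hZ hZX hc γX γZ hγX hγZ).mpr (by omega), ?_⟩
  rw [← hγZ]
  exact hle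

/-- Every atypical special subvariety is contained in a maximal one (by dimension). -/
theorem exists_maxAtypical (X Z : Set (ι → Kˣ)) (hZ : Atypical X Z) :
    ∃ W ∈ MaxAtypical X, Z ⊆ W := by
  have key : ∀ n : ℕ, ∀ Z : Set (ι → Kˣ), Atypical X Z →
      (∀ (L : Type) [Field L] [Algebra K L] (γ : ι → Lˣ), locus K γ = vanIdeal Z →
        Fintype.card ι ≤ td K γ + n) → ∃ W ∈ MaxAtypical X, Z ⊆ W := by
    intro n
    induction n with
    | zero =>
      intro Z hZ hn
      refine ⟨Z, ⟨hZ, ?_⟩, subset_rfl⟩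
      intro W hW hZW
      obtain ⟨L, _, _, γ, hγ⟩ := exists_generic Z hZ.1.1
      obtain ⟨L', _, _, γ', hγ'⟩ := exists_generic W hW.1.1
      have h1 := hn L γ hγ
      have h2 := td_le_mr (K := K) γ'
      have h3 := mr_le_card γ'
      have hle : locus K γ' ≤ locus K γ := by
        rw [hγ, hγ']
        exact vanIdeal_anti hZW
      have h4 := locus_eq_of_td_le γ γ' hle (by omega)
      exact IrrClosed.ext hW.1.1 hZ.1.1 (by rw [← hγ', ← hγ, h4])
    | succ n ih =>
      intro Z hZ hn
      by_cases hmax : Z ∈ MaxAtypical X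
      · exact ⟨Z, hmax, subset_rfl⟩
      · have : ∃ W, Atypical X W ∧ Z ⊆ W ∧ W ≠ Z := by
          by_contra hcon
          push Not at hcon
          exact hmax ⟨hZ, fun W hW hZW => hcon W hW hZW⟩
        obtain ⟨W, hW, hZW, hne⟩ := this
        obtain ⟨L, _, _, γ, hγ⟩ := exists_generic Z hZ.1.1
        obtain ⟨V, hV, hWV⟩ := ih W hW (by
          intro L' _ _ γ' hγ'
          have hle : locus K γ' ≤ locus K γ := by
            rw [hγ, hγ']
            exact vanIdeal_anti hZW
          have h1 := hn L γ hγ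
          by_contra hcon
          have h4 := locus_eq_of_td_le γ γ' hle (by omega)
          exact hne (IrrClosed.ext hW.1.1 hZ.1.1 (by rw [← hγ', ← hγ, h4])))
        exact ⟨V, hV, hZW.trans hWV⟩
  exact key (Fintype.card ι) Z hZ (fun L _ _ γ _ => Nat.le_add_left _ _)

end Pool.Agent.Lib.MP_a325a5_ag.UL
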