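import Pool.Agent.Lib.MP_a325a5_ag.UL.SysInv
import Pool.Agent.Lib.MP_a325a5_ag.UL.Gen
import Pool.Agent.Lib.MP_a325a5_ag.UL.Comp
import Pool.Agent.Lib.MP_a325a5_ag.UL.Line

/-! The generic configuration over a good base point lies on no atypical subvariety of `ℓ^D`.

Paper proof.  Let `v = genConfig S y hy`, `τ = v.pt`, and let `Z` be atypical in `ℓ^D` with
`vanIdeal Z ≤ locus k τ`, `γ` a generic point of `Z`.  Apply `typical` to `γ`, `τ`:
`hiso`: let `τ'` be as there; `τ'` lies on `ℓ^D` (`line_le_locus`), so `exists_config` gives a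
configuration `v'` with `v'.pt = τ'`; `locus k v'.y ≤ locus k v.y = locus k y`
(`exists_base_exponents`, `locus_monomial_le`, `locus_genConfig_y`); all relations hold at `v'.y`
(`Config.rel_eq_zero`); by the hypothesis on `S` `td k v'.y ≤ td k y`, and `Config.td_pt_le`,
`td_genConfig` give `td k τ' ≤ td k τ`.
Conclusion: `mr τ + td k γ ≤ mr γ + td k τ`.  By `Config.mr_pt`, `mr_genConfig`, `td_genConfig`,
`card_D` and `card S.B + td k y = card I`: `mr τ = card S.D + td k τ`.  So
`card S.D + td k γ ≤ mr γ`, while `atypical_iff` with `line_generic` says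
`mr γ + card S.D < 2 card S.D + td k γ`. -/

namespace Pool.Agent.Lib.MP_a325a5_ag.UL

open MvPolynomial

theorem generic_not_mem {I : Type} [Fintype I] (S : Sys I) {k E : Type} [Field k]
    [IsAlgClosed k] [CharZero k] [Field E] [Algebra k E] (y : I → Eˣ)
    (hy : ∀ b, S.rel y b = 0) (hind : mr y = Fintype.card I)
    (hdist : ∀ b l l', S.part y b l = S.part y b l' → l = l')
    (hcard : Fintype.card S.B + td k y = Fintype.card I)
    (hiso : ∀ (L' : Type) [Field L'] [Algebra k L'] (y' : I → L'ˣ), locus k y' ≤ locus k y →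
      (∀ b, S.rel y' b = 0) → td k y' ≤ td k y)
    (Z : Set (S.D ⊕ S.D → kˣ)) (hZ : Atypical (lineProd k S.D) Z) :
    ¬ vanIdeal Z ≤ locus k (genConfig S y hy).pt := by
  intro hle
  have hZ' := hZ
  obtain ⟨⟨hZirr, hZsub, hZc, -⟩, -⟩ := hZ'
  obtain ⟨L₁, _, _, γ, hγ⟩ := exists_generic Z hZirr
  obtain ⟨γl, hγl, htd, hmr⟩ := line_generic k S.D
  have hA := (atypical_iff (lineProd k S.D) Z (line_irrClosed k S.D) hZirr hZsub hZc γl γ
    hγl hγ).mp hZ
  have hspec : locus k γ ≤ locus k (genConfig S y hy).pt := hγ.le.trans hle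
  obtain ⟨A, hAexp⟩ := exists_base_exponents S
  have htdv := td_genConfig S (k := k) y hy
  have key := typical γ (genConfig S y hy).pt hspec (by
    intro L' _ _ τ' h1 h2 h3
    have hline : ∀ e, (τ' (Sum.inl e) : L') + τ' (Sum.inr e) = 1 :=
      (line_le_locus (K := k) τ').mp (((vanIdeal_anti hZsub).trans hγ.ge).trans h1)
    obtain ⟨v', hv'⟩ := exists_config S (K := k) (genConfig S y hy) τ' hline h3
    have hloc : locus k v'.y ≤ locus k (genConfig S y hy).y := by
      have h4 := locus_monomial_le (K := k) (genConfig S y hy).pt τ' h2 A (fun _ => 1)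
      have e1 : (fun j => cst k L' ((fun _ => 1 : I → kˣ) j) * ∏ i, τ' i ^ A j i) = v'.y := by
        funext j
        rw [map_one, one_mul, hAexp L' v' j, hv']
      have e2 : (fun j => cst k (RatFun (I ⊕ S.B) E) ((fun _ => 1 : I → kˣ) j) *
          ∏ i, (genConfig S y hy).pt i ^ A j i) = (genConfig S y hy).y := by
        funext j
        rw [map_one, one_mul, hAexp _ (genConfig S y hy) j]
      rw [e1, e2] at h4
      exact h4
    have h5 := hiso L' v'.y (hloc.trans (locus_genConfig_y S y hy).le)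
      (fun b => v'.rel_eq_zero b)
    have h6 := v'.td_pt_le (K := k)
    rw [hv'] at h6
    omega)
  have h7 : mr (genConfig S y hy).pt = 4 * Fintype.card I + ∑ b : S.B, (S.m b + 1) := by
    rw [Config.mr_pt, mr_genConfig S y hy hind hdist]
  have h8 := S.card_D
  omega

end Pool.Agent.Lib.MP_a325a5_ag.UL
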