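import Pool.Agent.Lib.MP_a325a5_ag.UL.MRloc
import Pool.Agent.Lib.MP_a325a5_ag.UL.LocSet

/-! Base change of irreducible closed sets.

Paper proof.  `k ⊆ K`, `W ⊆ (kˣ)^ι` irreducible closed, `X` = the set of all `x ∈ (Kˣ)^ι` at which
all polynomials over `K` vanishing on (the image of) `W` vanish.  Every `f ∈ K[x]` is a finite sum
`∑ c_l f_l` with `f_l ∈ k[x]` and `c_l ∈ K` linearly independent over `k` (choose a basis of the
`k`-span of the coefficients); for `z ∈ (kˣ)^ι`: `f(z) = 0` iff all `f_l(z) = 0`.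
Primality: if `f, f' ∉ vanIdeal` then some `f_l, f'_m ∉ vanIdeal W`, so `f_l f'_m(z) ≠ 0` for some
`z ∈ W`, and `f(z) ≠ 0`, `f'(z) ≠ 0`.
Ranks: `J` is algebraically independent modulo the ideal over `k` iff over `K`, by the same
expansion; a monomial relation `x ^ a = 1` holds on `X` iff it holds on `W`. -/

namespace Pool.Agent.Lib.MP_a325a5_ag.UL

open MvPolynomial

section

variable {k K : Type} [Field k] [Field K] [Algebra k K] {ι : Type}

/-- Apply a `k`-linear functional to the coefficients. -/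
private noncomputable def bcF (lam : K →ₗ[k] k) (F : MvPolynomial ι K) : MvPolynomial ι k :=
  ∑ m ∈ F.support, monomial m (lam (coeff m F))

private lemma bcF_coeff (lam : K →ₗ[k] k) (F : MvPolynomial ι K) (m : ι →₀ ℕ) :
    coeff m (bcF lam F) = lam (coeff m F) := by
  classical
  rw [bcF, coeff_sum]
  simp only [coeff_monomial]
  rw [Finset.sum_ite_eq']
  split_ifs with h
  · rfl
  · rw [notMem_support_iff.1 h, map_zero]

private lemma bcF_eval (lam : K →ₗ[k] k) (F : MvPolynomial ι K) (z : ι → k) :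
    eval z (bcF lam F) = lam (eval (fun i => algebraMap k K (z i)) F) := by
  rw [bcF, map_sum, eval_eq, map_sum]
  refine Finset.sum_congr rfl fun m _ => ?_
  rw [eval_monomial]
  have h : ∏ i ∈ m.support, algebraMap k K (z i) ^ m i =
      algebraMap k K (∏ i ∈ m.support, z i ^ m i) := by
    rw [map_prod]
    exact Finset.prod_congr rfl fun i _ => (map_pow _ _ _).symm
  rw [h, mul_comm (coeff m F), ← Algebra.smul_def, map_smul, smul_eq_mul, mul_comm]
  rfl

private lemma bc_sep {c : K} (h : ∀ lam : K →ₗ[k] k, lam c = 0) : c = 0 :=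
  (Module.forall_dual_apply_eq_zero_iff k c).1 h

private lemma bc_eval_iff (F : MvPolynomial ι K) (z : ι → k) :
    eval (fun i => algebraMap k K (z i)) F = 0 ↔ ∀ lam : K →ₗ[k] k, eval z (bcF lam F) = 0 := by
  constructor
  · intro h lam
    rw [bcF_eval, h, map_zero]
  · intro h
    refine bc_sep (k := k) fun lam => ?_
    rw [← bcF_eval]
    exact h lam

private lemma bc_eval_map (f : MvPolynomial ι k) (z : ι → k) :
    eval (fun i => algebraMap k K (z i)) (map (algebraMap k K) f) = algebraMap k K (eval z f) := by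
  rw [eval_map, eval₂_comp]
  rfl

/-- The ideal over `K` of the image of `W`. -/
private noncomputable def bcI (K : Type) [Field K] [Algebra k K] (W : Set (ι → kˣ)) :
    Ideal (MvPolynomial ι K) :=
  vanIdeal ((fun z : ι → kˣ => fun i => cst k K (z i)) '' W)

private lemma bc_mem_I {W : Set (ι → kˣ)} {F : MvPolynomial ι K} :
    F ∈ bcI K W ↔ ∀ z ∈ W, eval (fun i => algebraMap k K (z i : k)) F = 0 := by
  rw [bcI, mem_vanIdeal]
  constructor
  · intro h z hz
    exact h _ ⟨z, hz, rfl⟩
  · rintro h _ ⟨z, hz, rfl⟩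
    exact h z hz

private lemma bc_mem_I' {W : Set (ι → kˣ)} {F : MvPolynomial ι K} :
    F ∈ bcI K W ↔ ∀ lam : K →ₗ[k] k, bcF lam F ∈ vanIdeal W := by
  rw [bc_mem_I]
  constructor
  · intro h lam
    rw [mem_vanIdeal]
    intro z hz
    exact (bc_eval_iff F fun i => (z i : k)).1 (h z hz) lam
  · intro h z hz
    exact (bc_eval_iff F fun i => (z i : k)).2 fun lam => (mem_vanIdeal.1 (h lam)) z hz

private lemma bc_map_mem_I {W : Set (ι → kˣ)} {f : MvPolynomial ι k} :
    map (algebraMap k K) f ∈ bcI K W ↔ f ∈ vanIdeal W := by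
  rw [bc_mem_I, mem_vanIdeal]
  refine forall₂_congr fun z _ => ?_
  rw [bc_eval_map, map_eq_zero]

private lemma bc_prime {W : Set (ι → kˣ)} (hW : (vanIdeal W).IsPrime) : (bcI K W).IsPrime := by
  refine ⟨?_, ?_⟩
  · intro h
    apply hW.ne_top
    rw [Ideal.eq_top_iff_one] at h ⊢
    rw [← bc_map_mem_I (K := K), map_one]
    exact h
  · intro F G hFG
    by_contra hcon
    push Not at hcon
    obtain ⟨hF, hG⟩ := hcon
    rw [bc_mem_I'] at hF hG
    push Not at hF hG
    obtain ⟨lam, hlam⟩ := hF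
    obtain ⟨mu, hmu⟩ := hG
    have h1 : bcF lam F * bcF mu G ∉ vanIdeal W := fun h => (hW.mem_or_mem h).elim hlam hmu
    apply h1
    rw [mem_vanIdeal]
    intro z hz
    have h2 := bc_mem_I.1 hFG z hz
    rw [map_mul, mul_eq_zero] at h2
    rw [map_mul, mul_eq_zero]
    rcases h2 with h2 | h2
    · left
      exact (bc_eval_iff F fun i => (z i : k)).1 h2 lam
    · right
      exact (bc_eval_iff G fun i => (z i : k)).1 h2 mu

end

private lemma bc_rename_bcF {k K : Type} [Field k] [Field K] [Algebra k K] {ι κ : Type}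
    {e : κ → ι} (he : Function.Injective e) (lam : K →ₗ[k] k) (F : MvPolynomial κ K) :
    bcF lam (rename e F) = rename e (bcF lam F) := by
  classical
  ext m
  rw [bcF_coeff]
  by_cases h : ∃ u : κ →₀ ℕ, u.mapDomain e = m
  · obtain ⟨u, rfl⟩ := h
    rw [coeff_rename_mapDomain e he, coeff_rename_mapDomain e he, bcF_coeff]
  · rw [coeff_rename_eq_zero e F m fun u hu => absurd ⟨u, hu⟩ h,
      coeff_rename_eq_zero e (bcF lam F) m fun u hu => absurd ⟨u, hu⟩ h, map_zero]

private lemma bc_indep {k K : Type} [Field k] [Field K] [Algebra k K] {ι : Type} [Fintype ι]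
    {W : Set (ι → kˣ)} {L L' : Type} [Field L] [Algebra k L] [Field L'] [Algebra K L']
    {γ : ι → Lˣ} {γ' : ι → L'ˣ} (h : locus k γ = vanIdeal W) (h' : locus K γ' = bcI K W)
    (J : Finset ι) :
    AlgebraicIndependent K (fun j : J => ((γ' j : L'ˣ) : L')) ↔
      AlgebraicIndependent k (fun j : J => ((γ j : Lˣ) : L)) := by
  have hK : ∀ F : MvPolynomial J K, aeval (fun j : J => ((γ' j : L'ˣ) : L')) F = 0 ↔
      rename (fun j : J => (j : ι)) F ∈ bcI K W := by
    intro F
    rw [← h', mem_locus, aeval_rename]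
    rfl
  have hk : ∀ f : MvPolynomial J k, aeval (fun j : J => ((γ j : Lˣ) : L)) f = 0 ↔
      rename (fun j : J => (j : ι)) f ∈ vanIdeal W := by
    intro f
    rw [← h, mem_locus, aeval_rename]
    rfl
  rw [algebraicIndependent_iff, algebraicIndependent_iff]
  constructor
  · intro H f hf
    rw [hk, ← bc_map_mem_I (K := K), map_rename, ← hK] at hf
    have h1 := H _ hf
    exact (map_injective (algebraMap k K) (algebraMap k K).injective)
      (by rw [h1, map_zero])
  · intro H F hF
    rw [hK, bc_mem_I'] at hF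
    have h1 : ∀ lam : K →ₗ[k] k, bcF lam F = 0 := by
      intro lam
      apply H
      rw [hk, ← bc_rename_bcF Subtype.val_injective]
      exact hF lam
    ext m
    rw [coeff_zero]
    refine bc_sep (k := k) fun lam => ?_
    rw [← bcF_coeff, h1 lam, coeff_zero]

theorem base_change {k K : Type} [Field k] [Field K] [Algebra k K] {ι : Type} [Fintype ι]
    (W : Set (ι → kˣ)) (hW : IrrClosed W) :
    ∃ X : Set (ι → Kˣ), IrrClosed X ∧ (∀ z ∈ W, (fun i => cst k K (z i)) ∈ X) ∧
      (∀ B : Set (ι → kˣ), B ⊆ W → vanIdeal B ≤ vanIdeal W →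
        DenseIn ((fun z : ι → kˣ => fun i => cst k K (z i)) '' B) X) ∧
      ∀ (L L' : Type) [Field L] [Algebra k L] [Field L'] [Algebra K L'] (γ : ι → Lˣ)
        (γ' : ι → L'ˣ), locus k γ = vanIdeal W → locus K γ' = vanIdeal X →
        td K γ' = td k γ ∧ mr γ' = mr γ := by
  classical
  set X : Set (ι → Kˣ) := {x | ∀ F ∈ bcI K W, eval (fun i => (x i : K)) F = 0} with hX
  have hWX : ∀ z ∈ W, (fun i => cst k K (z i)) ∈ X := fun z hz F hF => bc_mem_I.1 hF z hz
  have hvan : vanIdeal X = bcI K W := by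
    apply le_antisymm
    · intro F hF
      rw [bc_mem_I]
      intro z hz
      exact mem_vanIdeal.1 hF _ (hWX z hz)
    · intro F hF
      rw [mem_vanIdeal]
      intro x hx
      exact hx F hF
  refine ⟨X, ⟨?_, ?_⟩, hWX, ?_, ?_⟩
  · rw [hvan]
    exact bc_prime hW.1
  · intro x hx F hF
    exact hx F (hvan ▸ hF)
  · intro B _ hB F hF
    rw [hvan, bc_mem_I']
    intro lam
    apply hB
    rw [mem_vanIdeal]
    intro z hz
    exact (bc_eval_iff F fun i => (z i : k)).1 (mem_vanIdeal.1 hF _ ⟨z, hz, rfl⟩) lam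
  · intro L L' _ _ _ _ γ γ' hγ hγ'
    rw [hvan] at hγ'
    constructor
    · unfold td
      congr 1
      ext J
      simp only [Finset.mem_filter, Finset.mem_univ, true_and]
      exact bc_indep hγ hγ' J
    · let _ : Algebra k L' := ((algebraMap K L').comp (algebraMap k K)).toAlgebra
      have : IsScalarTower k K L' := IsScalarTower.of_algebraMap_eq fun _ => rfl
      have hloc : locus k γ' = locus k γ := by
        ext f
        rw [hγ, ← bc_map_mem_I (K := K), ← hγ', mem_locus, mem_locus, aeval_map_algebraMap]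
      exact mr_eq_of_locus_eq γ γ' hloc

end Pool.Agent.Lib.MP_a325a5_ag.UL
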