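import Pool.Agent.Lib.MP_a325a5_ag.UL.Pts

/-! Decomposition of a set into pieces dense in irreducible closed sets.

Paper proof.  Let `𝔞 = vanIdeal B`, a radical ideal of a noetherian ring, `P_1..P_m` its minimal
primes (`Ideal.finite_minimalPrimes_of_isNoetherianRing`, `𝔞 = ⋂ P_l`).  Put
`B_l = {b ∈ B | P_l vanishes at b}`.  Then `vanIdeal B_l = P_l`: if `f` vanishes on `B_l` choose
`g ∈ ⋂_{j ≠ l} P_j`, `g ∉ P_l`; every `b ∈ B` is a zero of some `P_j` (the point `b` is a zero of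
`𝔞 ⊇ ∏ P_j`), so `f g` vanishes on `B`, `f g ∈ 𝔞 ≤ P_l`, `f ∈ P_l`.  Take
`W_l = {x | P_l vanishes at x}`; `P_l ≤ vanIdeal W_l ≤ vanIdeal B_l = P_l`, and
`B ∩ W_l = B_l`. -/

namespace Pool.Agent.Lib.MP_a325a5_ag.UL

open MvPolynomial

private def decV {K : Type} [Field K] {ι : Type} (P : Ideal (MvPolynomial ι K)) : Set (ι → Kˣ) :=
  {x | P ≤ locus K x}

theorem exists_decomposition {K : Type} [Field K] {ι : Type} [Fintype ι] (B : Set (ι → Kˣ)) :
    ∃ 𝒲 : Set (Set (ι → Kˣ)), 𝒲.Finite ∧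
      (∀ W ∈ 𝒲, IrrClosed W ∧ vanIdeal (B ∩ W) = vanIdeal W) ∧ B ⊆ ⋃₀ 𝒲 := by
  classical
  have hfin : (vanIdeal B).minimalPrimes.Finite :=
    Ideal.finite_minimalPrimes_of_isNoetherianRing _ _
  have hpt : ∀ b ∈ B, ∃ Q ∈ (vanIdeal B).minimalPrimes, b ∈ decV Q := by
    intro b hb
    have h1 : vanIdeal B ≤ locus K b := fun f hf => mem_locus_self.2 (hf b hb)
    exact Ideal.exists_minimalPrimes_le h1
  have hleV : ∀ P : Ideal (MvPolynomial ι K), P ≤ vanIdeal (decV P) := by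
    intro P f hf
    rw [mem_vanIdeal]
    intro x hx
    exact mem_locus_self.1 (hx hf)
  have key : ∀ P ∈ (vanIdeal B).minimalPrimes, vanIdeal (B ∩ decV P) = P := by
    intro P hP
    have hPp : P.IsPrime := hP.1.1
    apply le_antisymm
    · intro f hf
      have h1 : ∀ Q : Ideal (MvPolynomial ι K), ∃ g, (Q ∈ (vanIdeal B).minimalPrimes → Q ≠ P →
          g ∈ Q) ∧ g ∉ P := by
        intro Q
        by_cases hQ : Q ∈ (vanIdeal B).minimalPrimes ∧ Q ≠ P
        · have h2 : ¬ Q ≤ P := by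
            intro hle
            exact hQ.2 (le_antisymm hle (hP.2 hQ.1.1 hle))
          obtain ⟨g, hg1, hg2⟩ := Set.not_subset.1 h2
          exact ⟨g, fun _ _ => hg1, hg2⟩
        · refine ⟨1, fun h2 h3 => absurd ⟨h2, h3⟩ hQ, ?_⟩
          exact fun h => hPp.ne_top ((Ideal.eq_top_iff_one P).2 h)
      choose g hg1 hg2 using h1
      set G := ∏ Q ∈ hfin.toFinset.erase P, g Q with hG
      have hGP : G ∉ P := by
        intro h
        obtain ⟨Q, -, hQ⟩ := (hPp.prod_mem_iff).1 h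
        exact hg2 Q hQ
      have h3 : f * G ∈ vanIdeal B := by
        rw [mem_vanIdeal]
        intro b hb
        obtain ⟨Q, hQ, hbQ⟩ := hpt b hb
        rw [map_mul, mul_eq_zero]
        by_cases hQP : Q = P
        · left
          subst hQP
          exact (mem_vanIdeal.1 hf) b ⟨hb, hbQ⟩
        · right
          rw [hG, map_prod]
          refine Finset.prod_eq_zero (Finset.mem_erase.2 ⟨hQP, hfin.mem_toFinset.2 hQ⟩) ?_
          exact mem_locus_self.1 (hbQ (hg1 Q hQ hQP))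
      exact (hPp.mem_or_mem (hP.1.2 h3)).resolve_right hGP
    · exact (hleV P).trans (vanIdeal_anti Set.inter_subset_right)
  have hV : ∀ P ∈ (vanIdeal B).minimalPrimes, vanIdeal (decV P) = P := by
    intro P hP
    refine le_antisymm ?_ (hleV P)
    calc vanIdeal (decV P) ≤ vanIdeal (B ∩ decV P) := vanIdeal_anti Set.inter_subset_right
      _ = P := key P hP
  refine ⟨decV '' (vanIdeal B).minimalPrimes, hfin.image _, ?_, ?_⟩
  · rintro _ ⟨P, hP, rfl⟩
    refine ⟨⟨?_, ?_⟩, ?_⟩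
    · rw [hV P hP]
      exact hP.1.1
    · intro x hx f hf
      refine mem_locus_self.2 (hx f ?_)
      rw [hV P hP]
      exact hf
    · rw [key P hP, hV P hP]
  · intro b hb
    obtain ⟨Q, hQ, hbQ⟩ := hpt b hb
    exact ⟨decV Q, ⟨Q, hQ, rfl⟩, hbQ⟩

/-- An irreducible closed set covered by finitely many irreducible closed sets is contained in
one of them. -/
theorem exists_subset_of_subset_sUnion {K : Type} [Field K] {ι : Type} [Fintype ι]
    (Z : Set (ι → Kˣ)) (hZ : (vanIdeal Z).IsPrime) (𝒲 : Set (Set (ι → Kˣ))) (hf : 𝒲.Finite)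
    (hW : ∀ W ∈ 𝒲, IrrClosed W) (h : Z ⊆ ⋃₀ 𝒲) : ∃ W ∈ 𝒲, Z ⊆ W := by
  classical
  by_contra hcon
  push Not at hcon
  have h1 : ∀ W : Set (ι → Kˣ), ∃ g, (W ∈ 𝒲 → g ∈ vanIdeal W) ∧ g ∉ vanIdeal Z := by
    intro W
    by_cases hWm : W ∈ 𝒲
    · have h2 : ¬ vanIdeal W ≤ vanIdeal Z := fun hle =>
        hcon W hWm ((subset_iff (hW W hWm)).2 hle)
      obtain ⟨g, hg1, hg2⟩ := Set.not_subset.1 h2
      exact ⟨g, fun _ => hg1, hg2⟩
    · refine ⟨1, fun h2 => absurd h2 hWm, ?_⟩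
      exact fun h => hZ.ne_top ((Ideal.eq_top_iff_one _).2 h)
  choose g hg1 hg2 using h1
  have h3 : ∏ W ∈ hf.toFinset, g W ∈ vanIdeal Z := by
    rw [mem_vanIdeal]
    intro z hz
    obtain ⟨W, hWm, hzW⟩ := h hz
    rw [map_prod]
    refine Finset.prod_eq_zero (hf.mem_toFinset.2 hWm) ?_
    exact (mem_vanIdeal.1 (hg1 W hWm)) z hzW
  obtain ⟨W, -, hWZ⟩ := (hZ.prod_mem_iff).1 h3
  exact hg2 W hWZ

end Pool.Agent.Lib.MP_a325a5_ag.UL
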