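import Pool.Agent.Lib.MP_a325a5_ag.UL.HullEq
import Pool.Agent.Lib.MP_a325a5_ag.UL.Typ
import Pool.Agent.Lib.MP_a325a5_ag.UL.Dec

/-! Components of `X ∩ ⟨W⟩` and the inequality of defects.

`exists_component`: decompose `X ∩ hull W` with `exists_decomposition` (it is closed: every
`W' ∈ 𝒲` is contained in it, by `subset_iff` and `isSpecial_hull`), `W` is contained in a piece
(`exists_subset_of_subset_sUnion`); take a piece of maximal size among those containing `W`.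
If `Z ⊇ W` and `Z ⊆ hull W` then `hull Z = hull W`.

`defect_le`: `typical` with `γ = γX`, `τ = γZ`.  Hypothesis `hiso`: let `τ'` satisfy the torsion
relations of `γZ`, `Z'` the set of `exists_irrClosed τ'`; then `Z ⊆ Z' ⊆ X ∩ hull Z`
(`mem_hull_iff`, `monomial_spec`), so `Z' = Z` and `td K τ' = td K γZ` (`td_congr`). -/

namespace Pool.Agent.Lib.MP_a325a5_ag.UL

open MvPolynomial

variable {K : Type} [Field K] [IsAlgClosed K] [CharZero K] {ι : Type} [Fintype ι]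

theorem exists_component (X W : Set (ι → Kˣ)) (hX : IrrClosed X) (hW : IrrClosed W)
    (hWX : W ⊆ X) :
    ∃ Z, IrrClosed Z ∧ W ⊆ Z ∧ Z ⊆ X ∧ hull Z = hull W ∧
      ∀ Z', IrrClosed Z' → Z ⊆ Z' → Z' ⊆ X ∩ hull Z → Z' = Z := by
  obtain ⟨𝒲, hfin, h𝒲, hcov⟩ := exists_decomposition (X ∩ hull W)
  have hWB : W ⊆ X ∩ hull W := Set.subset_inter hWX (subset_hull W)
  have hsub : ∀ V ∈ 𝒲, V ⊆ X ∩ hull W := by
    intro V hV
    obtain ⟨-, hd⟩ := h𝒲 V hV
    refine Set.subset_inter ?_ ?_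
    · rw [subset_iff hX, ← hd]
      exact vanIdeal_anti (Set.inter_subset_left.trans Set.inter_subset_left)
    · rw [subset_iff (isSpecial_hull W hW).1, ← hd]
      exact vanIdeal_anti (Set.inter_subset_left.trans Set.inter_subset_right)
  obtain ⟨V₀, hV₀, hWV₀⟩ := exists_subset_of_subset_sUnion W hW.1 𝒲 hfin
    (fun V hV => (h𝒲 V hV).1) (hWB.trans hcov)
  obtain ⟨Z, hZmax⟩ := (hfin.subset (Set.sep_subset 𝒲 (fun V => W ⊆ V))).exists_maximal
    ⟨V₀, hV₀, hWV₀⟩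
  have hZ𝒲 : Z ∈ 𝒲 := hZmax.prop.1
  have hWZ : W ⊆ Z := hZmax.prop.2
  have hZB := hsub Z hZ𝒲
  have hh : hull Z = hull W := by
    apply Set.Subset.antisymm
    · exact Set.sInter_subset_of_mem
        ⟨isSpecial_hull W hW, hZB.trans Set.inter_subset_right⟩
    · exact Set.subset_sInter fun H hH =>
        Set.sInter_subset_of_mem ⟨hH.1, hWZ.trans hH.2⟩
  refine ⟨Z, (h𝒲 Z hZ𝒲).1, hWZ, hZB.trans Set.inter_subset_left, hh, ?_⟩
  intro Z' hZ' hZZ' hZ'B
  rw [hh] at hZ'B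
  obtain ⟨V, hV, hZ'V⟩ := exists_subset_of_subset_sUnion Z' hZ'.1 𝒲 hfin
    (fun V hV => (h𝒲 V hV).1) (hZ'B.trans hcov)
  have h1 : V ⊆ Z := hZmax.le_of_ge ⟨hV, (hWZ.trans hZZ').trans hZ'V⟩ (hZZ'.trans hZ'V)
  exact Set.Subset.antisymm (hZ'V.trans h1) hZZ'

theorem defect_le {L L' : Type} [Field L] [Algebra K L] [Field L'] [Algebra K L']
    (X Z : Set (ι → Kˣ)) (hX : IrrClosed X) (hZ : IrrClosed Z) (hZX : Z ⊆ X)
    (hc : ∀ Z', IrrClosed Z' → Z ⊆ Z' → Z' ⊆ X ∩ hull Z → Z' = Z)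
    (γX : ι → Lˣ) (γZ : ι → L'ˣ) (hγX : locus K γX = vanIdeal X)
    (hγZ : locus K γZ = vanIdeal Z) : mr γZ + td K γX ≤ mr γX + td K γZ := by
  apply typical γX γZ
  · rw [hγX, hγZ]
    exact vanIdeal_anti hZX
  · intro L'' _ _ τ' h1 h2 h3
    obtain ⟨Z', hZ', hv⟩ := exists_irrClosed (K := K) τ'
    have e1 : Z ⊆ Z' := by
      rw [subset_iff hZ', hv, ← hγZ]
      exact h2
    have e2 : Z' ⊆ X := by
      rw [subset_iff hX, hv, ← hγX]
      exact h1
    have e3 : Z' ⊆ hull Z := by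
      intro x hx
      rw [mem_hull_iff Z hZ γZ hγZ x]
      intro a ζ hζ ha
      have h4 := h3 a ζ hζ ha
      have h5 : locus K τ' ≤ locus K x := by
        rw [← hv]
        exact (mem_iff_le_locus hZ' x).mp hx
      have h6 := monomial_spec x τ' h5 a ζ h4
      rw [h6]
      apply Units.ext
      simp
    have e4 := hc Z' hZ' e1 (Set.subset_inter e2 e3)
    have e5 : locus K τ' = locus K γZ := by rw [← hv, e4, hγZ]
    exact (td_congr γZ τ' e5).le

end Pool.Agent.Lib.MP_a325a5_ag.UL
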