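import Pool.Agent.Lib.MP_a325a5_ag.UL.PtsDense
import Pool.Agent.Lib.MP_a325a5_ag.UL.Line
import Pool.Agent.Lib.MP_a325a5_ag.UL.BC

/-! Zilber-Pink for all subvarieties of complex tori implies the finiteness for `ℓ^D` over a
subfield `k`.

Paper proof.  `A` = the set of all points `x` of `ℓ^D` over `k` with `mr x < card D` (that is
`mr x + td < mr` of the generic point, `line_generic`).  Decompose `A ⊆ ⋃ 𝒲`
(`exists_decomposition`).  Let `W ∈ 𝒲` with generic point `γW`; `W ⊆ ℓ^D`.
Claim: `mr γW < card D + td k γW`.  Otherwise let `X` be the base change of `W` to `K`, `γX` a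
generic point: `mr γX ≥ card D + td K γX`; all points `cst z`, `z ∈ A ∩ W`, satisfy
`mr (cst z) = mr z < card D`, so `mr (cst z) + td K γX < mr γX`, and they are dense in `X`:
by `smallRank_subset_HLatyp` the set `HLatyp X` is dense in `X`, contradicting the hypothesis.
So by `exists_atypical` (applied to `ℓ^D` and `p = γW`) there is an atypical `Z_W` with
`vanIdeal Z_W ≤ vanIdeal W`, that is `W ⊆ Z_W`.  Let `M` be maximal atypical.  Its points of
small rank are in `A` and dense in `M` (`vanIdeal_smallRank_le`), so `M ⊆ W` for some `W ∈ 𝒲`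
(`exists_subset_of_subset_sUnion` applied to these points), `M ⊆ Z_W`, so `M = Z_W`.
So there are at most `card 𝒲` many. -/

namespace Pool.Agent.Lib.MP_a325a5_ag.UL

open MvPolynomial

theorem forward {k K : Type} [Field k] [IsAlgClosed k] [CharZero k] [Field K] [IsAlgClosed K]
    [CharZero K] [Algebra k K]
    (hZP : ∀ (ι : Type) [Fintype ι] (X : Set (ι → Kˣ)), IrrClosed X → ¬ DenseIn (HLatyp X) X)
    (D : Type) [Fintype D] : (MaxAtypical (lineProd k D)).Finite := by
  obtain ⟨γl, hγl, htd, hmr⟩ := line_generic k D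
  have hlirr := line_irrClosed k D
  set A : Set (D ⊕ D → kˣ) := {x | x ∈ lineProd k D ∧ mr x + td k γl < mr γl} with hA
  obtain ⟨𝒲, hfin, hW, hcov⟩ := exists_decomposition A
  have hAl : A ⊆ lineProd k D := fun x hx => hx.1
  -- every piece is contained in an atypical special subvariety
  have key : ∀ W ∈ 𝒲, ∃ Z, Atypical (lineProd k D) Z ∧ W ⊆ Z := by
    intro W hWm
    obtain ⟨hWirr, hWd⟩ := hW W hWm
    have hWl : W ⊆ lineProd k D := by
      rw [subset_iff hlirr, ← hWd]
      exact vanIdeal_anti (Set.inter_subset_left.trans hAl)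
    obtain ⟨L, _, _, γW, hγW⟩ := exists_generic W hWirr
    have hlt : mr γW + td k γl < mr γl + td k γW := by
      by_contra hcon
      push Not at hcon
      obtain ⟨X, hX, hXW, hXd, hXr⟩ := base_change (K := K) W hWirr
      obtain ⟨L', _, _, γX, hγX⟩ := exists_generic X hX
      obtain ⟨e1, e2⟩ := hXr L L' γW γX hγW hγX
      apply hZP (D ⊕ D) X hX
      have h1 := hXd (A ∩ W) Set.inter_subset_right hWd.le
      refine le_trans (vanIdeal_anti ?_) h1
      refine Set.Subset.trans ?_ (smallRank_subset_HLatyp X hX γX hγX)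
      rintro _ ⟨z, ⟨hzA, hzW⟩, rfl⟩
      refine ⟨hXW z hzW, ?_⟩
      have h2 := mr_cst (K := k) (L := K) z
      have h3 := hzA.2
      rw [h2, e1, e2]
      omega
    obtain ⟨Z, hZ, hZle⟩ := exists_atypical (lineProd k D) hlirr γl hγl γW
      (by rw [hγW]; exact (subset_iff hlirr).mp hWl) hlt
    refine ⟨Z, hZ, ?_⟩
    rw [subset_iff hZ.1.1, ← hγW]
    exact hZle
  choose! F hF1 hF2 using key
  refine (hfin.image F).subset ?_
  intro M hM
  obtain ⟨hMat, hMmax⟩ := hM
  -- the points of small rank of M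
  have h1 := vanIdeal_smallRank_le (lineProd k D) hlirr γl hγl M hMat
  set M' : Set (D ⊕ D → kˣ) := {x | x ∈ M ∧ mr x + td k γl < mr γl} with hM'
  have h2 : vanIdeal M' = vanIdeal M :=
    le_antisymm h1 (vanIdeal_anti fun x hx => hx.1)
  have h3 : M' ⊆ A := fun x hx => ⟨hMat.1.2.1 hx.1, hx.2⟩
  obtain ⟨W, hWm, hWs⟩ := exists_subset_of_subset_sUnion M' (by rw [h2]; exact hMat.1.1.1) 𝒲 hfin
    (fun W hWm => (hW W hWm).1) (h3.trans hcov)
  refine ⟨W, hWm, ?_⟩
  apply hMmax (F W) (hF1 W hWm)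
  refine Set.Subset.trans ?_ (hF2 W hWm)
  rw [subset_iff (hW W hWm).1, ← h2]
  exact vanIdeal_anti hWs

end Pool.Agent.Lib.MP_a325a5_ag.UL
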