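import Pool.Agent.Lib.MP_a325a5_ag.UL.LocSet
import Pool.Agent.Lib.MP_a325a5_ag.UL.KD
import Pool.Agent.Lib.MP_a325a5_ag.UL.MRb

/-! Torsion cosets.

Let `Λ` be a subgroup of `ℤ^ι` (as a `ℤ`-submodule) with torsion free quotient and
`H = {x | x ^ a = z ^ a for all a ∈ Λ}` the corresponding coset through the point `z`.
`H` is irreducible closed, and its dimension is the rank of the quotient.
Paper proof.  Choose a complement: `ℤ^ι = Λ ⊕ M`, `M` free of rank `r` with basis `m_1..m_r`
(the quotient is free, so the sequence splits); write the standard basis vectors as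
`e_i = λ_i + ∑ A_ij m_j`.  Then `x ∈ H` iff `x_i = z_i ∏ j, s_j ^ A_ij` for some `s ∈ (Kˣ)^r`
(take `s_j = (x/z) ^ (m_j)`).  So `vanIdeal H` is the kernel of `K[x] → K(s)`,
`x_i ↦ z_i s^(A_i)` (`K` is infinite), that is the locus of a point `p` with coordinates in the
field `K(s)`; `K(s)` is algebraic over `K(p)` (the `s_j` are monomials in the `p_i / z_i`) so
`td K p = r`; `zdim_eq`. -/

namespace Pool.Agent.Lib.MP_a325a5_ag.UL

open MvPolynomial

private theorem HullA_zpow_sum {G ι : Type} [CommGroup G] (s : Finset ι) (g : G) (c : ι → ℤ) :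
    ∏ i ∈ s, g ^ c i = g ^ ∑ i ∈ s, c i := by
  classical
  induction s using Finset.induction_on with
  | empty => simp
  | insert a s ha ih => rw [Finset.prod_insert ha, Finset.sum_insert ha, zpow_add, ih]

/-- monomials in monomials -/
private theorem HullA_mono {G ι κ : Type} [CommGroup G] [Fintype ι] [Fintype κ] (σ : κ → G)
    (A : ι → κ → ℤ) (a : ι → ℤ) :
    ∏ i, (∏ l, σ l ^ A i l) ^ a i = ∏ l, σ l ^ ∑ i, a i * A i l := by
  have h1 : ∏ i, (∏ l, σ l ^ A i l) ^ a i = ∏ i, ∏ l, σ l ^ (a i * A i l) := by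
    refine Finset.prod_congr rfl fun i _ => ?_
    rw [← Finset.prod_zpow]
    refine Finset.prod_congr rfl fun l _ => ?_
    rw [← zpow_mul, mul_comm]
  rw [h1, Finset.prod_comm]
  exact Finset.prod_congr rfl fun l _ => HullA_zpow_sum _ _ _

private theorem HullA_prod_ite {G ι : Type} [CommGroup G] [Fintype ι] [DecidableEq ι] (w : ι → G)
    (i : ι) : ∏ j, w j ^ (if i = j then (1 : ℤ) else 0) = w i := by
  rw [Finset.prod_eq_single i]
  · simp
  · intro j _ hj
    rw [if_neg (fun h => hj h.symm), zpow_zero]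
  · intro h
    exact absurd (Finset.mem_univ i) h

private theorem HullA_alg {K L κ : Type} [Field K] [Field L] [Algebra K L] [Fintype κ]
    (R : Subalgebra K L) (u : κ → L) (e : κ → ℤ) (h : ∀ l, IsAlgebraic R (u l)) :
    IsAlgebraic R (∏ l, u l ^ e l) := by
  classical
  have h1 : ∀ l, IsAlgebraic R (u l ^ e l) := by
    intro l
    obtain ⟨n, hn⟩ := Int.eq_nat_or_neg (e l)
    rcases hn with hn | hn
    · rw [hn, zpow_natCast]
      exact (h l).pow n
    · rw [hn, zpow_neg, zpow_natCast]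
      exact ((h l).pow n).inv
  have h2 : ∀ s : Finset κ, IsAlgebraic R (∏ l ∈ s, u l ^ e l) := by
    intro s
    induction s using Finset.induction_on with
    | empty =>
      rw [Finset.prod_empty]
      exact isAlgebraic_one
    | insert a s ha ih =>
      rw [Finset.prod_insert ha]
      exact (h1 a).mul ih
  exact h2 _

/-- the data of a saturated lattice -/
private theorem HullA_data {ι : Type} [Fintype ι] [DecidableEq ι] (Λ : Submodule ℤ (ι → ℤ))
    (hΛ : ∀ (n : ℤ) (a : ι → ℤ), n ≠ 0 → n • a ∈ Λ → a ∈ Λ) :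
    ∃ (r : ℕ) (A : ι → Fin r → ℤ) (m : Fin r → ι → ℤ),
      Module.finrank ℤ ((ι → ℤ) ⧸ Λ) = r ∧ (∀ a ∈ Λ, ∀ l, ∑ i, a i * A i l = 0) ∧
      (∀ j l, ∑ i, m j i * A i l = if j = l then 1 else 0) ∧
      (∀ i, (fun j => (if i = j then (1 : ℤ) else 0) - ∑ l, A i l * m l j) ∈ Λ) := by
  have htf : Module.IsTorsionFree ℤ ((ι → ℤ) ⧸ Λ) := by
    constructor
    intro n hn x y hxy
    have hn0 : n ≠ 0 := hn.ne_zero
    have hxy' : n • x = n • y := hxy
    obtain ⟨x, rfl⟩ := Λ.mkQ_surjective x
    obtain ⟨y, rfl⟩ := Λ.mkQ_surjective y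
    rw [← map_smul, ← map_smul, Submodule.mkQ_apply, Submodule.mkQ_apply,
      Submodule.Quotient.eq, ← smul_sub] at hxy'
    rw [Submodule.mkQ_apply, Submodule.mkQ_apply, Submodule.Quotient.eq]
    exact hΛ n _ hn0 hxy'
  have hfree : Module.Free ℤ ((ι → ℤ) ⧸ Λ) := Module.free_of_finite_type_torsion_free'
  let b := Module.finBasis ℤ ((ι → ℤ) ⧸ Λ)
  let A : ι → Fin (Module.finrank ℤ ((ι → ℤ) ⧸ Λ)) → ℤ :=
    fun i l => b.repr (Λ.mkQ (fun j => if i = j then 1 else 0)) l
  have hA : ∀ (a : ι → ℤ) l, ∑ i, a i * A i l = b.repr (Λ.mkQ a) l := by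
    intro a l
    have h1 := LinearMap.pi_apply_eq_sum_univ Λ.mkQ a
    rw [h1, map_sum, Finsupp.finsetSum_apply]
    refine Finset.sum_congr rfl fun i _ => ?_
    rw [map_smul, Finsupp.smul_apply, smul_eq_mul]
  choose m hm using fun l => Λ.mkQ_surjective (b l)
  refine ⟨_, A, m, rfl, fun a ha l => ?_, fun j l => ?_, fun i => ?_⟩
  · rw [hA, Submodule.mkQ_apply, (Submodule.Quotient.mk_eq_zero Λ).2 ha, map_zero,
      Finsupp.zero_apply]
  · rw [hA, hm, Module.Basis.repr_self, Finsupp.single_apply]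
  · rw [← Submodule.Quotient.mk_eq_zero Λ, ← Submodule.mkQ_apply]
    have h1 : (fun j => (if i = j then (1 : ℤ) else 0) - ∑ l, A i l * m l j) =
        (fun j => if i = j then (1 : ℤ) else 0) - ∑ l, A i l • m l := by
      funext j
      rw [Pi.sub_apply, Finset.sum_apply]
      rfl
    rw [h1, map_sub, map_sum]
    have h2 : ∑ l, Λ.mkQ (A i l • m l) = ∑ l, A i l • b l := by
      refine Finset.sum_congr rfl fun l _ => ?_
      rw [map_smul, hm]
    rw [h2, sub_eq_zero]
    exact (b.sum_repr _).symm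

theorem coset_irrClosed {K : Type} [Field K] [IsAlgClosed K] [CharZero K] {ι : Type} [Fintype ι]
    (Λ : Submodule ℤ (ι → ℤ)) (hΛ : ∀ (n : ℤ) (a : ι → ℤ), n ≠ 0 → n • a ∈ Λ → a ∈ Λ)
    (z : ι → Kˣ) :
    IrrClosed {x : ι → Kˣ | ∀ a ∈ Λ, ∏ i, x i ^ a i = ∏ i, z i ^ a i} ∧
      zdim {x : ι → Kˣ | ∀ a ∈ Λ, ∏ i, x i ^ a i = ∏ i, z i ^ a i} =
        (Module.finrank ℤ ((ι → ℤ) ⧸ Λ) : WithBot ℕ∞) := by
  classical
  obtain ⟨r, A, m, hr, hA1, hA2, hA3⟩ := HullA_data Λ hΛ
  rw [hr]
  set H : Set (ι → Kˣ) := {x : ι → Kˣ | ∀ a ∈ Λ, ∏ i, x i ^ a i = ∏ i, z i ^ a i} with hH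
  let L := FractionRing (MvPolynomial (Fin r) K)
  have hinj : Function.Injective (algebraMap (MvPolynomial (Fin r) K) L) :=
    IsFractionRing.injective _ _
  have hX : ∀ l : Fin r, algebraMap (MvPolynomial (Fin r) K) L (X l) ≠ 0 := by
    intro l h
    rw [map_eq_zero_iff _ hinj] at h
    exact MvPolynomial.X_ne_zero l h
  let σ : Fin r → Lˣ := fun l => Units.mk0 _ (hX l)
  have hσ : AlgebraicIndependent K (fun l => (σ l : L)) := by
    have h1 := (MvPolynomial.algebraicIndependent_X (Fin r) K).map'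
      (f := IsScalarTower.toAlgHom K (MvPolynomial (Fin r) K) L) hinj
    exact h1
  have hlocσ : locus K σ = ⊥ := by
    rw [eq_bot_iff]
    intro f hf
    rw [mem_locus] at hf
    rw [Ideal.mem_bot]
    exact (algebraicIndependent_iff.1 hσ) f hf
  let γ : ι → Lˣ := fun i => cst K L (z i) * ∏ l, σ l ^ A i l
  -- monomials of γ
  have hγ : ∀ a ∈ Λ, ∏ i, γ i ^ a i = cst K L (∏ i, z i ^ a i) := by
    intro a ha
    have h1 : ∏ i, γ i ^ a i = (∏ i, (cst K L (z i)) ^ a i) * ∏ i, (∏ l, σ l ^ A i l) ^ a i := by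
      rw [← Finset.prod_mul_distrib]
      exact Finset.prod_congr rfl fun i _ => mul_zpow _ _ _
    rw [h1, HullA_mono]
    have h2 : ∏ l, σ l ^ ∑ i, a i * A i l = 1 := by
      refine Finset.prod_eq_one fun l _ => ?_
      rw [hA1 a ha l, zpow_zero]
    rw [h2, mul_one, map_prod]
    exact Finset.prod_congr rfl fun i _ => (map_zpow _ _ _).symm
  obtain ⟨Z, hZ, hZloc⟩ := exists_irrClosed (K := K) γ
  have hZH : Z = H := by
    apply Set.Subset.antisymm
    · intro x hx a ha
      have h1 : locus K γ ≤ locus K x := by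
        rw [← hZloc]
        exact (mem_iff_le_locus hZ x).1 hx
      have h2 := monomial_spec x γ h1 a _ (hγ a ha)
      rw [h2]
      apply Units.ext
      rw [cst_val]
      rfl
    · intro x hx
      rw [mem_iff_le_locus hZ x, hZloc]
      -- parametrisation
      let w : ι → Kˣ := fun i => x i / z i
      let s : Fin r → Kˣ := fun l => ∏ i, w i ^ m l i
      have hs : ∀ i, w i = ∏ l, s l ^ A i l := by
        intro i
        have h1 : ∏ l, s l ^ A i l = ∏ j, w j ^ ∑ l, A i l * m l j := HullA_mono w m (A i)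
        have h2 := hx _ (hA3 i)
        have h3 : ∏ j, w j ^ ((if i = j then (1 : ℤ) else 0) - ∑ l, A i l * m l j) = 1 := by
          have h4 : ∏ j, w j ^ ((if i = j then (1 : ℤ) else 0) - ∑ l, A i l * m l j) =
              (∏ j, x j ^ ((if i = j then (1 : ℤ) else 0) - ∑ l, A i l * m l j)) /
                ∏ j, z j ^ ((if i = j then (1 : ℤ) else 0) - ∑ l, A i l * m l j) := by
            rw [← Finset.prod_div_distrib]
            exact Finset.prod_congr rfl fun j _ => div_zpow _ _ _
          rw [h4, h2, div_self']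
        have h5 : ∏ j, w j ^ ((if i = j then (1 : ℤ) else 0) - ∑ l, A i l * m l j) =
            w i / ∏ j, w j ^ ∑ l, A i l * m l j := by
          rw [← HullA_prod_ite w i, ← Finset.prod_div_distrib]
          refine Finset.prod_congr rfl fun j _ => ?_
          rw [zpow_sub, ← div_eq_mul_inv]
        rw [h1]
        rw [h5, div_eq_one] at h3
        exact h3
      have h1 := locus_monomial_le s σ (by rw [hlocσ]; exact bot_le) A z
      have h2 : (fun j => cst K K (z j) * ∏ l, s l ^ A j l) = x := by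
        funext i
        rw [← hs i]
        have h3 : cst K K (z i) = z i := by
          apply Units.ext
          rw [cst_val]
          rfl
        rw [h3]
        exact mul_div_cancel _ _
      rw [h2] at h1
      exact h1
  rw [← hZH]
  refine ⟨hZ, ?_⟩
  rw [zdim_eq Z γ hZloc.symm]
  have hle : td K γ ≤ r := by
    have h1 := td_le_card_of_algebraic (K := K) γ (fun l => (σ l : L)) (fun i => by
      have h2 : ((γ i : Lˣ) : L) = algebraMap K L (z i : K) * ∏ l, (σ l : L) ^ A i l := by
        show ((cst K L (z i) * ∏ l, σ l ^ A i l : Lˣ) : L) = _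
        rw [Units.val_mul, cst_val, Units.coe_prod]
        congr 1
        exact Finset.prod_congr rfl fun l _ => Units.val_zpow_eq_zpow_val _ _
      rw [h2]
      refine IsAlgebraic.mul ?_ ?_
      · rw [IsScalarTower.algebraMap_apply K (Algebra.adjoin K (Set.range fun l => (σ l : L))) L]
        exact isAlgebraic_algebraMap _
      · refine HullA_alg _ _ _ fun l => ?_
        exact isAlgebraic_algebraMap
          (⟨(σ l : L), Algebra.subset_adjoin ⟨l, rfl⟩⟩ :
            Algebra.adjoin K (Set.range fun l => (σ l : L))))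
    rwa [Fintype.card_fin] at h1
  have hge : r ≤ td K γ := by
    have h1 := le_td (K := K) γ (fun l => (σ l : L)) hσ (fun j => by
      have h2 : σ j = ∏ i, (γ i * (cst K L (z i))⁻¹) ^ m j i := by
        have h3 : ∀ i, γ i * (cst K L (z i))⁻¹ = ∏ l, σ l ^ A i l := by
          intro i
          show cst K L (z i) * (∏ l, σ l ^ A i l) * (cst K L (z i))⁻¹ = _
          rw [mul_comm, inv_mul_cancel_left]
        simp only [h3]
        rw [HullA_mono]
        simp only [hA2]
        exact (HullA_prod_ite σ j).symm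
      have h4 : ((σ j : Lˣ) : L) = ∏ i, (((γ i : Lˣ) : L) * (algebraMap K L (z i : K))⁻¹) ^ m j i := by
        conv_lhs => rw [h2]
        rw [Units.coe_prod]
        refine Finset.prod_congr rfl fun i _ => ?_
        rw [Units.val_zpow_eq_zpow_val, Units.val_mul, Units.val_inv_eq_inv_val, cst_val]
      rw [h4]
      refine HullA_alg _ _ _ fun i => IsAlgebraic.mul ?_ (IsAlgebraic.inv ?_)
      · exact isAlgebraic_algebraMap
          (⟨((γ i : Lˣ) : L), Algebra.subset_adjoin ⟨i, rfl⟩⟩ :
            Algebra.adjoin K (Set.range fun i => ((γ i : Lˣ) : L)))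
      · rw [IsScalarTower.algebraMap_apply K
          (Algebra.adjoin K (Set.range fun i => ((γ i : Lˣ) : L))) L]
        exact isAlgebraic_algebraMap _)
    rwa [Fintype.card_fin] at h1
  rw [le_antisymm hle hge]

end Pool.Agent.Lib.MP_a325a5_ag.UL
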