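import Pool.Agent.Lib.MP_a325a5_ag.UL.Pts

/-! Encoding of systems of equations by the equation `t + (1 - t) = 1`.

A system `S` on the index set `I` consists of finitely many relations `b ∈ B`, each a list of
`m b + 1` signed monomials in the variables `y_i`, `i ∈ I`; its value is the sum of all terms.

A configuration over the ring `A` consists of units `y_i`, `a_0 i`, `a_1 i = a_0 i + 1`,
`a_2 i = a_1 i + y_i` and, for each relation `b`, a cyclic chain `s_b k` of units
(`k ∈ Fin (m b + 1)`, cyclic addition) with `s_b (k + 1) = s_b k + term_b k`.  Its existence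
forces all relations to hold.  Each of the equations is written as `t + (1 - t) = 1`, where `t` is
the quotient of two units. -/

namespace Pool.Agent.Lib.MP_a325a5_ag.UL

open MvPolynomial

/-- A finite system of vanishing sums of signed monomials in the variables `I`. -/
structure Sys (I : Type) where
  /-- the relations -/
  B : Type
  /-- finitely many relations -/
  fB : Fintype B
  /-- number of terms minus one -/
  m : B → ℕ
  /-- signs of the terms -/
  ε : ∀ b, Fin (m b + 1) → ℤˣ
  /-- exponents of the terms -/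
  α : ∀ b, Fin (m b + 1) → I → ℕ

attribute [instance] Sys.fB

variable {I : Type} [Fintype I] (S : Sys I)

/-- The sign `ε` as a unit of the ring `A`. -/
def sgnUnit (A : Type) [CommRing A] (ε : ℤˣ) : Aˣ := Units.map (Int.castRingHom A : ℤ →* A) ε

/-- The `k`-th term of the relation `b` at the point `y`. -/
def Sys.term {A : Type} [CommRing A] (y : I → Aˣ) (b : S.B) (k : Fin (S.m b + 1)) : Aˣ :=
  sgnUnit A (S.ε b k) * ∏ i, y i ^ S.α b k i

/-- The value of the relation `b` at the point `y`. -/
def Sys.rel {A : Type} [CommRing A] (y : I → Aˣ) (b : S.B) : A :=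
  ∑ k, (S.term y b k : A)

/-- The partial sum of the terms before `k`. -/
def Sys.part {A : Type} [CommRing A] (y : I → Aˣ) (b : S.B) (k : Fin (S.m b + 1)) : A :=
  ∑ l ∈ Finset.univ.filter (fun l => l < k), (S.term y b l : A)

/-- Configurations of units. -/
structure Config (A : Type) [CommRing A] where
  /-- the base point -/
  y : I → Aˣ
  /-- the three nodes `u`, `u + 1`, `u + 1 + y` -/
  a : Fin 3 → I → Aˣ
  /-- the chains -/
  s : ∀ b : S.B, Fin (S.m b + 1) → Aˣ
  ha1 : ∀ i, (a 1 i : A) = a 0 i + 1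
  ha2 : ∀ i, (a 2 i : A) = a 1 i + y i
  hs : ∀ b k, (s b (k + 1) : A) = s b k + S.term y b k

/-- The index set of the equations. -/
abbrev Sys.D : Type := (I ⊕ I) ⊕ (Σ b : S.B, Fin (S.m b + 1))

/-- The index set of all variables. -/
abbrev Sys.V : Type := (I ⊕ (Fin 3 × I)) ⊕ (Σ b : S.B, Fin (S.m b + 1))

variable {S}

/-- The numerators `t` and `1 - t` of all equations. -/
def Config.pt {A : Type} [CommRing A] (v : Config S A) : S.D ⊕ S.D → Aˣ
  | Sum.inl (Sum.inl (Sum.inl i)) => v.a 0 i / v.a 1 i
  | Sum.inr (Sum.inl (Sum.inl i)) => 1 / v.a 1 i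
  | Sum.inl (Sum.inl (Sum.inr i)) => v.a 1 i / v.a 2 i
  | Sum.inr (Sum.inl (Sum.inr i)) => v.y i / v.a 2 i
  | Sum.inl (Sum.inr ⟨b, k⟩) => v.s b k / v.s b (k + 1)
  | Sum.inr (Sum.inr ⟨b, k⟩) => S.term v.y b k / v.s b (k + 1)

/-- All units of a configuration as one tuple. -/
def Config.all {A : Type} [CommRing A] (v : Config S A) : S.V → Aˣ
  | Sum.inl (Sum.inl i) => v.y i
  | Sum.inl (Sum.inr (j, i)) => v.a j i
  | Sum.inr ⟨b, k⟩ => v.s b k

private theorem sys_div_add {A : Type} [CommRing A] (x y z : Aˣ) (h : (z : A) = x + y) :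
    ((x / z : Aˣ) : A) + ((y / z : Aˣ) : A) = 1 := by
  rw [div_eq_mul_inv, div_eq_mul_inv, Units.val_mul, Units.val_mul, ← add_mul, ← h,
    Units.mul_inv]

theorem Config.pt_add {A : Type} [CommRing A] (v : Config S A) (e : S.D) :
    (v.pt (Sum.inl e) : A) + v.pt (Sum.inr e) = 1 := by
  rcases e with (i | i) | ⟨b, k⟩
  · exact sys_div_add _ _ _ (by rw [v.ha1, Units.val_one])
  · exact sys_div_add _ _ _ (v.ha2 i)
  · exact sys_div_add _ _ _ (v.hs b k)

theorem Config.rel_eq_zero {A : Type} [CommRing A] (v : Config S A) (b : S.B) :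
    S.rel v.y b = 0 := by
  unfold Sys.rel
  have h1 : ∀ k, (S.term v.y b k : A) = (v.s b (k + 1) : A) - v.s b k := by
    intro k
    rw [v.hs b k]
    ring
  rw [Finset.sum_congr rfl (fun k _ => h1 k), Finset.sum_sub_distrib]
  have h2 := Equiv.sum_comp (Equiv.addRight (1 : Fin (S.m b + 1))) (fun k => (v.s b k : A))
  simp only [Equiv.coe_addRight] at h2
  rw [h2, sub_self]

/-- The cardinality of the index set. -/
theorem Sys.card_D (S : Sys I) :
    Fintype.card S.D = 2 * Fintype.card I + ∑ b : S.B, (S.m b + 1) := by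
  simp only [Sys.D, Fintype.card_sum, Fintype.card_sigma, Fintype.card_fin]
  omega

theorem Sys.card_V (S : Sys I) :
    Fintype.card S.V = 4 * Fintype.card I + ∑ b : S.B, (S.m b + 1) := by
  simp only [Sys.V, Fintype.card_sum, Fintype.card_sigma, Fintype.card_fin, Fintype.card_prod]
  omega

end Pool.Agent.Lib.MP_a325a5_ag.UL
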