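import Pool.Agent.Lib.MP_a325a5_ag.UL.TorsH
import Pool.Agent.Lib.MP_a325a5_ag.UL.MRloc

/-! Specialisation of a transcendence basis of a point to roots of unity.

Paper proof.  Apply `exists_hom` to the subalgebra `R = K[p, 1/p] ⊆ L` (or to
`K[x] / locus K p`, with `f` multiplied by the product of all coordinates), a transcendence basis
among the coordinates (`td_spec`), and the nonzero element `f(p)`.  Put `x i = ψ(p i)`.  The rank:
`mr_add_card_le` with `q = p`, the hypothesis by `monomial_spec_one`, and
`mul_indep_of_algebraicIndependent`. -/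

namespace Pool.Agent.Lib.MP_a325a5_ag.UL

open MvPolynomial

/-- Transfer of algebraicity to a subalgebra. -/
private theorem tors_alg {K L : Type} [Field K] [Field L] [Algebra K L] (R : Subalgebra K L)
    {J : Type} (x : J → R) (r : R)
    (h : IsAlgebraic (Algebra.adjoin K (Set.range fun j => (x j : L))) (r : L)) :
    IsAlgebraic (Algebra.adjoin K (Set.range x)) r := by
  have hinj : Function.Injective R.val := Subtype.val_injective
  have hmap : (Algebra.adjoin K (Set.range x)).map R.val =
      Algebra.adjoin K (Set.range fun j => (x j : L)) := by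
    rw [AlgHom.map_adjoin]
    congr 1
    rw [← Set.range_comp]
    rfl
  rw [← hmap] at h
  refine IsAlgebraic.of_ringHom_of_comp_eq
    (f := ((Algebra.adjoin K (Set.range x)).equivMapOfInjective R.val hinj : _ →+* _))
    (g := (R.val : R →+* L)) h ?_ hinj ?_
  · exact ((Algebra.adjoin K (Set.range x)).equivMapOfInjective R.val hinj).surjective
  · ext a
    rfl

theorem exists_torsion_point {K L : Type} [Field K] [IsAlgClosed K] [CharZero K] [Field L]
    [Algebra K L] {ι : Type} [Fintype ι] (p : ι → Lˣ) (f : MvPolynomial ι K)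
    (hf : f ∉ locus K p) :
    ∃ x : ι → Kˣ, locus K p ≤ locus K x ∧ f ∉ locus K x ∧ mr x + td K p ≤ mr p := by
  classical
  obtain ⟨J, hJ, hJc, hJa⟩ := td_spec (K := K) p
  set T : Set L := Set.range (fun i => (p i : L)) ∪ Set.range (fun i => ((p i)⁻¹ : Lˣ).val)
    with hTdef
  have hTfin : T.Finite := (Set.finite_range _).union (Set.finite_range _)
  set R : Subalgebra K L := Algebra.adjoin K T with hR
  have hft : Algebra.FiniteType K R := Algebra.FiniteType.adjoin_of_finite hTfin
  have hpR : ∀ i, (p i : L) ∈ R := fun i =>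
    Algebra.subset_adjoin (Or.inl ⟨i, rfl⟩)
  have hqR : ∀ i, ((p i)⁻¹ : Lˣ).val ∈ R := fun i =>
    Algebra.subset_adjoin (Or.inr ⟨i, rfl⟩)
  set P : ι → R := fun i => ⟨p i, hpR i⟩ with hP
  set Q : ι → R := fun i => ⟨((p i)⁻¹ : Lˣ).val, hqR i⟩ with hQ
  have hPQ : ∀ i, P i * Q i = 1 := by
    intro i
    apply Subtype.ext
    change (p i : L) * ((p i)⁻¹ : Lˣ).val = 1
    rw [Units.mul_inv]
  set x : J → R := fun j => P j with hx
  have hxi : AlgebraicIndependent K x := AlgebraicIndependent.of_comp R.val hJ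
  have himg : ((fun j => (p j : L)) '' (J : Set ι)) = Set.range fun j : J => ((x j : R) : L) := by
    ext z
    constructor
    · rintro ⟨j, hj, rfl⟩
      exact ⟨⟨j, hj⟩, rfl⟩
    · rintro ⟨j, rfl⟩
      exact ⟨j, j.2, rfl⟩
  have halg : ∀ r : R, IsAlgebraic (Algebra.adjoin K (Set.range x)) r := by
    intro r
    apply tors_alg
    rw [← himg]
    have hr : (r : L) ∈ Algebra.adjoin K T := r.2
    refine Algebra.adjoin_induction
      (p := fun z _ => IsAlgebraic (Algebra.adjoin K ((fun j => (p j : L)) '' (J : Set ι))) z)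
      ?_ ?_ ?_ ?_ hr
    · rintro z (⟨i, rfl⟩ | ⟨i, rfl⟩)
      · exact hJa i
      · change IsAlgebraic _ ((p i)⁻¹ : Lˣ).val
        rw [Units.val_inv_eq_inv_val]
        exact (hJa i).inv
    · intro c
      exact isAlgebraic_algebraMap (R := Algebra.adjoin K ((fun j => (p j : L)) '' (J : Set ι)))
        (A := L) (algebraMap K _ c)
    · intro a b _ _ ha hb
      exact ha.add hb
    · intro a b _ _ ha hb
      exact ha.mul hb
  have hval : ∀ g : MvPolynomial ι K, ((aeval P g : R) : L) = aeval (fun i => (p i : L)) g := by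
    intro g
    have := MvPolynomial.comp_aeval_apply (R := K) (f := P) R.val g
    exact this
  have hF0 : (aeval P f : R) ≠ 0 := by
    intro h0
    apply hf
    rw [mem_locus, ← hval, h0]
    rfl
  obtain ⟨ψ, hψ1, hψ2⟩ := exists_hom x hxi halg (aeval P f) hF0
  set y : ι → Kˣ := fun i => ⟨ψ (P i), ψ (Q i), by rw [← map_mul, hPQ, map_one],
    by rw [mul_comm, ← map_mul, hPQ, map_one]⟩ with hy
  have hyv : ∀ g : MvPolynomial ι K, eval (fun i => (y i : K)) g = ψ (aeval P g) := by
    intro g
    rw [MvPolynomial.comp_aeval_apply, ← MvPolynomial.coe_aeval_eq_eval]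
    rfl
  have hle : locus K p ≤ locus K y := by
    intro g hg
    rw [mem_locus_self, hyv]
    rw [mem_locus, ← hval] at hg
    have : (aeval P g : R) = 0 := Subtype.ext hg
    rw [this, map_zero]
  refine ⟨y, hle, ?_, ?_⟩
  · rw [mem_locus_self, hyv]
    exact hψ1
  · rw [← hJc]
    apply mr_add_card_le y p (fun a => monomial_spec_one y p hle a) J
    · intro j hj
      obtain ⟨N, hN, hN1⟩ := hψ2 ⟨j, hj⟩
      rw [isOfFinOrder_iff_pow_eq_one]
      refine ⟨N, hN, ?_⟩
      apply Units.ext
      rw [Units.val_pow_eq_pow_val, Units.val_one]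
      exact hN1
    · intro a ha h1
      exact mul_indep_of_algebraicIndependent p J hJ a ha h1

end Pool.Agent.Lib.MP_a325a5_ag.UL
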