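import Pool.Agent.Lib.MP_a325a5_ag.UL.TDloc

/-! Homomorphisms to `K` sending a transcendence basis to roots of unity.

Paper proof.  `R` is a finitely generated domain over the algebraically closed field `K`, `x_j` a
transcendence basis (finite), `f ≠ 0`.  Every generator `r` of `R[1/f]` is algebraic over `K[x]`:
`b_r r^m + ... = 0` with `b_r ∈ K[x]` nonzero.  With `g = ∏ b_r ∈ K[x]`, `R[1/f][1/g]` is integral
over `K[x][1/g]`.  Choose roots of unity `ζ_j` with `g(ζ) ≠ 0` (infinitely many roots of unity,
`MvPolynomial.funext_set` or an induction).  The homomorphism `K[x][1/g] → K` extends to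
`R[1/f][1/g]`: lying over (`Ideal.exists_ideal_over_maximal_of_isIntegral`), and the residue field
is algebraic over `K`, hence `K` (`IsAlgClosed.algebraMap_bijective_of_isIntegral`).
Variant without localization: let `A = K[x]`, `m = ker (A → K, x ↦ ζ)`; the element `f` satisfies
an equation `b_0 + b_1 f + .. + b_m f^m = 0` with `b_0 ≠ 0` in `A`, and `R` is generated by
`r_1..r_n` that are integral over `A[1/g]`; a maximal ideal of `R[1/g]` over `m` does not contain
`f` if `b_0(ζ) ≠ 0`. -/

namespace Pool.Agent.Lib.MP_a325a5_ag.UL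

open MvPolynomial

private lemma torsH_infinite (K : Type) [Field K] [IsAlgClosed K] [CharZero K] :
    {z : K | ∃ N : ℕ, 0 < N ∧ z ^ N = 1}.Infinite := by
  have h : ∀ n : ℕ, ∃ z : K, IsPrimitiveRoot z (n + 1) := fun n =>
    HasEnoughRootsOfUnity.exists_primitiveRoot K (n + 1)
  choose z hz using h
  refine Set.infinite_of_injective_forall_mem (f := z) ?_ fun n => ⟨n + 1, Nat.succ_pos n,
    (hz n).pow_eq_one⟩
  intro m n hmn
  have h1 := hz m
  rw [hmn] at h1
  have := h1.unique (hz n)
  omega

private lemma torsH_point {K : Type} [Field K] [IsAlgClosed K] [CharZero K] {J : Type} [Fintype J]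
    {g : MvPolynomial J K} (hg : g ≠ 0) :
    ∃ ζ : J → K, (∀ j, ∃ N : ℕ, 0 < N ∧ ζ j ^ N = 1) ∧ eval ζ g ≠ 0 := by
  by_contra hcon
  push Not at hcon
  apply hg
  refine funext_set (fun _ : J => {z : K | ∃ N : ℕ, 0 < N ∧ z ^ N = 1})
    (fun _ => torsH_infinite K) fun ζ hζ => ?_
  rw [map_zero]
  exact hcon ζ fun j => hζ j (Set.mem_univ j)

/-- A homomorphism at a closed point of `Spec A` extends to an integral extension. -/
private lemma torsH_integral {K A B : Type} [Field K] [IsAlgClosed K] [CommRing A] [Algebra K A]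
    [CommRing B] [Algebra A B] [Algebra K B] [IsScalarTower K A B] [Algebra.IsIntegral A B]
    (hinj : Function.Injective (algebraMap A B)) (ev : A →ₐ[K] K) :
    ∃ Φ : B →ₐ[K] K, ∀ a, Φ (algebraMap A B a) = ev a := by
  have hm : (RingHom.ker (ev : A →+* K)).IsMaximal :=
    RingHom.ker_isMaximal_of_surjective _ fun c => ⟨algebraMap K A c, by
      change ev (algebraMap K A c) = c
      rw [ev.commutes]
      rfl⟩
  obtain ⟨Q, hQ, hQc⟩ := Ideal.exists_ideal_over_maximal_of_isIntegral (S := B)
    (RingHom.ker (ev : A →+* K)) (by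
      rw [(RingHom.injective_iff_ker_eq_bot _).1 hinj]
      exact bot_le)
  let _ : Field (B ⧸ Q) := Ideal.Quotient.field Q
  have hfac : ∀ a : A, Ideal.Quotient.mk Q (algebraMap A B a) =
      algebraMap K (B ⧸ Q) (ev a) := by
    intro a
    have h1 : algebraMap K (B ⧸ Q) (ev a) =
        Ideal.Quotient.mk Q (algebraMap A B (algebraMap K A (ev a))) := by
      rw [← IsScalarTower.algebraMap_apply K A B]
      rfl
    rw [h1, Ideal.Quotient.eq, ← map_sub, ← Ideal.mem_comap, hQc, RingHom.mem_ker]
    change ev (a - algebraMap K A (ev a)) = 0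
    rw [map_sub, ev.commutes]
    exact sub_self _
  have hint : Algebra.IsIntegral K (B ⧸ Q) := by
    refine ⟨fun z => ?_⟩
    obtain ⟨b, rfl⟩ := Ideal.Quotient.mk_surjective z
    obtain ⟨p, hp, hpb⟩ := Algebra.IsIntegral.isIntegral (R := A) b
    refine ⟨p.map (ev : A →+* K), hp.map _, ?_⟩
    have h2 : Polynomial.eval₂ (algebraMap K (B ⧸ Q)) (Ideal.Quotient.mk Q b)
        (p.map (ev : A →+* K)) = Ideal.Quotient.mk Q (Polynomial.eval₂ (algebraMap A B) b p) := by
      rw [Polynomial.eval₂_map, Polynomial.hom_eval₂]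
      congr 1
      ext a
      exact (hfac a).symm
    rw [h2, hpb, map_zero]
  have halg : Algebra.IsAlgebraic K (B ⧸ Q) := inferInstance
  let lam : (B ⧸ Q) →ₐ[K] K := IsAlgClosed.lift
  refine ⟨lam.comp (Ideal.Quotient.mkₐ K Q), fun a => ?_⟩
  change lam (Ideal.Quotient.mk Q (algebraMap A B a)) = ev a
  rw [hfac, lam.commutes]
  rfl

theorem exists_hom {K R : Type} [Field K] [IsAlgClosed K] [CharZero K] [CommRing R] [IsDomain R]
    [Algebra K R] [Algebra.FiniteType K R] {J : Type} [Fintype J] (x : J → R)
    (hx : AlgebraicIndependent K x)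
    (hx' : ∀ r : R, IsAlgebraic (Algebra.adjoin K (Set.range x)) r) (f : R) (hf : f ≠ 0) :
    ∃ ψ : R →ₐ[K] K, ψ f ≠ 0 ∧ ∀ j, ∃ N : ℕ, 0 < N ∧ ψ (x j) ^ N = 1 := by
  classical
  let A := MvPolynomial J K
  let φ : A →ₐ[K] R := aeval x
  have hφ : Function.Injective φ := hx
  let F := FractionRing R
  let _ : Algebra A R := φ.toRingHom.toAlgebra
  have hARF : IsScalarTower A R F := inferInstance
  have hKAR : IsScalarTower K A R := IsScalarTower.of_algebraMap_eq fun c => (φ.commutes c).symm
  have hAF : ∀ a : A, algebraMap A F a = algebraMap R F (φ a) := fun a =>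
    IsScalarTower.algebraMap_apply A R F a
  have hKAF : IsScalarTower K A F := IsScalarTower.of_algebraMap_eq fun c => by
    rw [hAF, φ.commutes, ← IsScalarTower.algebraMap_apply K R F]
  have hinjF : Function.Injective (algebraMap A F) := by
    intro a b hab
    rw [hAF, hAF] at hab
    exact hφ (IsFractionRing.injective R F hab)
  -- every element of `R` is algebraic over `A`
  have halgR : ∀ r : R, IsAlgebraic A r := by
    intro r
    obtain ⟨p, hp0, hp⟩ := hx' r
    have hrange : ∀ c : Algebra.adjoin K (Set.range x), ∃ a : A, φ a = (c : R) := by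
      intro c
      have h1 : (c : R) ∈ (aeval x : MvPolynomial J K →ₐ[K] R).range := by
        rw [← Algebra.adjoin_range_eq_range_aeval]
        exact c.2
      exact h1
    choose t ht using hrange
    have ht0 : ∀ c, t c = 0 ↔ c = 0 := by
      intro c
      constructor
      · intro h
        have := ht c
        rw [h, map_zero] at this
        exact Subtype.ext this.symm
      · rintro rfl
        apply hφ
        rw [ht, map_zero]
        rfl
    let t' : Algebra.adjoin K (Set.range x) →+* A :=
      { toFun := t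
        map_one' := hφ (by rw [ht, map_one]; rfl)
        map_mul' := fun a b => hφ (by rw [ht, map_mul, ht, ht]; rfl)
        map_zero' := (ht0 0).2 rfl
        map_add' := fun a b => hφ (by rw [ht, map_add, ht, ht]; rfl) }
    have ht'inj : Function.Injective t' := (injective_iff_map_eq_zero t').2 fun c hc => (ht0 c).1 hc
    refine ⟨p.map t', (Polynomial.map_ne_zero_iff ht'inj).2 hp0, ?_⟩
    have h2 : Polynomial.aeval r (p.map t') = Polynomial.aeval r p := by
      rw [Polynomial.aeval_def, Polynomial.aeval_def, Polynomial.eval₂_map]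
      congr 1
      ext c
      exact ht c
    rw [h2, hp]
  have halgF : ∀ r : R, IsAlgebraic A (algebraMap R F r) := fun r => (halgR r).algebraMap
  obtain ⟨S, hS⟩ := (inferInstance : Algebra.FiniteType K R).out
  -- a common denominator
  let T : Finset F := insert (algebraMap R F f)⁻¹ (S.image (algebraMap R F))
  have hTalg : ∀ z ∈ T, IsAlgebraic A z := by
    intro z hz
    rcases Finset.mem_insert.1 hz with rfl | hz
    · exact (halgF f).inv
    · obtain ⟨s, -, rfl⟩ := Finset.mem_image.1 hz
      exact halgF s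
  have hden : ∃ g : A, g ≠ 0 ∧ ∀ z ∈ T, IsIntegral A (g • z) := by
    have h1 : ∀ z : F, ∃ y : A, y ≠ 0 ∧ (z ∈ T → IsIntegral A (y • z)) := by
      intro z
      by_cases hz : z ∈ T
      · obtain ⟨y, hy, hyz⟩ := (hTalg z hz).exists_integral_multiple
        exact ⟨y, hy, fun _ => hyz⟩
      · exact ⟨1, one_ne_zero, fun h => absurd h hz⟩
    choose y hy hyz using h1
    refine ⟨∏ z ∈ T, y z, Finset.prod_ne_zero_iff.2 fun z _ => hy z, fun z hz => ?_⟩
    rw [← Finset.prod_erase_mul _ _ hz, mul_smul]
    exact (hyz z hz).smul _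
  obtain ⟨g, hg0, hgT⟩ := hden
  obtain ⟨ζ, hζ, hgζ⟩ := torsH_point hg0
  let ev : A →ₐ[K] K := aeval ζ
  have hevg : ev g ≠ 0 := by
    have h1 : ev g = eval ζ g := congrFun (congrArg DFunLike.coe (coe_aeval_eq_eval ζ)) g
    rwa [h1]
  let B := integralClosure A F
  have hinjB : Function.Injective (algebraMap A B) := by
    intro a b hab
    apply hinjF
    exact congrArg (algebraMap B F) hab
  have hKAB : IsScalarTower K A B := IsScalarTower.of_algebraMap_eq fun c => by
    apply Subtype.ext
    exact IsScalarTower.algebraMap_apply K A F c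
  obtain ⟨Φ, hΦ⟩ := torsH_integral (K := K) (A := A) (B := B) hinjB ev
  let gB : B := algebraMap A B g
  have hgB0 : gB ≠ 0 := fun h => hg0 (hinjB (by rw [map_zero]; exact h))
  have hgBF : algebraMap B F gB ≠ 0 := by
    intro h
    exact hgB0 (Subtype.ext h)
  let C := Localization.Away gB
  have hu1 : IsUnit (algebraMap B F gB) := isUnit_iff_ne_zero.2 hgBF
  have hu2 : IsUnit ((Φ : B →+* K) gB) := by
    refine isUnit_iff_ne_zero.2 ?_
    change Φ (algebraMap A B g) ≠ 0
    rw [hΦ]
    exact hevg
  let ι : C →+* F := IsLocalization.Away.lift gB hu1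
  let Ψ : C →+* K := IsLocalization.Away.lift gB hu2
  have hι : ∀ b : B, ι (algebraMap B C b) = algebraMap B F b := fun b =>
    IsLocalization.Away.lift_eq gB hu1 b
  have hΨ : ∀ b : B, Ψ (algebraMap B C b) = Φ b := fun b =>
    IsLocalization.Away.lift_eq gB hu2 b
  have hιinj : Function.Injective ι := by
    rw [injective_iff_map_eq_zero]
    intro c hc
    obtain ⟨n, b, hb⟩ := IsLocalization.Away.surj gB c
    have h1 : ι (algebraMap B C b) = 0 := by
      rw [← hb, map_mul, hc, zero_mul]
    rw [hι] at h1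
    have h2 : b = 0 := Subtype.ext h1
    rw [h2, map_zero] at hb
    have hgu : IsUnit (algebraMap B C gB ^ n) := (IsLocalization.Away.algebraMap_isUnit gB).pow n
    exact (hgu.mul_left_eq_zero).1 hb
  -- the elements of `T` are in the range
  have hTr : ∀ z ∈ T, z ∈ ι.range := by
    intro z hz
    obtain ⟨v, hv⟩ := IsLocalization.Away.algebraMap_isUnit (S := C) gB
    refine ⟨algebraMap B C ⟨g • z, hgT z hz⟩ * (v⁻¹ : Cˣ), ?_⟩
    have h1 : ι (v⁻¹ : Cˣ) * algebraMap B F gB = 1 := by
      rw [← hι, ← map_mul, ← hv, Units.inv_mul, map_one]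
    rw [map_mul, hι]
    have h2 : (algebraMap B F ⟨g • z, hgT z hz⟩ : F) = algebraMap B F gB * z := by
      change g • z = algebraMap A F g * z
      rw [Algebra.smul_def]
    rw [h2, mul_comm, ← mul_assoc, h1, one_mul]
  have hAr : ∀ a : A, algebraMap A F a ∈ ι.range := fun a =>
    ⟨algebraMap B C (algebraMap A B a), by rw [hι]; rfl⟩
  have hRr : ∀ r : R, algebraMap R F r ∈ ι.range := by
    intro r
    have hr : r ∈ Algebra.adjoin K (S : Set R) := by rw [hS]; exact Algebra.mem_top
    refine Algebra.adjoin_induction (p := fun r _ => algebraMap R F r ∈ ι.range) ?_ ?_ ?_ ?_ hr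
    · intro s hs
      exact hTr _ (Finset.mem_insert_of_mem (Finset.mem_image_of_mem _ hs))
    · intro c
      have h1 : algebraMap R F (algebraMap K R c) = algebraMap A F (algebraMap K A c) := by
        rw [← IsScalarTower.algebraMap_apply K R F, ← IsScalarTower.algebraMap_apply K A F]
      rw [h1]
      exact hAr _
    · intro a b _ _ ha hb
      rw [map_add]
      exact ι.range.add_mem ha hb
    · intro a b _ _ ha hb
      rw [map_mul]
      exact ι.range.mul_mem ha hb
  choose c hc using hRr
  have hc0 : ∀ a : A, c (φ a) = algebraMap B C (algebraMap A B a) := by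
    intro a
    apply hιinj
    rw [hc, hι]
    rfl
  let c' : R →+* C :=
    { toFun := c
      map_one' := hιinj (by rw [hc, map_one, map_one])
      map_mul' := fun a b => hιinj (by rw [hc, map_mul, map_mul, hc, hc])
      map_zero' := hιinj (by rw [hc, map_zero, map_zero])
      map_add' := fun a b => hιinj (by rw [hc, map_add, map_add, hc, hc]) }
  have hval : ∀ a : A, Ψ (c' (φ a)) = ev a := by
    intro a
    change Ψ (c (φ a)) = ev a
    rw [hc0, hΨ, hΦ]
  let ψ : R →ₐ[K] K :=
    { (Ψ.comp c') with
      commutes' := fun k => by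
        change Ψ (c' (algebraMap K R k)) = k
        rw [← φ.commutes, hval, ev.commutes]
        rfl }
  refine ⟨ψ, ?_, ?_⟩
  · change Ψ (c f) ≠ 0
    obtain ⟨e, he⟩ := hTr _ (Finset.mem_insert_self _ _)
    have h1 : c f * e = 1 := by
      apply hιinj
      rw [map_mul, hc, he, map_one]
      refine mul_inv_cancel₀ ?_
      rwa [Ne, map_eq_zero_iff _ (IsFractionRing.injective R F)]
    intro h2
    have h3 := congrArg Ψ h1
    rw [map_mul, h2, zero_mul, map_one] at h3
    exact zero_ne_one h3
  · intro j
    obtain ⟨N, hN, hζN⟩ := hζ j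
    refine ⟨N, hN, ?_⟩
    have h1 : ψ (x j) = ζ j := by
      change Ψ (c' (x j)) = ζ j
      have h2 : x j = φ (X j) := (aeval_X x j).symm
      rw [h2, hval]
      exact aeval_X ζ j
    rw [h1, hζN]

end Pool.Agent.Lib.MP_a325a5_ag.UL
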